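import Pool.Agent.Run7.h555.XK.Fin
import Pool.Agent.Run7.h741.XK.Plc3
import Pool.Agent.Run7.h238.XK.TAMK
import Pool.Agent.Run7.h238.XK.W0
import Pool.Agent.Run7.h289.XK.M15K
import Pool.Agent.Run7.h289.XK.MANY
import Pool.Agent.Run7.h289.XK.JDENS
import Pool.Agent.Run7.h135.XK.Alg
import Pool.Agent.Run7.h238.XK.RK4

/-!
# The 2-part of the refined conjecture for `X_0(15)` over imaginary quadratic fields, exact proportion

`E` is the curve `X_0(15) : y² + x y + y = x³ + x² - 10 x - 10` (no complex multiplication), and `K` runs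
through ALL imaginary quadratic fields in which two is unramified, three splits and five is inert and
whose discriminant `D` is `13` or `37` modulo `60`; `t` is the number of the prime divisors of `D`.
There is no condition on the number or the type of these primes, and no hypothesis on ranks, on `Ш` or
on L-functions.

For every such `K`:
* the equation of `E` is minimal at all finite places of `K`, the product of the Tamagawa numbers is
  `16`, and `L(E/K, s)` is entire;
* `L(E/K, 1) √|D| 8² = y² 4^(t-1) Ω_{E/K} ∏ c_v` with an integer `y`, which is odd if and only if the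
  class group of `K` has no element of order four;
* `E(K)` is finitely generated, `#Ш(E/K)[2] · 2^(rank E(K)) = 4^(t-1)`, and the rank of `E(K)` is at most
  twice the 4-rank of the class group of `K`;
* the class group has no element of order four if and only if the 2-part of the formula holds with
  `L(E/K, 1) ≠ 0` and `Ш(E/K)[2^∞]` of exponent two (`TwoPart`): `E(K)` has order `8`,
  `Ш(E/K)[2^∞]` is killed by two and has order `4^(t-1) = (#Cl(K)[2^∞])²`, and `L(E/K, 1)` is the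
  right side of the formula, with `#Ш(E/K)[2^∞]`, times the square of an odd integer.
The proportion of the `K` with this property, ordered by the discriminant, is exactly
`∏_{i ≥ 1} (1 - 2^{-i}) = 0.2888...`, also with the further condition `t ≥ k` for any `k`; and for
finitely many fixed multipliers `a_i` the events `TwoPart (ℚ(√(a_i D)))` are independent.
-/

set_option autoImplicit false

open NumberField NumberField.InfinitePlace IsDedekindDomain WeierstrassCurve MeasureTheory Filter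
  Topology

namespace Pool.Agent.Results.MP_f50388_nt.ImaginaryQuadraticTwoPart

open Pool.Agent.TH841.NF.D (Sha)
open Pool.Agent.TH841.SH.D (Pt)
open Pool.Agent.Y682 (MP)

/-- The curve `X_0(15) : y² + x y + y = x³ + x² - 10 x - 10`. -/
def E : WeierstrassCurve ℤ := ⟨1, 1, 1, -10, -10⟩

/-- The curve given by the equation of `W` over the ring `R`. -/
abbrev base (W : WeierstrassCurve ℤ) (R : Type) [CommRing R] : WeierstrassCurve R :=
  W.map (Int.castRingHom R)

section

variable {K : Type} [Field K] [NumberField K]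

/-- The equation is minimal at the finite place `v` of `K`: no change of variables over `K` that
keeps the coefficients integral at `v` decreases the order of the discriminant. -/
def MinimalAt (W : WeierstrassCurve K) (v : HeightOneSpectrum (𝓞 K)) : Prop :=
  ∀ C : VariableChange K, v.valuation K (C • W).a₁ ≤ 1 → v.valuation K (C • W).a₂ ≤ 1 →
    v.valuation K (C • W).a₃ ≤ 1 → v.valuation K (C • W).a₄ ≤ 1 → v.valuation K (C • W).a₆ ≤ 1 →
    v.valuation K (C • W).Δ ≤ v.valuation K W.Δ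

/-- `W⁰(K_v)`, the group of the points of `W` over the completion `K_v` with nonsingular reduction:
the point at infinity and the points `(x, y)` where `x` is not integral, or one of the partial
derivatives of `y² + a₁ x y + a₃ y - x³ - a₂ x² - a₄ x - a₆` is a unit at `(x, y)`.
Here `Pt W K_v` is the group of the points of `W` over `K_v`. -/
noncomputable def nonsing (W : WeierstrassCurve K) (v : HeightOneSpectrum (𝓞 K)) :
    AddSubgroup (Pt W (v.adicCompletion K)) :=
  AddSubgroup.closure {P | ∀ x y h, P = Affine.Point.some x y h →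
    1 < Valued.v x ∨
    Valued.v ((W.baseChange (v.adicCompletion K)).a₁ * y -
      (3 * x ^ 2 + 2 * (W.baseChange (v.adicCompletion K)).a₂ * x +
        (W.baseChange (v.adicCompletion K)).a₄)) = 1 ∨
    Valued.v (2 * y + (W.baseChange (v.adicCompletion K)).a₁ * x +
      (W.baseChange (v.adicCompletion K)).a₃) = 1}

/-- The Tamagawa number `c_v = [W(K_v) : W⁰(K_v)]` of a minimal equation. -/
noncomputable def c (W : WeierstrassCurve K) (v : HeightOneSpectrum (𝓞 K)) : ℕ :=
  (nonsing W v).index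

/-- The product of the Tamagawa numbers. -/
noncomputable def Tam (W : WeierstrassCurve K) : ℕ := ∏ᶠ v : HeightOneSpectrum (𝓞 K), c W v

/-- The 2-primary part of the Tate-Shafarevich group over `K`. -/
def Sha2 (W : WeierstrassCurve K) : Set (Sha W) := {x | ∃ n : ℕ, 2 ^ n • x = 0}

end

/-- `4 x³ + b₂ x² + 2 b₄ x + b₆ = (2 y + a₁ x + a₃)²`. -/
def cubic (W : WeierstrassCurve ℤ) {R : Type} [CommRing R] (x : R) : R :=
  4 * x ^ 3 + W.b₂ * x ^ 2 + 2 * W.b₄ * x + W.b₆

/-- `∫_{W(ℝ)} |ω|` with `ω = dx / (2 y + a₁ x + a₃)`, as an integral over `x`: two real points lie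
over each `x` with `cubic x > 0`. -/
noncomputable def realPeriod (W : WeierstrassCurve ℤ) : ℝ :=
  2 * ∫ x in {x : ℝ | 0 < cubic W x}, 1 / √(cubic W x)

/-- `2 ∫_{W(ℂ)} |ω ∧ ω̄|`, where `|ω ∧ ω̄| = du dv` in a local parameter `z = u + i v` with
`dz = ω`, as an integral over `x`: two points lie over a general `x`, and `|ω ∧ ω̄|` is the area
element of the plane of `x` divided by `|cubic x|`. -/
noncomputable def complexPeriod (W : WeierstrassCurve ℤ) : ℝ := 2 * (2 * ∫ x : ℂ, 1 / ‖cubic W x‖)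

/-- `Ω_{W/K}`. -/
noncomputable def Omega (K : Type) [Field K] [NumberField K] (W : WeierstrassCurve ℤ) : ℝ :=
  realPeriod W ^ nrRealPlaces K * complexPeriod W ^ nrComplexPlaces K

/-- The right side of the formula for a curve of rank zero with an equation that is minimal at all
finite places, with the 2-primary part of the Tate-Shafarevich group:
`#Ш(W/K)[2^∞] Ω_{W/K} ∏ c_v / (√|Disc K| #W(K)²)`. -/
noncomputable def rhs (K : Type) [Field K] [NumberField K] (W : WeierstrassCurve ℤ) : ℝ :=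
  (Nat.card (Sha2 (base W K)) : ℝ) * Omega K W * (Tam (base W K) : ℝ) /
    (√|(discr K : ℝ)| * (Nat.card (base W K).toAffine.Point : ℝ) ^ 2)

/-- `K` is an imaginary quadratic field with discriminant `13` or `37` modulo `60` (two is unramified,
three splits, five is inert). -/
def Class (K : Type) [Field K] [NumberField K] : Prop :=
  Module.finrank ℚ K = 2 ∧ discr K < 0 ∧ (discr K % 60 = 13 ∨ discr K % 60 = 37)

/-- The number of the prime divisors of the discriminant. -/
noncomputable def ram (K : Type) [Field K] [NumberField K] : ℕ :=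
  (discr K).natAbs.primeFactors.card

/-- The class group of `K` has no element of order four. -/
def NoFour (K : Type) [Field K] [NumberField K] : Prop :=
  ∀ c : ClassGroup (𝓞 K), c ^ 4 = 1 → c ^ 2 = 1

/-- `F` is the entire continuation of the L-function of `E` over `K`. -/
def IsLFun (K : Type) [Field K] [NumberField K] (F : ℂ → ℂ) : Prop :=
  Differentiable ℂ F ∧ ∀ s : ℂ, 2 < s.re → F s = (base E K).LSeries s

/-- The 2-part of the refined conjecture for `E` over `K`, with `L(E/K, 1) ≠ 0`: the group `E(K)` has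
order `8`, the 2-primary part of `Ш(E/K)` is killed by two and its order is the square of the
order of the 2-primary part of the class group of `K`, and the value at `s = 1` of the entire
L-function is the right side of the formula times the square of an odd integer. -/
def TwoPart (K : Type) [Field K] [NumberField K] : Prop :=
  Nat.card (base E K).toAffine.Point = 8 ∧
  (∀ x ∈ Sha2 (base E K), 2 • x = 0) ∧
  Nat.card (Sha2 (base E K)) = 4 ^ (ram K - 1) ∧
  Nat.card (Sha2 (base E K)) = Nat.card {c : ClassGroup (𝓞 K) // ∃ k : ℕ, c ^ 2 ^ k = 1} ^ 2 ∧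
  ∃ F : ℂ → ℂ, IsLFun K F ∧ F 1 ≠ 0 ∧ ∃ y : ℤ, Odd y ∧ F 1 = (y : ℂ) ^ 2 * ((rhs K E : ℝ) : ℂ)

/-- The number of the fields `K` in the class with `|Disc K| ≤ X` and the property `Q` (an imaginary
quadratic field is determined by its discriminant). -/
noncomputable def num (Q : ∀ (K : Type) [Field K] [NumberField K], Prop) (X : ℕ) : ℕ :=
  Nat.card {n : ℕ // n ≤ X ∧ ∃ (K : Type) (_ : Field K) (_ : NumberField K),
    Class K ∧ discr K = -(n : ℤ) ∧ Q K}

/-- `L` is the quadratic field `ℚ(√(a Disc K))`. -/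
def IsTwist (a : ℕ) (K : Type) [Field K] [NumberField K] (L : Type) [Field L] [NumberField L] :
    Prop :=
  Module.finrank ℚ L = 2 ∧ ∃ r : L, r ^ 2 = (a : L) * (discr K : L)

/-- The 2-part (`TwoPart`) holds over the field `ℚ(√(a Disc K))`. -/
def TwoPartTwist (a : ℕ) (K : Type) [Field K] [NumberField K] : Prop :=
  ∃ (L : Type) (_ : Field L) (_ : NumberField L), IsTwist a K L ∧ TwoPart L

/-- the constant `0.2888...` -/
noncomputable def eta : ℝ := ∏' i : ℕ, (1 - (1 / 2 : ℝ) ^ (i + 1))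

section proof

open Run7.h555.XK (QF Cl ClK Pk)
open Pool.Agent.N969.P15 (Qc)

variable {K : Type} [Field K] [NumberField K] {n : ℕ}

theorem four_of_pow (h : NoFour K) (k : ℕ) (c : ClassGroup (𝓞 K)) (hc : c ^ 2 ^ k = 1) :
    c ^ 2 = 1 := by
  induction k with
  | zero =>
    rw [pow_zero, pow_one] at hc
    rw [hc, one_pow]
  | succ k ih =>
    rcases Nat.eq_zero_or_pos k with rfl | hk
    · simpa using hc
    · apply ih
      obtain ⟨j, rfl⟩ : ∃ j, k = j + 1 := ⟨k - 1, by omega⟩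
      have h1 : (c ^ 2 ^ j) ^ 4 = 1 := by
        rw [← pow_mul]
        rw [show 2 ^ j * 4 = 2 ^ (j + 1 + 1) by ring]
        exact hc
      have h2 := h _ h1
      rw [← pow_mul] at h2
      rw [show 2 ^ (j + 1) = 2 ^ j * 2 by ring]
      exact h2

theorem card_cl (h : NoFour K) : Nat.card {c : ClassGroup (𝓞 K) // ∃ k : ℕ, c ^ 2 ^ k = 1} =
    Nat.card {c : ClassGroup (𝓞 K) // c ^ 2 = 1} := by
  refine Nat.card_congr (Equiv.subtypeEquivRight fun c => ⟨?_, fun hc => ⟨1, by rwa [pow_one]⟩⟩)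
  rintro ⟨k, hk⟩
  exact four_of_pow h k c hk

theorem ram_eq (hd : discr K = -(n : ℤ)) : ram K = n.primeFactors.card := by
  unfold ram
  rw [hd, Int.natAbs_neg, Int.natAbs_natCast]

theorem rhs_eq (hp : Pk K n) (hq : Qc n) :
    rhs K E * (√|(discr K : ℝ)| * 8 ^ 2) =
      4 ^ (n.primeFactors.card - 1) * (Omega K E * (Tam (base E K) : ℝ)) := by
  obtain ⟨a1, -, a3⟩ := hp.alg hq
  have b1 : Nat.card (base E K).toAffine.Point = 8 := a1
  have b3 : Nat.card (Sha2 (base E K)) = 4 ^ (n.primeFactors.card - 1) := a3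
  have hs : √|(discr K : ℝ)| ≠ 0 := by
    refine (Real.sqrt_pos.2 (abs_pos.2 ?_)).ne'
    exact_mod_cast discr_ne_zero K
  unfold rhs
  rw [b1, b3]
  push_cast
  field_simp

/-- the 2-part for one field -/
theorem twoPart_iff (hK : QF K n) (hn : Cl n) (hd : discr K = -(n : ℤ)) (hp : Pk K n) :
    TwoPart K ↔ Qc n := by
  obtain ⟨F, hF, hs, y, hy, hv⟩ := hp.val
  have hv' : F 1 * (((√|(discr K : ℝ)| : ℝ) : ℂ) * 8 ^ 2) =
      (y : ℂ) ^ 2 * 4 ^ (n.primeFactors.card - 1) *
        (((Omega K E : ℝ) : ℂ) * (Tam (base E K) : ℂ)) := hv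
  have hT : Tam (base E K) = 16 := hp.tam
  have hO : 0 < Omega K E := hp.om
  have hs0 : √|(discr K : ℝ)| ≠ 0 := by
    refine (Real.sqrt_pos.2 (abs_pos.2 ?_)).ne'
    exact_mod_cast discr_ne_zero K
  have hsc : ((√|(discr K : ℝ)| : ℝ) : ℂ) * 8 ^ 2 ≠ 0 :=
    mul_ne_zero (by exact_mod_cast hs0) (by norm_num)
  have hOc : ((Omega K E : ℝ) : ℂ) ≠ 0 := by exact_mod_cast hO.ne'
  constructor
  · rintro ⟨h8, -, h4, -, F', ⟨hF', hs'⟩, -, y', hy', hv2⟩
    rw [← hy]
    have e1 : F 1 = F' 1 := Run7.h555.XK.unique_ext hF hF' fun s h => by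
      rw [hs s h, hs' s h]
      rfl
    have e2 : F' 1 * (((√|(discr K : ℝ)| : ℝ) : ℂ) * 8 ^ 2) =
        (y' : ℂ) ^ 2 * 4 ^ (n.primeFactors.card - 1) *
          (((Omega K E : ℝ) : ℂ) * (Tam (base E K) : ℂ)) := by
      rw [ram_eq hd] at h4
      have hr : rhs K E * (√|(discr K : ℝ)| * 8 ^ 2) =
          4 ^ (n.primeFactors.card - 1) * (Omega K E * (Tam (base E K) : ℝ)) := by
        unfold rhs
        rw [h8, h4]
        push_cast
        field_simp
      have hr' := congrArg (fun x : ℝ => (x : ℂ)) hr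
      push_cast at hr'
      rw [hv2]
      linear_combination ((y' : ℂ) ^ 2) * hr'
    rw [e1, e2, hT] at hv'
    have h4c : (4 : ℂ) ^ (n.primeFactors.card - 1) ≠ 0 := pow_ne_zero _ (by norm_num)
    have e3 : ((y' : ℂ)) ^ 2 = (y : ℂ) ^ 2 := by
      have h16 : ((Omega K E : ℝ) : ℂ) * (16 : ℕ) ≠ 0 := mul_ne_zero hOc (by norm_num)
      exact mul_right_cancel₀ h4c (mul_right_cancel₀ h16 hv')
    have e4 : y' ^ 2 = y ^ 2 := by exact_mod_cast e3
    have h5 : Odd (y ^ 2) := by
      rw [← e4]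
      exact hy'.pow
    exact (Int.odd_pow.1 h5).resolve_right (by norm_num)
  · intro hq
    obtain ⟨a1, a2, a3⟩ := hp.alg hq
    have hno : NoFour K := (Run7.h555.XK.no_four hK hn).1 hq
    have hyo := hy.2 hq
    have b3 : Nat.card (Sha2 (base E K)) = 4 ^ (n.primeFactors.card - 1) := a3
    refine ⟨a1, ?_, ?_, ?_, F, ⟨hF, fun s h => hs s h⟩, ?_, y, hyo, ?_⟩
    · rintro x ⟨k, hk⟩
      exact a2 k x hk
    · rw [ram_eq hd]
      exact a3
    · rw [card_cl hno, Run7.h555.XK.card_two hK hn, b3, ← pow_mul, mul_comm, pow_mul]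
      norm_num
    · intro h0
      rw [h0, zero_mul, hT] at hv'
      have hy0 : (y : ℂ) ≠ 0 := by
        intro h2
        have h3 : y = 0 := by exact_mod_cast h2
        rw [h3] at hyo
        exact absurd hyo (by decide)
      exact mul_ne_zero (mul_ne_zero (pow_ne_zero 2 hy0) (pow_ne_zero _ (by norm_num)))
        (mul_ne_zero hOc (by norm_num)) hv'.symm
    · have hr' := congrArg (fun x : ℝ => (x : ℂ)) (rhs_eq hp hq)
      push_cast at hr'
      apply mul_right_cancel₀ hsc
      rw [hv']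
      linear_combination (-(y : ℂ) ^ 2) * hr'

/-- counting -/
theorem num_eq {Q : ∀ (K : Type) [Field K] [NumberField K], Prop} {Q' : ℕ → Prop}
    (h : ∀ (K : Type) [Field K] [NumberField K] (n : ℕ), QF K n → Cl n → discr K = -(n : ℤ) →
      (Q K ↔ Q' n)) (X : ℕ) :
    num Q X = Nat.card {n : ℕ // n ≤ X ∧ Cl n ∧ Q' n} := by
  unfold num
  refine Nat.card_congr (Equiv.subtypeEquivRight fun n => and_congr_right fun _ => ?_)
  constructor
  · rintro ⟨K, i1, i2, hK, hd, hQ⟩
    obtain ⟨m, h1, h2, h3⟩ := ClK.ex (K := K) hK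
    have h4 : m = n := by
      rw [h3] at hd
      omega
    subst h4
    exact ⟨h2, (h K m h1 h2 h3).1 hQ⟩
  · rintro ⟨hn, hQ⟩
    obtain ⟨K, i1, i2, h1, h2, h3⟩ := hn.exK
    exact ⟨K, i1, i2, h1, h3, (h K n h2 hn h3).2 hQ⟩

open Classical in
theorem card_filter (Q' : ℕ → Prop) (X : ℕ) : Nat.card {n : ℕ // n ≤ X ∧ Cl n ∧ Q' n} =
    ((Finset.Icc 1 X).filter fun n => Squarefree n ∧ (n % 60 = 23 ∨ n % 60 = 47) ∧ Q' n).card := by
  refine Nat.subtype_card _ fun n => ?_
  rw [Finset.mem_filter, Finset.mem_Icc]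
  constructor
  · rintro ⟨⟨-, h2⟩, h3, h4, h5⟩
    exact ⟨h2, ⟨h3, h4⟩, h5⟩
  · rintro ⟨h2, hc, h5⟩
    exact ⟨⟨Nat.one_le_iff_ne_zero.2 hc.1.ne_zero, h2⟩, hc.1, hc.2, h5⟩

/-- everything for one field -/
theorem pk (hK : QF K n) (hn : Cl n) : Pk K n :=
  Run7.h555.XK.pack Run7.h741.XK.Plc.t_PLC Pool.Agent.Run7.h289.XK.t_M15K Run7.h238.XK.t_W0
    Run7.h238.XK.t_MINK Run7.h238.XK.t_TAMK
    (fun K _ _ n hK hn hq => by
      rw [Run7.h555.XK.base_eq']
      exact Run7.h135.XK.alg_fin hn hq hK.two hK.sq) hK hn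

/-- the Mordell-Weil group and the 2-torsion of `Ш` -/
theorem sel (hK : QF K n) (hn : Cl n) : Module.Finite ℤ (MP (base E K)) ∧
    Nat.card {x : Sha (base E K) // 2 • x = 0} * 2 ^ Module.finrank ℤ (MP (base E K)) =
      4 ^ (n.primeFactors.card - 1) := by
  rw [show base E K = (⟨1, 1, 1, -10, -10⟩ : WeierstrassCurve K) from Run7.h555.XK.base_eq' K]
  exact Run7.h135.XK.sel_fin hn hK.two hK.sq

/-- the rank and the 4-rank of the class group -/
theorem rk (hK : QF K n) (hn : Cl n) : ∃ k : ℕ,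
    Nat.card {y : ClassGroup (𝓞 K) // ∃ x : ClassGroup (𝓞 K), x ^ 4 = 1 ∧ x ^ 2 = y} = 2 ^ k ∧
    Module.finrank ℤ (MP (base E K)) ≤ 2 * k := by
  rw [show base E K = (⟨1, 1, 1, -10, -10⟩ : WeierstrassCurve K) from Run7.h555.XK.base_eq' K]
  obtain ⟨r, hr⟩ := hK.sq
  obtain ⟨k, h1, -, -, h4⟩ := Run7.h238.XK.rk4 Run7.h135.XK.t_FQ hK hn
    (Run7.h135.XK.qk_of hn hK.two hr)
  exact ⟨k, h1, h4⟩

/-- the 2-part for the twist of the field -/
theorem twist_iff {a : ℕ} (ha : Pool.Agent.Run7.h289.XK.Mult a) (hn : Cl n)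
    (hd : discr K = -(n : ℤ)) : TwoPartTwist a K ↔ Qc (Pool.Agent.Run7.h238.J.tw a n) := by
  have hm := Pool.Agent.Run7.h289.XK.cl_tw ha hn
  have hmul := Pool.Agent.Run7.h289.D18.tw_mul a n
  have hg : Nat.gcd a n ≠ 0 := fun h0 => hn.1.ne_zero (Nat.eq_zero_of_gcd_eq_zero_right h0)
  have key : ∀ (L : Type) [Field L] [NumberField L], IsTwist a K L → QF L
      (Pool.Agent.Run7.h238.J.tw a n) := by
    intro L _ _ h
    obtain ⟨h2, r, hr⟩ := h
    refine ⟨h2, r / (Nat.gcd a n : L), ?_⟩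
    have hgL : ((Nat.gcd a n : ℕ) : L) ≠ 0 := by exact_mod_cast hg
    have hmulL : ((Pool.Agent.Run7.h238.J.tw a n : ℕ) : L) * ((Nat.gcd a n : ℕ) : L) ^ 2 =
        (a : L) * (n : L) := by exact_mod_cast congrArg (Nat.cast (R := L)) hmul
    rw [div_pow, hr, hd, div_eq_iff (pow_ne_zero 2 hgL)]
    push_cast
    linear_combination hmulL
  constructor
  · rintro ⟨L, i1, i2, hL, h2⟩
    have hQ := key L hL
    exact (twoPart_iff hQ hm (Run7.h555.XK.t_DSC L _ hQ hm).1 (pk hQ hm)).1 h2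
  · intro hq
    obtain ⟨L, i1, i2, -, hQ, hdL⟩ := hm.exK
    refine ⟨L, i1, i2, ⟨hQ.two, ?_⟩, (twoPart_iff hQ hm hdL (pk hQ hm)).2 hq⟩
    obtain ⟨r, hr⟩ := hQ.sq
    refine ⟨(Nat.gcd a n : L) * r, ?_⟩
    have hmulL : ((Pool.Agent.Run7.h238.J.tw a n : ℕ) : L) * ((Nat.gcd a n : ℕ) : L) ^ 2 =
        (a : L) * (n : L) := by exact_mod_cast congrArg (Nat.cast (R := L)) hmul
    rw [mul_pow, hr, hd]
    push_cast
    linear_combination -hmulL

end proof

/-- **The 2-part of the refined conjecture of Birch and Swinnerton-Dyer for `X_0(15)` over the imaginary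
quadratic fields with discriminant `13` or `37` modulo `60`.** -/
theorem result :
    (∀ (K : Type) [Field K] [NumberField K], Class K →
      (∀ v : HeightOneSpectrum (𝓞 K), MinimalAt (base E K) v) ∧
      Tam (base E K) = 16 ∧
      Nat.card {c : ClassGroup (𝓞 K) // c ^ 2 = 1} = 2 ^ (ram K - 1) ∧
      (∃ F : ℂ → ℂ, IsLFun K F ∧ ∃ y : ℤ, (Odd y ↔ NoFour K) ∧
        F 1 * (((√|(discr K : ℝ)| : ℝ) : ℂ) * 8 ^ 2) =
          (y : ℂ) ^ 2 * 4 ^ (ram K - 1) * (((Omega K E : ℝ) : ℂ) * (Tam (base E K) : ℂ))) ∧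
      Module.Finite ℤ (MP (base E K)) ∧
      Nat.card {x : Sha (base E K) // 2 • x = 0} * 2 ^ Module.finrank ℤ (MP (base E K)) =
        4 ^ (ram K - 1) ∧
      (∃ k : ℕ, Nat.card {y : ClassGroup (𝓞 K) // ∃ x : ClassGroup (𝓞 K),
        x ^ 4 = 1 ∧ x ^ 2 = y} = 2 ^ k ∧ Module.finrank ℤ (MP (base E K)) ≤ 2 * k) ∧
      (TwoPart K ↔ NoFour K)) ∧
    Tendsto (fun X : ℕ => (num TwoPart X : ℝ) / (num (fun _ _ _ => True) X : ℝ)) atTop (𝓝 eta) ∧
    0.2887 < eta ∧ eta < 0.2889 ∧
    Tendsto (fun X : ℕ => (num (fun _ _ _ => True) X : ℝ) / X) atTop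
      (𝓝 (5 / (16 * Real.pi ^ 2))) ∧
    (∀ k : ℕ, Tendsto (fun X : ℕ => (num (fun K _ _ => TwoPart K ∧ k ≤ ram K) X : ℝ) /
      (num (fun _ _ _ => True) X : ℝ)) atTop (𝓝 eta)) ∧
    (∀ (M : ℕ) (a : Fin M → ℕ), Function.Injective a →
      (∀ i, Squarefree (a i) ∧ a i % 12 = 1 ∧ (a i % 5 = 1 ∨ a i % 5 = 4)) →
      ∀ S : Finset (Fin M),
        Tendsto (fun X : ℕ => (num (fun K _ _ => ∀ i, TwoPartTwist (a i) K ↔ i ∈ S) X : ℝ) /
          (num (fun _ _ _ => True) X : ℝ)) atTop
          (𝓝 (eta ^ S.card * (1 - eta) ^ (M - S.card)))) := by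
  classical
  have hT : ∀ X : ℕ, num (fun _ _ _ => True) X = Nat.card {n : ℕ // n ≤ X ∧ Run7.h555.XK.Cl n} := by
    intro X
    rw [num_eq (Q := fun _ _ _ => True) (Q' := fun _ => True) (fun _ _ _ _ _ _ _ => Iff.rfl) X]
    refine Nat.card_congr (Equiv.subtypeEquivRight fun n => ?_)
    rw [and_true]
  have hT' : ∀ X : ℕ, num (fun _ _ _ => True) X =
      ((Finset.Icc 1 X).filter fun n => Squarefree n ∧ (n % 60 = 23 ∨ n % 60 = 47)).card := by
    intro X
    rw [num_eq (Q := fun _ _ _ => True) (Q' := fun _ => True) (fun _ _ _ _ _ _ _ => Iff.rfl) X,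
      card_filter]
    simp only [and_true]
  refine ⟨?_, ?_, Pool.Agent.N916.GB.eta_bounds.1, Pool.Agent.N916.GB.eta_bounds.2, ?_, ?_, ?_⟩
  · intro K _ _ hK
    obtain ⟨n, hQ, hn, hd⟩ := Run7.h555.XK.ClK.ex (K := K) hK
    have hp := pk hQ hn
    have hno := Run7.h555.XK.no_four hQ hn
    refine ⟨hp.min, hp.tam, ?_, ?_, (sel hQ hn).1, ?_, rk hQ hn, ?_⟩
    · rw [ram_eq hd]
      exact Run7.h555.XK.card_two hQ hn
    · obtain ⟨F, hF, hs, y, hy, hv⟩ := hp.val
      rw [ram_eq hd]
      exact ⟨F, ⟨hF, hs⟩, y, hy.trans hno, hv⟩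
    · rw [ram_eq hd]
      exact (sel hQ hn).2
    · rw [twoPart_iff hQ hn hd hp]
      exact hno
  · refine Pool.Agent.N916.GB.density_Qc.congr fun X => ?_
    rw [hT' X, num_eq (Q := TwoPart) (Q' := Pool.Agent.N969.P15.Qc)
      (fun K _ _ n hQ hn hd => twoPart_iff hQ hn hd (pk hQ hn)) X, card_filter]
  · have h := Run7.h238.G15.lim_Bb
    have e : (6 / Real.pi ^ 2 * (5 / 96) : ℝ) = 5 / (16 * Real.pi ^ 2) := by
      have : Real.pi ≠ 0 := Real.pi_ne_zero
      field_simp
      norm_num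
    rw [e] at h
    refine h.congr fun X => ?_
    rw [hT' X]
    rfl
  · intro k
    refine (Pool.Agent.Run7.h289.XK.t_MANY k).congr fun X => ?_
    rw [hT X, num_eq (Q := fun K _ _ => TwoPart K ∧ k ≤ ram K)
      (Q' := fun n => Pool.Agent.N969.P15.Qc n ∧ k ≤ n.primeFactors.card)
      (fun K _ _ n hQ hn hd => by rw [twoPart_iff hQ hn hd (pk hQ hn), ram_eq hd]) X]
  · intro M a ha hM S
    have hM' : ∀ i, Pool.Agent.Run7.h289.XK.Mult (a i) := fun i =>
      ⟨(hM i).1, (hM i).2.1, (hM i).2.2⟩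
    refine (Pool.Agent.Run7.h289.XK.t_JDENS ha hM' S).congr fun X => ?_
    rw [hT X, num_eq (Q := fun K _ _ => ∀ i, TwoPartTwist (a i) K ↔ i ∈ S)
      (Q' := fun n => ∀ i, Pool.Agent.N969.P15.Qc (Pool.Agent.Run7.h238.J.tw (a i) n) ↔ i ∈ S)
      (fun K _ _ n hQ hn hd => forall_congr' fun i => by rw [twist_iff (hM' i) hn hd]) X]

end Pool.Agent.Results.MP_f50388_nt.ImaginaryQuadraticTwoPart
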