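import Pool.Agent.Run7.h184.TC.EcIso
import Pool.Agent.Run7.h184.Kept.RankTotallyComplex

/-!
# The Birch-Swinnerton-Dyer formula modulo `ℚ^*` over all number fields: totally complex fields suffice

`E` is an elliptic curve over a number field `K` (for the problem: `K = ℚ`), `U` a connected subset of
the plane that contains `Re s > 3/2` and `s = 1` (`Region`).  For a finite extension `F` of `K` let

* `R` be the determinant of the Néron-Tate pairing on `r = rank E(F)` independent points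
  (`IsRegulator`; the pairing is the biadditive symmetric form with `B(P, P) = h(x(P)) + O(1)`,
  `h` the logarithmic height of Mathlib, relative to `F`),
* `Ω(E/F) = period` the product of the integrals of `|ω|` over `E(F_w)`, `w` real, and of `|ω ∧ ω̄|` over
  `E(F_w)`, `w` complex, for the differential `ω = dx / (2y + a₁x + a₃)`.

The full conjecture implies, since `#Ш C / #E(F)_tors²` is rational, the formula modulo `ℚ^*`:
`L^*(E/F) ∈ ℚ^* R Ω(E/F) / |Disc(F)|^{1/2}`.  We consider the formula up to powers: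

`LeadingTerm (E/F)`: for some `k > 0` the function `L(E/F, s)^k` (all Euler factors, from minimal models)
is meromorphic on `U`, of order `k r` at `s = 1`, with leading coefficient in
`ℚ^* (R Ω(E/F) / |Disc(F)|^{1/2})^k`;  `RankFormula (E/F)`: the part about the order.

A totally complex field `F` is of CYCLIC TYPE if `N/F` is cyclic for a finite Galois extension `N` of `K`
that contains `F`.  For a real embedding `v` of `K` let `r_v(F)` be the number of the embeddings of `F` in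
`ℝ` that extend `v`.  We prove:

0. (universal relations, no hypothesis on `E`)  If `∑ a_i r_v(F_i) = 0` for all `v` (for instance one
   totally complex `F`, or `F - r₁(F) ℚ` over `K = ℚ`), there are `m > 0`, totally complex fields `Y_j` of
   cyclic type and integers `n_j` such that for ALL elliptic curves `E` over `K` a power of
   `(∏ L(E/F_i, s)^{a_i})^m / ∏ L(E/Y_j, s)^{n_j}` is meromorphic on `U`, of order `0` at `1`, with value
   in `ℚ^*`, `m ∑ a_i rank E(F_i) = ∑ n_j rank E(Y_j)`, and a power of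
   `(∏ R(F_i)^{a_i})^m / ∏ R(Y_j)^{n_j}` is in `ℚ^*`.  (The last two assertions use Mordell-Weil and
   Néron-Tate: all `E(G)` have finite rank and a non-degenerate Néron-Tate pairing.)
1. (`ComplexFieldsSuffice`, for `LeadingTerm` and for `RankFormula`)  The formula for the totally complex
   `F` of cyclic type implies it for all totally complex `F`, and, with the formula for finitely many `F_i`
   with vectors `(r_v(F_i))_v` spanning `ℚ^{v}`, for all finite extensions.  For `K = ℚ`: the formula for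
   all number fields is EQUIVALENT to the formula for the totally complex fields of cyclic type and for
   ONE field with a real embedding, for instance `ℚ`.  Instead of `E` one can take, for this last field, a
   curve `E'` isomorphic to `E` over a field with a real embedding (for instance a twist by `d > 0`; it is
   known that every `E` has such a twist with analytic rank at most `1`, and for it the formula modulo
   `ℚ^*` over `ℚ` is known: Gross-Zagier, Kolyvagin).  So the Birch-Swinnerton-Dyer formula modulo `ℚ^*`,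
   up to powers, for all `E/ℚ` and all number fields is a statement about totally complex fields only.
2. If `LeadingTerm` holds for the totally complex `F` of cyclic type, then all `E(F)` have finite rank and
   non-degenerate Néron-Tate pairing, and there are `ν_v ∈ ℚ` and `c_v ∈ ℂ^*`, one for each real embedding
   `v` of `K`, such that for ALL finite extensions `F` for which a power of `L(E/F, s)` has a
   continuation, `ord_{s=1} L(E/F, s) = rank E(F) + ∑_v r_v(F) ν_v`, and the leading coefficient is, up to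
   powers and `ℚ^*`, `R b^{[F : K]} ∏_v c_v^{r_v(F)}`, `b² = ∏_ψ ∫_{E_ψ(ℂ)} |ω ∧ ω̄|` over the embeddings
   `ψ : K → ℂ`.  (The conjecture predicts `ν_v = 0` and `c_v² = (∫_{E_v(ℝ)} |ω|)² / ∫_{E_v(ℂ)} |ω ∧ ω̄|`.)
3. The same for the orders alone, if `RankFormula` holds for the totally complex `F` of cyclic type.

The proof.  Modulo the functions with value in `ℚ^*` at `s = 1` the `L`-function depends, up to powers,
additively on the permutation character of `Gal(N/K)` on `Gal(N/K)/Gal(N/F)` (the Euler factors at `s = 1`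
are rational).  So do the rank and the regulator: choose a rational `Gal(N/K)`-invariant form on `E(N) ⊗ ℚ`
close to the Néron-Tate pairing; the operator which compares them commutes with the group, the regulator
over `F` is, up to `ℚ^*`, its determinant on the invariants of `Gal(N/F)`, and the traces of its powers on
the invariants are additive.  Modulo the characters of `G/H`, `H` cyclic without complex conjugations, a
multiple of a combination of such characters vanishes as soon as it vanishes at the complex conjugations,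
after adjoining to `N` square roots of suitable elements: then each `g` such that the group generated by
`g` contains a complex conjugation `c` agrees with `c` on a given field.
-/

set_option autoImplicit false

namespace Pool.Agent.Results.MP_f50388_nt.LeadingTermTotallyComplex

open NumberField IsDedekindDomain MeasureTheory
open scoped Classical

/-- `U` is connected and contains `Re s > 3/2` and `s = 1`. -/
def Region (U : Set ℂ) : Prop := IsPreconnected U ∧ (∀ s : ℂ, 3 / 2 < s.re → s ∈ U) ∧ (1 : ℂ) ∈ U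

/-- `F` is totally complex, and there is a finite Galois extension `N` of `K`, containing `F`, such that
`N / F` is cyclic. -/
def CyclicType (K F : Type) [Field K] [Field F] [Algebra K F] : Prop :=
  IsEmpty (F →+* ℝ) ∧ ∃ (N : Type) (_ : Field N) (_ : NumberField N) (_ : Algebra K N)
    (_ : Algebra F N) (_ : IsScalarTower K F N), IsGalois K N ∧ IsCyclic Gal(N/F)

/-- The number `r_v(F)` of the embeddings of `F` in `ℝ` that extend `v : K → ℝ`. -/
noncomputable def realAbove {K : Type} [Field K] (F : Type) [Field F] [Algebra K F]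
    (v : K →+* ℝ) : ℕ :=
  Nat.card {ρ : F →+* ℝ // ρ.comp (algebraMap K F) = v}

section field

variable {L : Type} [Field L] [NumberField L]

/-- `V v` is, for every prime `v`, an integral model of `E` with discriminant minimal at `v`. -/
def MinimalModels (E : WeierstrassCurve L)
    (V : HeightOneSpectrum (𝓞 L) → WeierstrassCurve (𝓞 L)) : Prop :=
  ∀ v : HeightOneSpectrum (𝓞 L),
    (∃ C : WeierstrassCurve.VariableChange L, C • (V v).map (algebraMap (𝓞 L) L) = E) ∧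
    ∀ W : WeierstrassCurve (𝓞 L),
      (∃ C : WeierstrassCurve.VariableChange L, C • W.map (algebraMap (𝓞 L) L) = E) →
        ∀ n : ℕ, (V v).Δ ∈ v.asIdeal ^ n → W.Δ ∈ v.asIdeal ^ n

/-- The Euler factor at `v`, computed from the reduction of `V v`: `(1 - a_v q_v^{-s} + q_v^{1-2s})⁻¹` if
the reduction is good and `(1 - a_v q_v^{-s})⁻¹` if it is bad, where `a_v` is `q_v` minus the number of
affine points of the reduction (so `a_v = 1`, `-1`, `0` in the cases of split multiplicative, non-split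
multiplicative and additive reduction). -/
noncomputable def factor (V : HeightOneSpectrum (𝓞 L) → WeierstrassCurve (𝓞 L)) (s : ℂ)
    (v : HeightOneSpectrum (𝓞 L)) : ℂ :=
  (1 - ((Ideal.absNorm v.asIdeal : ℂ)
        - (Nat.card {xy : (𝓞 L ⧸ v.asIdeal) × (𝓞 L ⧸ v.asIdeal) //
            ((V v).map (Ideal.Quotient.mk v.asIdeal)).toAffine.Equation xy.1 xy.2} : ℂ))
        * (Ideal.absNorm v.asIdeal : ℂ) ^ (-s)
    + (if (V v).Δ ∈ v.asIdeal then 0 else (Ideal.absNorm v.asIdeal : ℂ))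
        * (Ideal.absNorm v.asIdeal : ℂ) ^ (-2 * s))⁻¹

/-- `f` is the function `L(E/L, s)`, `Re s > 3/2`: `E` has minimal models, and the Euler product over all
primes, computed from any minimal models, converges to `f`. -/
def IsLSeries (E : WeierstrassCurve L) (f : ℂ → ℂ) : Prop :=
  (∃ V : HeightOneSpectrum (𝓞 L) → WeierstrassCurve (𝓞 L), MinimalModels E V) ∧
  ∀ V : HeightOneSpectrum (𝓞 L) → WeierstrassCurve (𝓞 L), MinimalModels E V →
    ∀ s : ℂ, 3 / 2 < s.re → HasProd (factor V s) (f s)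

/-- The power `L(E/L, s) ^ k` has a meromorphic continuation to `U`, with leading term `x (s - 1) ^ w` at
`s = 1`. -/
def Continues (E : WeierstrassCurve L) (U : Set ℂ) (k : ℕ) (w : ℤ) (x : ℂ) : Prop :=
  ∃ f Λ : ℂ → ℂ, IsLSeries E f ∧ MeromorphicOn Λ U ∧
    (∀ s : ℂ, 3 / 2 < s.re → Λ s = f s ^ k) ∧ meromorphicOrderAt Λ 1 = w ∧
    meromorphicTrailingCoeffAt Λ 1 = x

/-- `B` is the Néron-Tate height pairing on `E(L)` (relative to `L`): it is biadditive and symmetric, and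
`B(P, P) = h(x(P)) + O(1)`, where `h` is the logarithmic height on `L`, relative to `L`.  By Néron and
Tate, it exists and it is unique. -/
def IsNeronTate (E : WeierstrassCurve L) (B : E.toAffine.Point →+ E.toAffine.Point →+ ℝ) : Prop :=
  (∀ P Q, B P Q = B Q P) ∧ ∃ C : ℝ, ∀ (x y : L) (h : E.toAffine.Nonsingular x y),
    |B (.some x y h) (.some x y h) - Height.logHeight₁ x| ≤ C

/-- `E(L)` has rank `r`, and `R` is the determinant of the Néron-Tate pairing on `r` independent points.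
(So `R` is the regulator, up to the square of the index of the subgroup generated by the points.) -/
def IsRegulator (E : WeierstrassCurve L) (r : ℕ) (R : ℝ) : Prop :=
  Module.rank ℤ E.toAffine.Point = r ∧
    ∃ (B : E.toAffine.Point →+ E.toAffine.Point →+ ℝ) (P : Fin r → E.toAffine.Point),
      IsNeronTate E B ∧ LinearIndependent ℤ P ∧ R = (Matrix.of fun i j => B (P i) (P j)).det

end field

/-- `∫ |ω|` over `E(ℝ)`, for `ω = dx / (2y + a₁x + a₃)`: here
`(2y + a₁x + a₃)² = 4x³ + b₂x² + 2b₄x + b₆`. -/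
noncomputable def realPeriod (E : WeierstrassCurve ℝ) : ℝ :=
  ∫ x in {x : ℝ | 0 < 4 * x ^ 3 + E.b₂ * x ^ 2 + 2 * E.b₄ * x + E.b₆},
    2 / √(4 * x ^ 3 + E.b₂ * x ^ 2 + 2 * E.b₄ * x + E.b₆)

/-- `∫ |ω ∧ ω̄|` over `E(ℂ)` (the first coordinate is a map to `ℂ` of degree 2). -/
noncomputable def complexPeriod (E : WeierstrassCurve ℂ) : ℝ :=
  ∫ z : ℂ, 4 / ‖4 * z ^ 3 + E.b₂ * z ^ 2 + 2 * E.b₄ * z + E.b₆‖

section field

variable {L : Type} [Field L] [NumberField L]

/-- The period `Ω(E/L)`: the product of the periods at the real places (the embeddings in `ℝ`) and at the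
complex places. -/
noncomputable def period (E : WeierstrassCurve L) : ℝ :=
  (∏ ρ : L →+* ℝ, realPeriod (E.map ρ)) *
    ∏ v : {v : InfinitePlace L // v.IsComplex}, complexPeriod (E.map v.1.embedding)

/-- The rank formula (up to powers): for some `k > 0` the power `L(E/L, s) ^ k` has a meromorphic
continuation to `U`, of order `k` times the rank of `E(L)` at `s = 1`. -/
def RankFormula (E : WeierstrassCurve L) (U : Set ℂ) : Prop :=
  ∃ r : ℕ, Module.rank ℤ E.toAffine.Point = r ∧ ∃ (k : ℕ) (x : ℂ), k ≠ 0 ∧ Continues E U k (k * r) x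

/-- The conjecture on the leading term, modulo `ℚ^*` and up to powers: for some `k > 0` the power
`L(E/L, s) ^ k` has a meromorphic continuation to `U`, of order `k r` at `s = 1`, where `r` is the rank of
`E(L)`, and its leading coefficient is in `ℚ^* (R Ω / |Disc(L)|^{1/2}) ^ k`. -/
def LeadingTerm (E : WeierstrassCurve L) (U : Set ℂ) : Prop :=
  ∃ (r : ℕ) (R : ℝ), IsRegulator E r R ∧ ∃ (k : ℕ) (q : ℚ), k ≠ 0 ∧ q ≠ 0 ∧
    Continues E U k (k * r) (q * ((R * period E / √|(discr L : ℝ)| : ℝ) : ℂ) ^ k)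

end field

/-- The totally complex fields suffice for the statement `B` about elliptic curves over number fields
and sets `U`.  Over any number field `K`, the statement over the totally complex extensions of cyclic type
implies the statement over all totally complex ones, and, if it also holds over finitely many extensions
`F_i` with vectors `(r_v(F_i))_v` spanning `ℚ^{v}`, over all finite extensions.  Over `ℚ`: the statement
over all number fields is equivalent to the statement over the totally complex fields of cyclic type and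
over one field with a real embedding; and for this last field one can pass to a curve which is isomorphic
to `E` over a field with a real embedding (for instance a twist by a positive number). -/
def ComplexFieldsSuffice
    (B : ∀ (L : Type) [Field L] [NumberField L], WeierstrassCurve L → Set ℂ → Prop) : Prop :=
  (∀ (K : Type) [Field K] [NumberField K] (E : WeierstrassCurve K) [E.IsElliptic] (U : Set ℂ),
    Region U →
    (∀ (F : Type) [Field F] [NumberField F] [Algebra K F], CyclicType K F →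
      B F (E.map (algebraMap K F)) U) →
    (∀ (F : Type) [Field F] [NumberField F] [Algebra K F], IsEmpty (F →+* ℝ) →
      B F (E.map (algebraMap K F)) U) ∧
    (∀ (t : ℕ) (F : Fin t → Type) [∀ i, Field (F i)] [∀ i, NumberField (F i)]
      [∀ i, Algebra K (F i)],
      Submodule.span ℚ (Set.range fun (i : Fin t) (v : K →+* ℝ) =>
        (realAbove (F i) v : ℚ)) = ⊤ →
      (∀ i, B (F i) (E.map (algebraMap K (F i))) U) →
      ∀ (F' : Type) [Field F'] [NumberField F'] [Algebra K F'],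
        B F' (E.map (algebraMap K F')) U)) ∧
  (∀ (E : WeierstrassCurve ℚ) [E.IsElliptic] (U : Set ℂ), Region U →
    ((∀ (F : Type) [Field F] [NumberField F], B F (E.map (algebraMap ℚ F)) U) ↔
      (∀ (F : Type) [Field F] [NumberField F], CyclicType ℚ F → B F (E.map (algebraMap ℚ F)) U) ∧
      ∃ (F₀ : Type) (_ : Field F₀) (_ : NumberField F₀), Nonempty (F₀ →+* ℝ) ∧
        B F₀ (E.map (algebraMap ℚ F₀)) U) ∧
    (∀ (E' : WeierstrassCurve ℚ) [E'.IsElliptic],
      (∀ (F : Type) [Field F] [NumberField F], CyclicType ℚ F →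
        B F (E.map (algebraMap ℚ F)) U ∧ B F (E'.map (algebraMap ℚ F)) U) →
      ∀ (F₀ : Type) [Field F₀] [NumberField F₀], Nonempty (F₀ →+* ℝ) →
      (∃ C : WeierstrassCurve.VariableChange F₀,
        C • E.map (algebraMap ℚ F₀) = E'.map (algebraMap ℚ F₀)) →
      ∀ (F₁ : Type) [Field F₁] [NumberField F₁], Nonempty (F₁ →+* ℝ) →
      B F₁ (E'.map (algebraMap ℚ F₁)) U →
      ∀ (F : Type) [Field F] [NumberField F], B F (E.map (algebraMap ℚ F)) U))

section proof

open Pool.Agent.H341R2.EC (IsModel IsMinAt red aff trc dlt)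
open Pool.Agent.R433.MD (lf LL Ext exists_minimal hasProd_lf)
open Pool.Agent.H921R2.TatePole (nm two_le_nm)
open Pool.Agent.Run7.h184.TC
open Pool.Agent.R333.BR (Pt mp)

section bridge
variable {K : Type} [Field K] [NumberField K]

theorem isModel_iff (E : WeierstrassCurve K) (W : WeierstrassCurve (𝓞 K)) :
    (∃ C : WeierstrassCurve.VariableChange K, C • W.map (algebraMap (𝓞 K) K) = E) ↔
      IsModel E W := by
  constructor
  · rintro ⟨C, hC⟩
    exact ⟨C⁻¹, by rw [← hC, inv_smul_smul]⟩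
  · rintro ⟨C, hC⟩
    exact ⟨C⁻¹, by rw [← hC, inv_smul_smul]⟩

theorem minimalModels_iff (E : WeierstrassCurve K)
    (V : HeightOneSpectrum (𝓞 K) → WeierstrassCurve (𝓞 K)) :
    MinimalModels E V ↔ ∀ v, IsMinAt E v (V v) := by
  unfold MinimalModels IsMinAt
  simp only [isModel_iff]

theorem factor_eq (V : HeightOneSpectrum (𝓞 K) → WeierstrassCurve (𝓞 K)) (s : ℂ)
    (v : HeightOneSpectrum (𝓞 K)) : factor V s v = (lf V s v)⁻¹ := by
  unfold factor
  congr 1
  unfold lf trc dlt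
  have h0 : ((nm v : ℕ) : ℂ) ≠ 0 := by
    have := two_le_nm v
    exact_mod_cast (by omega : nm v ≠ 0)
  have e1 : Nat.card {xy : (𝓞 K ⧸ v.asIdeal) × (𝓞 K ⧸ v.asIdeal) //
      ((V v).map (Ideal.Quotient.mk v.asIdeal)).toAffine.Equation xy.1 xy.2} =
      aff (red v (V v)) := by
    unfold aff red
    refine Nat.card_congr (Equiv.subtypeEquivRight fun xy => ?_)
    rw [WeierstrassCurve.Affine.equation_iff]
  have e2 : ((nm v : ℕ) : ℂ) ^ (1 - 2 * s) = ((nm v : ℕ) : ℂ) * ((nm v : ℕ) : ℂ) ^ (-2 * s) := by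
    rw [sub_eq_add_neg, Complex.cpow_add _ _ h0, Complex.cpow_one]
    congr 2
    ring
  have e3 : (Ideal.absNorm v.asIdeal : ℂ) = ((nm v : ℕ) : ℂ) := rfl
  rw [e1, e2, e3]
  push_cast
  split_ifs with h
  · ring
  · ring

theorem isLSeries_iff {E : WeierstrassCurve K} (hE : E.IsElliptic) (f : ℂ → ℂ) :
    IsLSeries E f ↔ ∀ V : HeightOneSpectrum (𝓞 K) → WeierstrassCurve (𝓞 K),
      (∀ v, IsMinAt E v (V v)) → ∀ s : ℂ, 3 / 2 < s.re → f s = LL V s := by
  constructor
  · rintro ⟨-, h⟩ V hV s hs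
    have h1 := h V ((minimalModels_iff E V).2 hV) s hs
    have h2 := (hasProd_lf E hE V hV hs).1
    exact h1.unique (h2.congr_fun fun v => factor_eq V s v)
  · intro h
    obtain ⟨V0, hV0⟩ := exists_minimal E hE
    refine ⟨⟨V0, (minimalModels_iff E V0).2 hV0⟩, fun V hV s hs => ?_⟩
    rw [minimalModels_iff] at hV
    rw [h V hV s hs]
    exact (hasProd_lf E hE V hV hs).1.congr_fun fun v => factor_eq V s v

theorem isLSeries_LL {E : WeierstrassCurve K} (hE : E.IsElliptic)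
    {V : HeightOneSpectrum (𝓞 K) → WeierstrassCurve (𝓞 K)} (hV : ∀ v, IsMinAt E v (V v)) :
    IsLSeries E (LL V) := by
  rw [isLSeries_iff hE]
  intro V' hV' s _
  unfold LL
  exact tprod_congr fun v => by rw [lf_congr hE (hV v) (hV' v)]

end bridge

section base
variable {K : Type} [Field K] [NumberField K] {U : Set ℂ} {E : WeierstrassCurve K} [E.IsElliptic]

theorem cont_iff (h1 : (1 : ℂ) ∈ U) (F : Ext K) (k : ℕ) (w : ℤ) (x : ℂ) :
    Continues (E.map (algebraMap K F.F)) U k w x ↔ ∃ u : ℂˣ, (u : ℂ) = x ∧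
      ((gE E F) ^ k, (fun _ => u), fun _ => Multiplicative.ofAdd w) ∈
        Gr ℚ (3 / 2) (U := U) (m := 1) h1 := by
  constructor
  · rintro ⟨f, Λ, hf, hΛ, h2, h3, h4⟩
    have hx : x ≠ 0 := by
      rw [← h4]
      refine (hΛ _ h1).meromorphicTrailingCoeffAt_ne_zero ?_
      rw [h3]
      exact WithTop.coe_ne_top
    refine ⟨Units.mk0 x hx, rfl, fun τ => ⟨Λ, hΛ, fun s => ?_, h3, h4⟩⟩
    change Λ s = (((gE E F) ^ k) τ s : ℂˣ)
    rw [h2 s s.2, (isLSeries_iff inferInstance f).1 hf (VM E F) (VM_min E F) s s.2,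
      Pi.pow_apply, Pi.pow_apply, Units.val_pow_eq_pow_val]
    rfl
  · rintro ⟨u, rfl, h⟩
    obtain ⟨Λ, h2, h3, h4, h5⟩ := h (algebraMap ℚ ℂ)
    refine ⟨LL (VM E F), Λ, isLSeries_LL inferInstance (VM_min E F), h2, fun s hs => ?_, h4, h5⟩
    have h6 := h3 ⟨s, hs⟩
    change Λ s = (((gE E F) ^ k) (algebraMap ℚ ℂ) ⟨s, hs⟩ : ℂˣ) at h6
    rw [h6, Pi.pow_apply, Pi.pow_apply, Units.val_pow_eq_pow_val]
    rfl

/-- the period over `F` -/
noncomputable abbrev pe (E : WeierstrassCurve K) (F : Ext K) : ℝ :=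
  period (E.map (algebraMap K F.F))

/-- the complex periods -/
noncomputable abbrev Ac (E : WeierstrassCurve K) (ψ : K →+* ℂ) : ℝ := complexPeriod (E.map ψ)

theorem Ac_conj (E : WeierstrassCurve K) (ψ : K →+* ℂ) :
    Ac E (ComplexEmbedding.conjugate ψ) = Ac E ψ := by
  have h := (Complex.conjLIE.measurePreserving).integral_comp
    Complex.conjLIE.toHomeomorph.measurableEmbedding (fun z : ℂ =>
      4 / ‖4 * z ^ 3 + (E.map ψ).b₂ * z ^ 2 + 2 * (E.map ψ).b₄ * z + (E.map ψ).b₆‖)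
  change complexPeriod _ = complexPeriod _
  rw [complexPeriod, complexPeriod, ← h]
  refine integral_congr_ae (Filter.Eventually.of_forall fun z => ?_)
  change 4 / ‖_‖ = 4 / ‖_‖
  congr 1
  rw [← Complex.norm_conj]
  congr 1
  simp only [WeierstrassCurve.map_b₂, WeierstrassCurve.map_b₄, WeierstrassCurve.map_b₆,
    ComplexEmbedding.conjugate_coe_eq, map_add, map_mul, map_pow, Complex.conj_conj,
    Complex.conjLIE_apply, map_ofNat]

theorem pe_sq (E : WeierstrassCurve K) (F : Ext K) :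
    pe E F ^ 2 * ∏ v : K →+* ℝ, Ac E (Complex.ofRealHom.comp v) ^ rr F.F v =
      (∏ ψ : K →+* ℂ, Ac E ψ) ^ Module.finrank K F.F *
        (∏ v : K →+* ℝ, realPeriod (E.map v) ^ rr F.F v) ^ 2 :=
  per_sq (Ac E) (fun φ => complexPeriod ((E.map (algebraMap K F.F)).map φ))
    (fun v => realPeriod (E.map v)) (fun ρ => realPeriod ((E.map (algebraMap K F.F)).map ρ))
    (fun φ => by rw [WeierstrassCurve.map_map]) (Ac_conj E)
    (fun ρ => by rw [WeierstrassCurve.map_map])

variable (D : EcData E) (hp : Perf D.pr)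

theorem cl_rho (F : Ext K) {r : ℕ} {R : ℝ} (hR : IsRg (E.map (algebraMap K F.F)) r R)
    (hR0 : R ≠ 0) (hper : pe E F ≠ 0) :
    R * pe E F / √|(discr F.F : ℝ)| ≠ 0 ∧
    cl (em ℚ).range (rz (R * pe E F / √|(discr F.F : ℝ)|)) =
      cl (em ℚ).range (RA hp F * rz (pe E F)) := by
  have hd : ((discr F.F : ℤ) : ℝ) ≠ 0 := Int.cast_ne_zero.2 (discr_ne_zero F.F)
  have hd' : √|(discr F.F : ℝ)| ≠ 0 := Real.sqrt_ne_zero'.2 (abs_pos.2 hd)
  have h0 : R * pe E F / √|(discr F.F : ℝ)| ≠ 0 := div_ne_zero (mul_ne_zero hR0 hper) hd'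
  refine ⟨h0, ?_⟩
  have h1 : cl (em ℚ).range (rz √|(discr F.F : ℝ)|) = 0 :=
    cl_rz_sqrt (q := |(discr F.F : ℚ)|) hd' (abs_ne_zero.2 (by exact_mod_cast discr_ne_zero F.F))
      (by
        rw [Real.sq_sqrt (abs_nonneg _)]
        push_cast
        rfl)
  have h2 : rz (R * pe E F / √|(discr F.F : ℝ)|) * rz √|(discr F.F : ℝ)| = rz R * rz (pe E F) := by
    rw [← rz_mul h0 hd', ← rz_mul hR0 hper, div_mul_cancel₀ _ hd']
  have h3 : cl (em ℚ).range (rz R) = cl (em ℚ).range (RA hp F) := by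
    rw [← cl_ra hp F (D.isReg_of hR) hR0]
    congr 1
    exact rz_ext hR0 fun τ => rfl
  have h4 := congrArg (cl (em ℚ).range) h2
  rw [cl_mul, cl_mul, h1, add_zero] at h4
  rw [h4, cl_mul, h3]

theorem lt_iff (h1 : (1 : ℂ) ∈ U) (F : Ext K) : LeadingTerm (E.map (algebraMap K F.F)) U ↔
    pe E F ≠ 0 ∧ cl (M2 h1) ((gE E F, RA hp F * rz (pe E F), od ((ptMod E D.hfin).rank F : ℤ)) :
      LS ℚ (3 / 2) × AA ℚ × ((ℚ →+* ℂ) → Multiplicative ℤ)) = 0 := by
  have hod : ∀ (k r : ℕ), (fun _ : ℚ →+* ℂ => Multiplicative.ofAdd ((k : ℤ) * (r : ℤ))) =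
      od (r : ℤ) ^ k := fun k r => by
    funext τ
    change _ = Multiplicative.ofAdd (r : ℤ) ^ k
    rw [← ofAdd_nsmul, nsmul_eq_mul]
  constructor
  · rintro ⟨r, R, hR, k, q, hk, hq, hc⟩
    obtain ⟨u, hu, hG⟩ := (cont_iff h1 F k _ _).1 hc
    have hu0 : (q * ((R * pe E F / √|(discr F.F : ℝ)| : ℝ) : ℂ) ^ k) ≠ 0 := by
      rw [← hu]
      exact u.ne_zero
    have h2 : ((R * pe E F / √|(discr F.F : ℝ)| : ℝ) : ℂ) ≠ 0 := fun h => hu0 (by
      rw [h, zero_pow hk, mul_zero])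
    have h3 : R * pe E F / √|(discr F.F : ℝ)| ≠ 0 := fun h => h2 (by rw [h]; rfl)
    have h4 : R ≠ 0 := fun h => h3 (by rw [h, zero_mul, zero_div])
    have h5 : pe E F ≠ 0 := fun h => h3 (by rw [h, mul_zero, zero_div])
    refine ⟨h5, ?_⟩
    obtain ⟨-, h6⟩ := cl_rho D hp F (r := r) hR h4 h5
    rw [← M2_congr h1 h6, D.rank_eq (F := F) hR.1, cl_M2]
    refine ⟨k, Units.mk0 q hq, hk, ?_⟩
    rw [hod] at hG
    have h7 : (fun _ : ℚ →+* ℂ => u) =
        em ℚ (Units.mk0 q hq) * rz (R * pe E F / √|(discr F.F : ℝ)|) ^ k := by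
      funext τ
      refine Units.ext ?_
      have h8 : ((em ℚ (Units.mk0 q hq) τ : ℂˣ) : ℂ) = τ q := rfl
      rw [hu, Pi.mul_apply, Units.val_mul, h8, eq_ratCast, Pi.pow_apply, Units.val_pow_eq_pow_val,
        rz_val h3]
    rw [← h7]
    exact hG
  · rintro ⟨h5, h6⟩
    obtain ⟨r, R, hR⟩ := D.exists_rg F
    have h4 : R ≠ 0 := (ratio_of hp F (D.isReg_of hR) (D.isReg_of hR)).1
    obtain ⟨h3, h7⟩ := cl_rho D hp F hR h4 h5
    rw [← M2_congr h1 h7, D.rank_eq (F := F) hR.1, cl_M2] at h6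
    obtain ⟨k, e, hk, hG⟩ := h6
    refine ⟨r, R, hR, k, e, hk, e.ne_zero, (cont_iff h1 F k _ _).2
      ⟨(em ℚ e * rz (R * pe E F / √|(discr F.F : ℝ)|) ^ k) (algebraMap ℚ ℂ), ?_, ?_⟩⟩
    · have h8 : ((em ℚ e (algebraMap ℚ ℂ) : ℂˣ) : ℂ) = algebraMap ℚ ℂ (e : ℚ) := rfl
      rw [Pi.mul_apply, Units.val_mul, h8, eq_ratCast, Pi.pow_apply, Units.val_pow_eq_pow_val,
        rz_val h3]
    · have h9 : (fun _ : ℚ →+* ℂ => (em ℚ e * rz (R * pe E F / √|(discr F.F : ℝ)|) ^ k)
          (algebraMap ℚ ℂ)) = em ℚ e * rz (R * pe E F / √|(discr F.F : ℝ)|) ^ k :=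
        funext fun τ => by rw [tau_eq τ]
      rw [h9, hod]
      exact hG

/-- the product of the complex periods -/
noncomputable abbrev B2 (E : WeierstrassCurve K) : ℝ := ∏ ψ : K →+* ℂ, Ac E ψ

theorem rr_zero {F : Ext K} (hF : IsEmpty (F.F →+* ℝ)) (v : K →+* ℝ) : rr F.F v = 0 := by
  rw [rr, Nat.card_eq_zero]
  exact Or.inl ⟨fun x => hF.false x.1⟩

theorem pe_sq_complex {F : Ext K} (hF : IsEmpty (F.F →+* ℝ)) :
    pe E F ^ 2 = B2 E ^ Module.finrank K F.F := by
  have h1 := pe_sq E F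
  simp only [rr_zero hF, pow_zero, Finset.prod_const_one, mul_one, one_pow] at h1
  exact h1

/-- **The classes of the periods.** -/
theorem cl_per (hB : B2 E ≠ 0) {β : AA ℚ} (hβ : β ^ 2 = rz (B2 E)) {c : (K →+* ℝ) → AA ℚ}
    (hc : ∀ v, c v ^ 2 = rz (realPeriod (E.map v)) ^ 2 * (rz (Ac E (Complex.ofRealHom.comp v)))⁻¹)
    {F : Ext K} (hper : pe E F ≠ 0) :
    cl (em ℚ).range (rz (pe E F)) =
      cl (em ℚ).range (β ^ Module.finrank K F.F * ∏ v : K →+* ℝ, c v ^ rr F.F v) := by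
  have hA : ∀ v : K →+* ℝ, Ac E (Complex.ofRealHom.comp v) ≠ 0 := fun v =>
    Finset.prod_ne_zero_iff.1 hB _ (Finset.mem_univ _)
  have h1 := pe_sq E F
  have h2 : ∏ v : K →+* ℝ, Ac E (Complex.ofRealHom.comp v) ^ rr F.F v ≠ 0 :=
    Finset.prod_ne_zero_iff.2 fun v _ => pow_ne_zero _ (hA v)
  have h3 : (∏ v : K →+* ℝ, realPeriod (E.map v) ^ rr F.F v) ^ 2 ≠ 0 := by
    intro h
    rw [h, mul_zero] at h1
    exact mul_ne_zero (pow_ne_zero 2 hper) h2 h1
  have h3' : ∏ v : K →+* ℝ, realPeriod (E.map v) ^ rr F.F v ≠ 0 := fun h => h3 (by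
    rw [h, zero_pow two_ne_zero])
  have h3'' : ∀ v ∈ (Finset.univ : Finset (K →+* ℝ)), realPeriod (E.map v) ^ rr F.F v ≠ 0 :=
    Finset.prod_ne_zero_iff.1 h3'
  have h4 := congrArg rz h1
  rw [rz_mul (pow_ne_zero 2 hper) h2, rz_mul (pow_ne_zero _ hB) h3,
    rz_pow _ _ (pow_ne_zero 2 hper), rz_pow _ _ (pow_ne_zero _ hB), rz_pow _ _ h3,
    rz_prod _ _ fun v _ => pow_ne_zero _ (hA v), rz_prod _ _ h3''] at h4
  have h5 : ∀ v, rz (realPeriod (E.map v) ^ rr F.F v) = rz (realPeriod (E.map v)) ^ rr F.F v :=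
    fun v => rz_pow _ _ (h3'' v (Finset.mem_univ v))
  have h6 : ∀ v, rz (Ac E (Complex.ofRealHom.comp v) ^ rr F.F v) =
      rz (Ac E (Complex.ofRealHom.comp v)) ^ rr F.F v := fun v => rz_pow _ _ (pow_ne_zero _ (hA v))
  simp only [h5, h6] at h4
  have h7 : (β ^ Module.finrank K F.F * ∏ v : K →+* ℝ, c v ^ rr F.F v) ^ 2 =
      rz (pe E F) ^ 2 := by
    rw [mul_pow, ← pow_mul, mul_comm (Module.finrank K F.F) 2, pow_mul, hβ, ← Finset.prod_pow]
    have h8 : ∀ v, (c v ^ rr F.F v) ^ 2 = (rz (realPeriod (E.map v)) ^ rr F.F v) ^ 2 *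
        (rz (Ac E (Complex.ofRealHom.comp v)) ^ rr F.F v)⁻¹ := fun v => by
      rw [← pow_mul, mul_comm (rr F.F v) 2, pow_mul, hc v, mul_pow, inv_pow, ← pow_mul, ← pow_mul,
        mul_comm 2 (rr F.F v)]
    rw [Finset.prod_congr rfl fun v _ => h8 v, Finset.prod_mul_distrib, Finset.prod_pow,
      Finset.prod_inv_distrib, ← mul_assoc, ← h4, mul_inv_cancel_right]
  rw [cl_eq]
  refine ⟨2, two_ne_zero, 1, ?_⟩
  rw [map_one, h7, mul_inv_cancel]

/-- the class of the factor at a real place -/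
noncomputable def κc (h1 : (1 : ℂ) ∈ U) (c : AA ℚ) : VQ (M2 (E := ℚ) (b := 3 / 2) h1) :=
  cl (M2 h1) ((1, c, 1) : LS ℚ (3 / 2) × AA ℚ × ((ℚ →+* ℂ) → Multiplicative ℤ))

theorem cl_split (h1 : (1 : ℂ) ∈ U) (β : AA ℚ) (c : (K →+* ℝ) → AA ℚ) (F : Ext K) :
    cl (M2 h1) ((gE E F, RA hp F * (β ^ Module.finrank K F.F * ∏ v : K →+* ℝ, c v ^ rr F.F v),
      od ((ptMod E D.hfin).rank F : ℤ)) :
      LS ℚ (3 / 2) × AA ℚ × ((ℚ →+* ℂ) → Multiplicative ℤ)) =
    Ψc D h1 hp β F + ∑ v : K →+* ℝ, (rr F.F v : ℚ) • κc h1 (c v) := by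
  have h2 : ((gE E F, RA hp F * (β ^ Module.finrank K F.F * ∏ v : K →+* ℝ, c v ^ rr F.F v),
      od ((ptMod E D.hfin).rank F : ℤ)) :
      LS ℚ (3 / 2) × AA ℚ × ((ℚ →+* ℂ) → Multiplicative ℤ)) =
      (gE E F, RA hp F * β ^ Module.finrank K F.F, od ((ptMod E D.hfin).rank F : ℤ)) *
        ∏ v : K →+* ℝ, ((1, c v, 1) :
          LS ℚ (3 / 2) × AA ℚ × ((ℚ →+* ℂ) → Multiplicative ℤ)) ^ rr F.F v := by
    refine Prod.ext ?_ (Prod.ext ?_ ?_)
    · rw [Prod.fst_mul, Prod.fst_prod]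
      simp only [Prod.pow_fst, one_pow, Finset.prod_const_one, mul_one]
    · rw [Prod.snd_mul, Prod.fst_mul, Prod.snd_prod, Prod.fst_prod, mul_assoc]
      rfl
    · rw [Prod.snd_mul, Prod.snd_mul, Prod.snd_prod, Prod.snd_prod]
      simp only [Prod.pow_snd, one_pow, Finset.prod_const_one, mul_one]
  rw [h2, cl_mul, cl_prod]
  congr 1
  refine Finset.sum_congr rfl fun v _ => ?_
  rw [cl_pow, Nat.cast_smul_eq_nsmul]
  rfl

/-- what we use about the base -/
structure Setup (E : WeierstrassCurve K) [E.IsElliptic] (U : Set ℂ) where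
  D : EcData E
  hp : Perf D.pr
  hB : B2 E ≠ 0
  β : AA ℚ
  hβ : β ^ 2 = rz (B2 E)
  c : (K →+* ℝ) → AA ℚ
  hc : ∀ v, c v ^ 2 = rz (realPeriod (E.map v)) ^ 2 * (rz (Ac E (Complex.ofRealHom.comp v)))⁻¹

theorem setup (h1 : (1 : ℂ) ∈ U)
    (hyp : ∀ (F : Type) [Field F] [NumberField F] [Algebra K F], CyclicType K F →
      LeadingTerm (E.map (algebraMap K F)) U) : Nonempty (Setup E U) := by
  have h2 : ∀ Z : Ext K, CycType K Z.F → LeadingTerm (E.map (algebraMap K Z.F)) U := fun Z hZ =>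
    hyp Z.F ⟨hZ.complex, hZ.cyclic⟩
  obtain ⟨D⟩ := ecData_of (E := E) fun Z hZ => by
    obtain ⟨r, R, ⟨hr, B, P, hB, -, -⟩, -⟩ := h2 Z hZ
    exact ⟨⟨r, hr⟩, B, hB⟩
  have h0 : ∀ Z : Ext K, CycType K Z.F → ∃ R : ℝ, R ≠ 0 ∧ D.pr.IsReg Z R ∧ pe E Z ≠ 0 := by
    intro Z hZ
    obtain ⟨r, R, hR, k, q, hk, hq, hc⟩ := h2 Z hZ
    obtain ⟨u, hu, hG⟩ := (cont_iff h1 Z k _ _).1 hc
    have hu0 : (q * ((R * pe E Z / √|(discr Z.F : ℝ)| : ℝ) : ℂ) ^ k) ≠ 0 := by
      rw [← hu]
      exact u.ne_zero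
    have h2 : ((R * pe E Z / √|(discr Z.F : ℝ)| : ℝ) : ℂ) ≠ 0 := fun h => hu0 (by
      rw [h, zero_pow hk, mul_zero])
    have h3 : R * pe E Z / √|(discr Z.F : ℝ)| ≠ 0 := fun h => h2 (by rw [h]; rfl)
    exact ⟨R, fun h => h3 (by rw [h, zero_mul, zero_div]), D.isReg_of hR,
      fun h => h3 (by rw [h, mul_zero, zero_div])⟩
  have hp : Perf D.pr := perf_of fun Z hZ => by
    obtain ⟨R, h3, h4, -⟩ := h0 Z hZ
    exact ⟨R, h3, h4⟩
  have hB : B2 E ≠ 0 := by
    obtain ⟨N, -, hN, -⟩ := exists_complex (Ext.self K)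
    obtain ⟨-, -, -, h3⟩ := h0 N hN
    intro h
    have h4 := pe_sq_complex (E := E) hN.complex
    have : FiniteDimensional K N.F := FiniteDimensional.right ℚ K N.F
    rw [h, zero_pow (Module.finrank_pos (R := K) (M := N.F)).ne'] at h4
    exact pow_ne_zero 2 h3 h4
  obtain ⟨β, hβ⟩ := AA_div ℚ (rz (B2 E)) 2 two_ne_zero
  choose c hc using fun v : K →+* ℝ => AA_div ℚ
    (rz (realPeriod (E.map v)) ^ 2 * (rz (Ac E (Complex.ofRealHom.comp v)))⁻¹) 2 two_ne_zero
  exact ⟨⟨D, hp, hB, β, hβ, c, hc⟩⟩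

variable (S : Setup E U)

theorem Setup.iff (h1 : (1 : ℂ) ∈ U) (F : Ext K) : LeadingTerm (E.map (algebraMap K F.F)) U ↔
    pe E F ≠ 0 ∧ Ψc S.D h1 S.hp S.β F + ∑ v : K →+* ℝ, (rr F.F v : ℚ) • κc h1 (S.c v) = 0 := by
  rw [lt_iff S.D S.hp h1 F]
  refine and_congr_right fun hper => ?_
  have h2 : cl (em ℚ).range (RA S.hp F * rz (pe E F)) = cl (em ℚ).range (RA S.hp F *
      (S.β ^ Module.finrank K F.F * ∏ v : K →+* ℝ, S.c v ^ rr F.F v)) := by
    rw [cl_mul, cl_mul, cl_per S.hB S.hβ S.hc hper]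
  rw [M2_congr h1 h2, cl_split]

theorem Setup.iff_complex (h1 : (1 : ℂ) ∈ U) {F : Ext K} (hF : IsEmpty (F.F →+* ℝ)) :
    LeadingTerm (E.map (algebraMap K F.F)) U ↔ Ψc S.D h1 S.hp S.β F = 0 := by
  rw [S.iff h1 F]
  have h2 : ∑ v : K →+* ℝ, (rr F.F v : ℚ) • κc h1 (S.c v) = 0 :=
    Finset.sum_eq_zero fun v _ => by rw [rr_zero hF, Nat.cast_zero, zero_smul]
  rw [h2, add_zero]
  refine and_iff_right fun h => ?_
  have h4 := pe_sq_complex (E := E) hF
  rw [h, zero_pow two_ne_zero] at h4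
  exact pow_ne_zero _ S.hB h4.symm

theorem Setup.hyp (h1 : (1 : ℂ) ∈ U)
    (hyp : ∀ (F : Type) [Field F] [NumberField F] [Algebra K F], CyclicType K F →
      LeadingTerm (E.map (algebraMap K F)) U) (Z : Ext K) (hZ : CycType K Z.F) :
    Ψc S.D h1 S.hp S.β Z = 0 :=
  (S.iff_complex h1 hZ.complex).1 (hyp Z.F ⟨hZ.complex, hZ.cyclic⟩)

theorem complex_of (h1 : (1 : ℂ) ∈ U)
    (hyp : ∀ (F : Type) [Field F] [NumberField F] [Algebra K F], CyclicType K F →
      LeadingTerm (E.map (algebraMap K F)) U) (F : Type) [Field F] [NumberField F] [Algebra K F]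
    (hF : IsEmpty (F →+* ℝ)) : LeadingTerm (E.map (algebraMap K F)) U := by
  obtain ⟨S⟩ := setup h1 hyp
  obtain ⟨δ, hδ⟩ := abs_defect (formal_Ψc S.D h1 S.hp S.β) (S.hyp h1 hyp)
  refine (S.iff_complex h1 (F := ⟨F⟩) hF).2 ?_
  rw [hδ ⟨F⟩]
  exact Finset.sum_eq_zero fun v _ => by rw [rr_zero (F := ⟨F⟩) hF, Nat.cast_zero, zero_smul]

theorem span_of (h1 : (1 : ℂ) ∈ U)
    (hyp : ∀ (F : Type) [Field F] [NumberField F] [Algebra K F], CyclicType K F →
      LeadingTerm (E.map (algebraMap K F)) U) (t : ℕ) (F : Fin t → Type) [∀ i, Field (F i)]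
    [∀ i, NumberField (F i)] [∀ i, Algebra K (F i)]
    (hspan : Submodule.span ℚ (Set.range fun (i : Fin t) (v : K →+* ℝ) =>
      (realAbove (F i) v : ℚ)) = ⊤) (hF : ∀ i, LeadingTerm (E.map (algebraMap K (F i))) U)
    (F' : Type) [Field F'] [NumberField F'] [Algebra K F'] :
    LeadingTerm (E.map (algebraMap K F')) U := by
  obtain ⟨S⟩ := setup h1 hyp
  obtain ⟨δ, hδ⟩ := abs_defect (formal_Ψc S.D h1 S.hp S.β) (S.hyp h1 hyp)
  have hF' := fun i => (S.iff h1 ⟨F i⟩).1 (hF i)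
  have key : ∀ x : (K →+* ℝ) → ℚ, ∑ v, x v • (δ v + κc h1 (S.c v)) = 0 := by
    intro x
    have hx : x ∈ Submodule.span ℚ (Set.range fun (i : Fin t) (v : K →+* ℝ) =>
        (realAbove (F i) v : ℚ)) := by rw [hspan]; trivial
    induction hx using Submodule.span_induction with
    | mem x hx =>
      obtain ⟨i, rfl⟩ := hx
      have h2 := (hF' i).2
      rw [hδ ⟨F i⟩, ← Finset.sum_add_distrib] at h2
      simp only [smul_add]
      exact h2
    | zero => simp
    | add x y _ _ hx hy =>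
      simp only [Pi.add_apply, add_smul _ _ (δ _ + _), Finset.sum_add_distrib]
      rw [hx, hy, add_zero]
    | smul c x _ hx =>
      simp only [Pi.smul_apply, smul_eq_mul, mul_smul]
      rw [← Finset.smul_sum, hx, smul_zero]
  have hw : ∀ v : K →+* ℝ, realPeriod (E.map v) ≠ 0 := by
    intro v h
    have h2 : ∀ i, realAbove (F i) v = 0 := by
      intro i
      by_contra h3
      have h4 := pe_sq E (⟨F i⟩ : Ext K)
      have h5 : ∏ v : K →+* ℝ, realPeriod (E.map v) ^ rr (F i) v = 0 :=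
        Finset.prod_eq_zero (Finset.mem_univ v) (by
          rw [h]
          exact zero_pow h3)
      change _ = _ * (∏ v : K →+* ℝ, realPeriod (E.map v) ^ rr (F i) v) ^ 2 at h4
      rw [h5, zero_pow two_ne_zero, mul_zero] at h4
      refine mul_ne_zero (pow_ne_zero 2 (hF' i).1) (Finset.prod_ne_zero_iff.2 fun v _ =>
        pow_ne_zero _ ?_) h4
      exact Finset.prod_ne_zero_iff.1 S.hB _ (Finset.mem_univ _)
    have h3 : ∀ x ∈ Submodule.span ℚ (Set.range fun (i : Fin t) (v : K →+* ℝ) =>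
        (realAbove (F i) v : ℚ)), x v = 0 := by
      intro x hx
      induction hx using Submodule.span_induction with
      | mem x hx =>
        obtain ⟨i, rfl⟩ := hx
        change (realAbove (F i) v : ℚ) = 0
        rw [h2 i, Nat.cast_zero]
      | zero => rfl
      | add x y _ _ hx hy => rw [Pi.add_apply, hx, hy, add_zero]
      | smul c x _ hx => rw [Pi.smul_apply, hx, smul_zero]
    rw [hspan] at h3
    exact one_ne_zero (h3 (fun _ => 1) trivial)
  refine (S.iff h1 ⟨F'⟩).2 ⟨fun h => ?_, ?_⟩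
  · have h4 := pe_sq E (⟨F'⟩ : Ext K)
    rw [h, zero_pow two_ne_zero, zero_mul] at h4
    exact mul_ne_zero (pow_ne_zero _ S.hB) (pow_ne_zero 2 (Finset.prod_ne_zero_iff.2 fun v _ =>
      pow_ne_zero _ (hw v))) h4.symm
  · rw [hδ ⟨F'⟩, ← Finset.sum_add_distrib]
    have h2 := key fun v => (rr F' v : ℚ)
    simp only [smul_add] at h2
    exact h2

/-- **All regulators.** -/
theorem regulators_of (h1 : (1 : ℂ) ∈ U)
    (hyp : ∀ (F : Type) [Field F] [NumberField F] [Algebra K F], CyclicType K F →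
      LeadingTerm (E.map (algebraMap K F)) U) (F : Type) [Field F] [NumberField F]
    [Algebra K F] : ∃ (r : ℕ) (R : ℝ), IsRegulator (E.map (algebraMap K F)) r R ∧ R ≠ 0 := by
  obtain ⟨S⟩ := setup h1 hyp
  obtain ⟨r, R, hR⟩ := S.D.exists_rg ⟨F⟩
  exact ⟨r, R, hR, (ratio_of S.hp ⟨F⟩ (S.D.isReg_of hR) (S.D.isReg_of hR)).1⟩

/-- **The defects.** -/
theorem leading_of (hU : Region U)
    (hyp : ∀ (F : Type) [Field F] [NumberField F] [Algebra K F], CyclicType K F →
      LeadingTerm (E.map (algebraMap K F)) U) :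
    ∃ (b : ℂ) (c : (K →+* ℝ) → ℂ) (ν : (K →+* ℝ) → ℚ),
      b ^ 2 = ((∏ ψ : K →+* ℂ, complexPeriod (E.map ψ) : ℝ) : ℂ) ∧ b ≠ 0 ∧ (∀ v, c v ≠ 0) ∧
      ∀ (F : Type) [Field F] [NumberField F] [Algebra K F] (k : ℕ) (w : ℤ) (x : ℂ) (r : ℕ)
        (R : ℝ), k ≠ 0 → Continues (E.map (algebraMap K F)) U k w x →
        IsRegulator (E.map (algebraMap K F)) r R →
        (w : ℚ) / k = r + ∑ v : K →+* ℝ, (realAbove F v : ℚ) * ν v ∧
        ∃ (j : ℕ) (q : ℚ), j ≠ 0 ∧ q ≠ 0 ∧
          x ^ j = q * ((R : ℂ) * b ^ Module.finrank K F *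
            ∏ v : K →+* ℝ, c v ^ realAbove F v) ^ (k * j) := by
  obtain ⟨S⟩ := setup hU.2.2 hyp
  obtain ⟨δ, ν, hδ⟩ := leading_general2 hU.2.2 hU.1 hU.2.1 (formal_Ψc S.D hU.2.2 S.hp S.β)
    (S.hyp hU.2.2 hyp) (algebraMap ℚ ℂ)
  refine ⟨(S.β (algebraMap ℚ ℂ) : ℂˣ), fun v => (δ v (algebraMap ℚ ℂ) : ℂˣ), ν, ?_,
    Units.ne_zero _, fun v => Units.ne_zero _, fun F _ _ _ k w x r R hk hc hR => ?_⟩
  · have h2 := congrArg (fun z : AA ℚ => (z (algebraMap ℚ ℂ) : ℂ)) S.hβ
    simp only [Pi.pow_apply, Units.val_pow_eq_pow_val] at h2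
    rw [h2, rz_val S.hB]
  obtain ⟨u, hu, h1⟩ := (cont_iff hU.2.2 ⟨F⟩ k w x).1 hc
  obtain ⟨h2, h3⟩ := hδ ⟨F⟩ k _ _ hk h1
  have hr : (ptMod E S.D.hfin).rank ⟨F⟩ = r := S.D.rank_eq (F := ⟨F⟩) hR.1
  rw [hr, Int.cast_natCast] at h2
  refine ⟨h2, ?_⟩
  obtain ⟨j, hj, e, he⟩ := (cl_eq _).1 h3
  obtain ⟨-, -, q', hq', h4⟩ := ratio_of S.hp ⟨F⟩ (S.D.isReg_of hR) (S.hp ⟨F⟩).choose_spec.2
  have h5 : em ℚ e * ((RA S.hp ⟨F⟩ * S.β ^ Module.finrank K F *
      ∏ v : K →+* ℝ, δ v ^ rr F v) ^ k) ^ j = (fun _ => u) ^ j := by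
    rw [he, inv_mul_cancel_right]
  have h6 := congrArg (fun z : AA ℚ => (z (algebraMap ℚ ℂ) : ℂ)) h5
  simp only [Pi.mul_apply, Pi.pow_apply, Finset.prod_apply, Units.val_mul,
    Units.val_pow_eq_pow_val, Units.coe_prod, hu] at h6
  have h7 : ((em ℚ e (algebraMap ℚ ℂ) : ℂˣ) : ℂ) = ((e : ℚ) : ℂ) := by
    have h8 : ((em ℚ e (algebraMap ℚ ℂ) : ℂˣ) : ℂ) = algebraMap ℚ ℂ e := rfl
    rw [h8, eq_ratCast]
  have h8 : (R : ℂ) = (q' : ℂ) * ((RA S.hp ⟨F⟩ (algebraMap ℚ ℂ) : ℂˣ) : ℂ) := by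
    rw [h4]
    push_cast
    rfl
  have hq'' : (q' : ℂ) ≠ 0 := by exact_mod_cast hq'
  refine ⟨j, e * (q' ^ (k * j))⁻¹, hj, mul_ne_zero e.ne_zero
    (inv_ne_zero (pow_ne_zero _ hq')), ?_⟩
  rw [← h6, h7, h8, mul_assoc (q' : ℂ), mul_assoc (q' : ℂ), mul_pow (q' : ℂ), ← pow_mul]
  push_cast
  change _ = ((e : ℚ) : ℂ) * ((q' : ℂ) ^ (k * j))⁻¹ * ((q' : ℂ) ^ (k * j) *
    (((RA S.hp ⟨F⟩ (algebraMap ℚ ℂ) : ℂˣ) : ℂ) *
      ((S.β (algebraMap ℚ ℂ) : ℂˣ) : ℂ) ^ Module.finrank K F * ∏ v : K →+* ℝ,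
      ((δ v (algebraMap ℚ ℂ) : ℂˣ) : ℂ) ^ rr F v) ^ (k * j))
  rw [mul_assoc (((e : ℚ)) : ℂ), inv_mul_cancel_left₀ (pow_ne_zero _ hq'')]

end base

/-- **The universal relations.** -/
theorem univ_of (K : Type) [Field K] [NumberField K] (t : ℕ) (F : Fin t → Type)
    [∀ i, Field (F i)] [∀ i, NumberField (F i)] [∀ i, Algebra K (F i)] (a : Fin t → ℤ)
    (h : ∀ v : K →+* ℝ, ∑ i, a i * (realAbove (F i) v : ℤ) = 0) :
    ∃ (m u : ℕ) (Y : Fin u → Type) (_ : ∀ j, Field (Y j)) (_ : ∀ j, NumberField (Y j))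
      (_ : ∀ j, Algebra K (Y j)) (n : Fin u → ℤ), m ≠ 0 ∧ (∀ j, CyclicType K (Y j)) ∧
      ∀ (E : WeierstrassCurve K) [E.IsElliptic],
        (∀ U : Set ℂ, Region U → ∀ (f : Fin t → ℂ → ℂ) (g : Fin u → ℂ → ℂ),
          (∀ i, IsLSeries (E.map (algebraMap K (F i))) (f i)) →
          (∀ j, IsLSeries (E.map (algebraMap K (Y j))) (g j)) →
          ∃ (k : ℕ) (q : ℚ) (Λ : ℂ → ℂ), k ≠ 0 ∧ q ≠ 0 ∧ MeromorphicOn Λ U ∧
            (∀ s : ℂ, 3 / 2 < s.re →
              Λ s = ((∏ i, f i s ^ a i) ^ m * (∏ j, g j s ^ n j)⁻¹) ^ k) ∧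
            meromorphicOrderAt Λ 1 = 0 ∧ meromorphicTrailingCoeffAt Λ 1 = q) ∧
        ((∀ (G : Type) [Field G] [NumberField G] [Algebra K G],
            ∃ (r : ℕ) (R : ℝ), IsRegulator (E.map (algebraMap K G)) r R ∧ R ≠ 0) →
          ∀ (r : Fin t → ℕ) (R : Fin t → ℝ) (r' : Fin u → ℕ) (R' : Fin u → ℝ),
            (∀ i, IsRegulator (E.map (algebraMap K (F i))) (r i) (R i)) →
            (∀ j, IsRegulator (E.map (algebraMap K (Y j))) (r' j) (R' j)) →
            (m : ℤ) * ∑ i, a i * (r i : ℤ) = ∑ j, n j * (r' j : ℤ) ∧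
            ∃ (k : ℕ) (q : ℚ), k ≠ 0 ∧ q ≠ 0 ∧
              ((∏ i, R i ^ a i) ^ m) ^ k = q * (∏ j, R' j ^ n j) ^ k) := by
  obtain ⟨m, u, Y, n, hm, hY, hV⟩ := abs_univ (fun i => (⟨F i⟩ : Ext K)) a h
  refine ⟨m, u, fun j => (Y j).F, fun j => inferInstance, fun j => inferInstance,
    fun j => inferInstance, n, hm, fun j => ⟨(hY j).complex, (hY j).cyclic⟩,
    fun E _ => ⟨fun U hU f g hf hg => ?_, fun hreg r R r' R' hR hR' => ?_⟩⟩
  · have h1 := hV _ _ (formal_gE (E := E) hU.2.2)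
    simp only [← cl_zpow] at h1
    rw [← cl_prod, ← cl_prod, ← cl_zpow, sub_eq_add_neg, ← cl_inv, ← cl_mul] at h1
    obtain ⟨k, hk, e, he⟩ := (cl_eq_zero _).1 h1
    obtain ⟨Λ, h2, h3, h4, h5⟩ := he (algebraMap ℚ ℂ)
    refine ⟨k, e, Λ, hk, e.ne_zero, h2, fun s hs => ?_, h4, ?_⟩
    · rw [h3 ⟨s, hs⟩]
      have h6 : ∀ (G : Ext K) (φ : ℂ → ℂ), IsLSeries (E.map (algebraMap K G.F)) φ →
          ((gE E G (algebraMap ℚ ℂ) ⟨s, hs⟩ : ℂˣ) : ℂ) = φ s := fun G φ hφ =>
        ((isLSeries_iff inferInstance φ).1 hφ (VM E G) (VM_min E G) s hs).symm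
      simp only [Pi.pow_apply, Pi.mul_apply, Pi.inv_apply, Finset.prod_apply, Units.val_mul,
        Units.val_pow_eq_pow_val, Units.val_inv_eq_inv_val, Units.coe_prod,
        Units.val_zpow_eq_zpow_val, zpow_natCast]
      congr 2
      · congr 1
        refine Finset.prod_congr rfl fun i _ => ?_
        rw [h6 ⟨F i⟩ (f i) (hf i)]
      · congr 1
        refine Finset.prod_congr rfl fun j _ => ?_
        rw [h6 (Y j) (g j) (hg j)]
    · rw [h5]
      have h7 : ((em ℚ e (algebraMap ℚ ℂ) : ℂˣ) : ℂ) = algebraMap ℚ ℂ e := rfl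
      rw [h7, eq_ratCast]
  · obtain ⟨D⟩ := ecData_of (E := E) fun Z _ => by
      obtain ⟨r, R, ⟨hr, B, P, hB, -, -⟩, -⟩ := hreg Z.F
      exact ⟨⟨r, hr⟩, B, hB⟩
    have hp : Perf D.pr := fun G => by
      obtain ⟨r, R, hR, hR0⟩ := hreg G.F
      exact ⟨R, hR0, D.isReg_of hR⟩
    constructor
    · have h1 := hV _ _ (formal_rk D)
      have h2 : ∀ i, (ptMod E D.hfin).rank ⟨F i⟩ = r i := fun i => D.rank_eq (hR i).1
      have h3 : ∀ j, (ptMod E D.hfin).rank (Y j) = r' j := fun j => D.rank_eq (hR' j).1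
      simp only [h2, h3, zsmul_eq_mul] at h1
      rw [sub_eq_zero] at h1
      exact_mod_cast h1
    · have hR0 : ∀ i, R i ≠ 0 := fun i =>
        (ratio_of hp ⟨F i⟩ (D.isReg_of (hR i)) (D.isReg_of (hR i))).1
      have hS0 : ∀ j, R' j ≠ 0 := fun j =>
        (ratio_of hp (Y j) (D.isReg_of (hR' j)) (D.isReg_of (hR' j))).1
      have h1 := hV _ _ (formal_RA hp)
      have h2 : ∀ i, cl (em ℚ).range (RA hp (⟨F i⟩ : Ext K)) = cl (em ℚ).range (ra (hR0 i)) :=
        fun i => (cl_ra hp ⟨F i⟩ (D.isReg_of (hR i)) (hR0 i)).symm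
      have h3 : ∀ j, cl (em ℚ).range (RA hp (Y j)) = cl (em ℚ).range (ra (hS0 j)) :=
        fun j => (cl_ra hp (Y j) (D.isReg_of (hR' j)) (hS0 j)).symm
      simp only [h2, h3, ← cl_zpow] at h1
      rw [← cl_prod, ← cl_prod, ← cl_zpow, sub_eq_zero] at h1
      obtain ⟨k, hk, e, he⟩ := (cl_eq _).1 h1
      refine ⟨k, e, hk, e.ne_zero, ?_⟩
      have h4 : em ℚ e * (∏ j, ra (hS0 j) ^ n j) ^ k = ((∏ i, ra (hR0 i) ^ a i) ^ (m : ℤ)) ^ k := by
        rw [he, inv_mul_cancel_right]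
      have h5 := congrArg (fun z : AA ℚ => (z (algebraMap ℚ ℂ) : ℂ)) h4
      simp only [Pi.mul_apply, Pi.pow_apply, Finset.prod_apply, Units.val_mul,
        Units.val_pow_eq_pow_val, Units.coe_prod, Units.val_zpow_eq_zpow_val, zpow_natCast] at h5
      have h7 : ((em ℚ e (algebraMap ℚ ℂ) : ℂˣ) : ℂ) = algebraMap ℚ ℂ e := rfl
      rw [h7, eq_ratCast] at h5
      have h8 : (((e : ℚ) : ℝ) * (∏ j, R' j ^ n j) ^ k : ℝ) = ((∏ i, R i ^ a i) ^ m) ^ k := by
        have h9 : ((((e : ℚ) : ℝ) * (∏ j, R' j ^ n j) ^ k : ℝ) : ℂ) =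
            ((((∏ i, R i ^ a i) ^ m) ^ k : ℝ) : ℂ) := by
          push_cast
          exact h5
        exact_mod_cast h9
      exact h8.symm

section iso
variable {L : Type} [Field L] [NumberField L] {U : Set ℂ}

theorem minimalModels_smul {E E' : WeierstrassCurve L} {C : WeierstrassCurve.VariableChange L}
    (h : C • E = E') (V : HeightOneSpectrum (𝓞 L) → WeierstrassCurve (𝓞 L)) :
    MinimalModels E V ↔ MinimalModels E' V := by
  have key : ∀ W : WeierstrassCurve (𝓞 L),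
      (∃ C : WeierstrassCurve.VariableChange L, C • W.map (algebraMap (𝓞 L) L) = E) ↔
        ∃ C : WeierstrassCurve.VariableChange L, C • W.map (algebraMap (𝓞 L) L) = E' := by
    intro W
    constructor
    · rintro ⟨D, hD⟩
      exact ⟨C * D, by rw [mul_smul, hD, h]⟩
    · rintro ⟨D, hD⟩
      exact ⟨C⁻¹ * D, by rw [mul_smul, hD, ← h, inv_smul_smul]⟩
  unfold MinimalModels
  simp only [key]

theorem isLSeries_smul {E E' : WeierstrassCurve L} {C : WeierstrassCurve.VariableChange L}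
    (h : C • E = E') (f : ℂ → ℂ) : IsLSeries E f ↔ IsLSeries E' f := by
  unfold IsLSeries
  simp only [minimalModels_smul h]

theorem realPeriod_eq (E : WeierstrassCurve ℝ) : realPeriod E = ∫ x : ℝ, 2 / √(dv E x) :=
  setIntegral_eq_integral_of_forall_compl_eq_zero fun x hx => by
    have h : dv E x ≤ 0 := not_lt.1 hx
    change 2 / √(dv E x) = 0
    rw [Real.sqrt_eq_zero_of_nonpos h, div_zero]

theorem complexPeriod_eq (E : WeierstrassCurve ℂ) : complexPeriod E = ∫ z : ℂ, 4 / ‖dv E z‖ := rfl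

theorem period_smul {E E' : WeierstrassCurve L} {C : WeierstrassCurve.VariableChange L}
    (h : C • E = E') :
    |((Algebra.norm ℚ (C.u : L) : ℚ) : ℝ)| * period E = period E' := by
  have hv := vr_of_smul h
  have h1 : ∀ ρ : L →+* ℝ, realPeriod (E'.map ρ) = |ρ C.u| * realPeriod (E.map ρ) := fun ρ => by
    rw [realPeriod_eq, realPeriod_eq, real_vr (hv.map ρ)]
  have h2 : ∀ v : {v : InfinitePlace L // v.IsComplex}, complexPeriod (E'.map v.1.embedding) =
      v.1 (C.u : L) ^ v.1.mult * complexPeriod (E.map v.1.embedding) := fun v => by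
    have h4 : v.1.mult = 2 := InfinitePlace.mult_isComplex v
    rw [complexPeriod_eq, complexPeriod_eq, ← complex_vr (hv.map v.1.embedding), h4,
      InfinitePlace.norm_embedding_eq]
  have h3 : ∏ ρ : L →+* ℝ, |ρ (C.u : L)| =
      ∏ v : {v : InfinitePlace L // v.IsReal}, v.1 (C.u : L) ^ v.1.mult := by
    rw [← Equiv.prod_comp realEquiv]
    refine Finset.prod_congr rfl fun v _ => ?_
    have h4 : v.1.mult = 1 := InfinitePlace.mult_isReal v
    rw [h4, pow_one]
    exact InfinitePlace.norm_embedding_of_isReal v.2 _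
  have h4 : |((Algebra.norm ℚ (C.u : L) : ℚ) : ℝ)| =
      (∏ v : {v : InfinitePlace L // v.IsReal}, v.1 (C.u : L) ^ v.1.mult) *
        ∏ v : {v : InfinitePlace L // v.IsComplex}, v.1 (C.u : L) ^ v.1.mult := by
    rw [← InfinitePlace.prod_eq_prod_mul_prod (fun v : InfinitePlace L => v (C.u : L) ^ v.mult),
      InfinitePlace.prod_eq_abs_norm]
    push_cast
    rfl
  rw [h4, period, period, Finset.prod_congr rfl fun ρ _ => h1 ρ,
    Finset.prod_congr rfl fun v _ => h2 v, Finset.prod_mul_distrib, Finset.prod_mul_distrib, h3]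
  ring

theorem lt_smul {E E' : WeierstrassCurve L} (hE : E'.IsElliptic)
    {C : WeierstrassCurve.VariableChange L} (h : C • E = E') (hP : LeadingTerm E' U) :
    LeadingTerm E U := by
  obtain ⟨r, R, hR, k, q, hk, hq, hc⟩ := hP
  have hN : Algebra.norm ℚ (C.u : L) ≠ 0 := Algebra.norm_ne_zero_iff.2 C.u.ne_zero
  refine ⟨r, R, isRg_vr (vr_of_smul h) E'.isUnit_Δ.ne_zero hR, k,
    q * |Algebra.norm ℚ (C.u : L)| ^ k, hk, mul_ne_zero hq (pow_ne_zero _ (abs_ne_zero.2 hN)), ?_⟩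
  have h1 : (((q * |Algebra.norm ℚ (C.u : L)| ^ k : ℚ) : ℂ) *
      ((R * period E / √|(discr L : ℝ)| : ℝ) : ℂ) ^ k) =
      (q : ℂ) * ((R * period E' / √|(discr L : ℝ)| : ℝ) : ℂ) ^ k := by
    rw [← period_smul h]
    push_cast
    rw [mul_assoc, ← mul_pow]
    congr 2
    have h5 : ((|Algebra.norm ℚ (C.u : L)| : ℚ) : ℂ) =
        ((|((Algebra.norm ℚ (C.u : L) : ℚ) : ℝ)| : ℝ) : ℂ) := by
      rw [← Rat.cast_abs, Complex.ofReal_ratCast]
    rw [h5]
    ring
  rw [h1]
  obtain ⟨f, Λ, hf, h2⟩ := hc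
  exact ⟨f, Λ, (isLSeries_smul h f).2 hf, h2⟩

end iso

section suffice

/-- from the part over all `K` to the part over `ℚ` -/
theorem suffice_of (B : ∀ (L : Type) [Field L] [NumberField L], WeierstrassCurve L → Set ℂ → Prop)
    (hK : ∀ (K : Type) [Field K] [NumberField K] (E : WeierstrassCurve K) [E.IsElliptic]
      (U : Set ℂ), Region U →
      (∀ (F : Type) [Field F] [NumberField F] [Algebra K F], CyclicType K F →
        B F (E.map (algebraMap K F)) U) →
      (∀ (F : Type) [Field F] [NumberField F] [Algebra K F], IsEmpty (F →+* ℝ) →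
        B F (E.map (algebraMap K F)) U) ∧
      (∀ (t : ℕ) (F : Fin t → Type) [∀ i, Field (F i)] [∀ i, NumberField (F i)]
        [∀ i, Algebra K (F i)],
        Submodule.span ℚ (Set.range fun (i : Fin t) (v : K →+* ℝ) =>
          (realAbove (F i) v : ℚ)) = ⊤ →
        (∀ i, B (F i) (E.map (algebraMap K (F i))) U) →
        ∀ (F' : Type) [Field F'] [NumberField F'] [Algebra K F'],
          B F' (E.map (algebraMap K F')) U))
    (hiso : ∀ (L : Type) [Field L] [NumberField L] (U : Set ℂ) (E E' : WeierstrassCurve L)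
      (_ : E'.IsElliptic) (C : WeierstrassCurve.VariableChange L), C • E = E' → B L E' U →
      B L E U) : ComplexFieldsSuffice B := by
  refine ⟨hK, ?_⟩
  have hQ : ∀ (E : WeierstrassCurve ℚ) [E.IsElliptic] (U : Set ℂ),
      (∀ (F : Type) [Field F] [NumberField F], CyclicType ℚ F →
        B F (E.map (algebraMap ℚ F)) U) →
      ∀ (F : Type) [Field F] [NumberField F] [Algebra ℚ F], CyclicType ℚ F →
        B F (E.map (algebraMap ℚ F)) U := by
    intro E _ U hyp F _ _ alg hF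
    obtain rfl : alg = DivisionRing.toRatAlgebra := Subsingleton.elim _ _
    exact hyp F hF
  have h3 : ∀ (E : WeierstrassCurve ℚ) [E.IsElliptic] (U : Set ℂ), Region U →
      (∀ (F : Type) [Field F] [NumberField F], CyclicType ℚ F →
        B F (E.map (algebraMap ℚ F)) U) →
      (∀ (F₀ : Type) [Field F₀] [NumberField F₀], Nonempty (F₀ →+* ℝ) →
        B F₀ (E.map (algebraMap ℚ F₀)) U →
        ∀ (F : Type) [Field F] [NumberField F], B F (E.map (algebraMap ℚ F)) U) := by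
    intro E _ U hU hyp F₀ _ _ hne h0 F _ _
    refine (hK ℚ E U hU (hQ E U hyp)).2 1 (fun _ => F₀) ?_ (fun _ => h0) F
    rw [eq_top_iff]
    rintro y -
    have hr : ∀ v : ℚ →+* ℝ, realAbove F₀ v = Nat.card (F₀ →+* ℝ) := fun v =>
      Nat.card_congr (Equiv.subtypeUnivEquiv fun ρ => Subsingleton.elim _ _)
    have h1 : (Nat.card (F₀ →+* ℝ) : ℚ) ≠ 0 := Nat.cast_ne_zero.2 (by
      have : Nonempty (F₀ →+* ℝ) := hne
      exact Nat.card_pos.ne')
    have h2 : y = (y (Rat.castHom ℝ) / (Nat.card (F₀ →+* ℝ) : ℚ)) •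
        (fun v : ℚ →+* ℝ => (realAbove F₀ v : ℚ)) := by
      funext v
      rw [Pi.smul_apply, smul_eq_mul, hr, Subsingleton.elim v (Rat.castHom ℝ)]
      field_simp
    rw [h2]
    exact Submodule.smul_mem _ _ (Submodule.subset_span ⟨0, rfl⟩)
  intro E _ U hU
  refine ⟨⟨fun h => ⟨fun F _ _ _ => h F, ℚ, inferInstance, inferInstance, ⟨Rat.castHom ℝ⟩, h ℚ⟩,
    fun h F _ _ => ?_⟩, ?_⟩
  · obtain ⟨hyp, F₀, _, _, hne, h0⟩ := h
    exact h3 E U hU hyp F₀ hne h0 F
  · intro E' _ hyp F₀ _ _ hne hC F₁ _ _ hne1 h1 F _ _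
    obtain ⟨C, hC⟩ := hC
    have h4 := h3 E' U hU (fun F _ _ hF => (hyp F hF).2) F₁ hne1 h1 F₀
    have h5 := hiso F₀ U _ _ inferInstance C hC h4
    exact h3 E U hU (fun F _ _ hF => (hyp F hF).1) F₀ hne h5 F

theorem suffice_leading : ComplexFieldsSuffice @LeadingTerm :=
  suffice_of _ (fun _ _ _ _ _ _ hU hyp => ⟨fun F _ _ _ hF => complex_of hU.2.2 hyp F hF,
    fun t F _ _ _ hs hF F' _ _ _ => span_of hU.2.2 hyp t F hs hF F'⟩)
    fun _ _ _ _ _ _ hE _ h hP => lt_smul hE h hP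

theorem cont_old {L : Type} [Field L] [NumberField L] (E : WeierstrassCurve L) (U : Set ℂ)
    (k : ℕ) (w : ℤ) : Pool.Agent.Run7.h184.Kept.RankTotallyComplex.Continues E U k w ↔
      ∃ x, Continues E U k w x := by
  constructor
  · rintro ⟨f, Λ, hf, h2, h3, h4⟩
    exact ⟨_, f, Λ, hf, h2, h3, h4, rfl⟩
  · rintro ⟨x, f, Λ, hf, h2, h3, h4, -⟩
    exact ⟨f, Λ, hf, h2, h3, h4⟩

theorem rank_iff {L : Type} [Field L] [NumberField L] (E : WeierstrassCurve L) (U : Set ℂ) :
    RankFormula E U ↔ Pool.Agent.Run7.h184.Kept.RankTotallyComplex.RankFormula E U := by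
  constructor
  · rintro ⟨r, hr, k, x, hk, hc⟩
    exact ⟨r, hr, k, hk, (cont_old E U k _).2 ⟨x, hc⟩⟩
  · rintro ⟨r, hr, k, hk, hc⟩
    obtain ⟨x, hc⟩ := (cont_old E U k _).1 hc
    exact ⟨r, hr, k, x, hk, hc⟩

theorem suffice_rank : ComplexFieldsSuffice @RankFormula := by
  refine suffice_of _ (fun K _ _ E _ U hU hyp => ?_) fun L _ _ U E E' hE C h hP =>
    (rank_iff E U).2 (Pool.Agent.Run7.h184.Kept.RankTotallyComplex.rank_formula_smul hE h
      ((rank_iff E' U).1 hP))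
  have hyp' : ∀ (F : Type) [Field F] [NumberField F] [Algebra K F],
      Pool.Agent.Run7.h184.Kept.RankTotallyComplex.CyclicType K F →
      Pool.Agent.Run7.h184.Kept.RankTotallyComplex.RankFormula (E.map (algebraMap K F)) U :=
    fun F _ _ _ hF => (rank_iff _ U).1 (hyp F hF)
  refine ⟨fun F _ _ _ hF => ?_, fun t F _ _ _ hs hF F' _ _ _ => (rank_iff _ U).2
    (Pool.Agent.Run7.h184.Kept.RankTotallyComplex.spans hU hyp' t F hs
      (fun i => (rank_iff _ U).1 (hF i)) F')⟩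
  obtain ⟨r, hr, m, hm, h2⟩ := Pool.Agent.Run7.h184.Kept.RankTotallyComplex.relations hU hyp' 1
    (fun _ => F) (fun _ => 1) (fun v => by
      rw [Fin.sum_univ_one, one_mul]
      exact_mod_cast rr_zero (F := ⟨F⟩) hF v)
  obtain ⟨V0, hV0⟩ := exists_minimal (E.map (algebraMap K F)) inferInstance
  obtain ⟨Λ, h3, h4, h5⟩ := h2 (fun _ => LL V0) fun _ =>
    (Pool.Agent.Run7.h184.Kept.RankTotallyComplex.isLSeries_LL inferInstance hV0)
  refine ⟨r 0, hr 0, m, _, hm, LL V0, Λ, isLSeries_LL inferInstance hV0, h3, fun s hs => ?_, ?_,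
    rfl⟩
  · rw [h4 s hs, Fin.prod_univ_one, mul_one, zpow_natCast]
  · rw [h5, Fin.sum_univ_one, one_mul]

theorem rank_defects {K : Type} [Field K] [NumberField K] {E : WeierstrassCurve K} [E.IsElliptic]
    {U : Set ℂ} (hU : Region U)
    (hyp : ∀ (F : Type) [Field F] [NumberField F] [Algebra K F], CyclicType K F →
      RankFormula (E.map (algebraMap K F)) U) :
    ∃ ν : (K →+* ℝ) → ℚ, ∀ (F : Type) [Field F] [NumberField F] [Algebra K F] (k : ℕ) (w : ℤ)
      (x : ℂ), k ≠ 0 → Continues (E.map (algebraMap K F)) U k w x →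
      ∃ r : ℕ, Module.rank ℤ (E.map (algebraMap K F)).toAffine.Point = r ∧
        (w : ℚ) / k = r + ∑ v : K →+* ℝ, (realAbove F v : ℚ) * ν v := by
  have hyp' : ∀ (F : Type) [Field F] [NumberField F] [Algebra K F],
      Pool.Agent.Run7.h184.Kept.RankTotallyComplex.CyclicType K F →
      Pool.Agent.Run7.h184.Kept.RankTotallyComplex.RankFormula (E.map (algebraMap K F)) U :=
    fun F _ _ _ hF => (rank_iff _ U).1 (hyp F hF)
  obtain ⟨ν, h⟩ := Pool.Agent.Run7.h184.Kept.RankTotallyComplex.defects hU hyp'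
  exact ⟨ν, fun F _ _ _ k w x hk hc => h F k w hk ((cont_old _ U k w).2 ⟨x, hc⟩)⟩

end suffice

end proof

/-- **Main theorem.** -/
theorem result :
    -- 0. the universal relations
    (∀ (K : Type) [Field K] [NumberField K] (t : ℕ) (F : Fin t → Type)
      [∀ i, Field (F i)] [∀ i, NumberField (F i)] [∀ i, Algebra K (F i)] (a : Fin t → ℤ),
      (∀ v : K →+* ℝ, ∑ i, a i * (realAbove (F i) v : ℤ) = 0) →
      ∃ (m u : ℕ) (Y : Fin u → Type) (_ : ∀ j, Field (Y j)) (_ : ∀ j, NumberField (Y j))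
        (_ : ∀ j, Algebra K (Y j)) (n : Fin u → ℤ), m ≠ 0 ∧ (∀ j, CyclicType K (Y j)) ∧
        ∀ (E : WeierstrassCurve K) [E.IsElliptic],
          (∀ U : Set ℂ, Region U → ∀ (f : Fin t → ℂ → ℂ) (g : Fin u → ℂ → ℂ),
            (∀ i, IsLSeries (E.map (algebraMap K (F i))) (f i)) →
            (∀ j, IsLSeries (E.map (algebraMap K (Y j))) (g j)) →
            ∃ (k : ℕ) (q : ℚ) (Λ : ℂ → ℂ), k ≠ 0 ∧ q ≠ 0 ∧ MeromorphicOn Λ U ∧
              (∀ s : ℂ, 3 / 2 < s.re →
                Λ s = ((∏ i, f i s ^ a i) ^ m * (∏ j, g j s ^ n j)⁻¹) ^ k) ∧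
              meromorphicOrderAt Λ 1 = 0 ∧ meromorphicTrailingCoeffAt Λ 1 = q) ∧
          ((∀ (G : Type) [Field G] [NumberField G] [Algebra K G],
              ∃ (r : ℕ) (R : ℝ), IsRegulator (E.map (algebraMap K G)) r R ∧ R ≠ 0) →
            ∀ (r : Fin t → ℕ) (R : Fin t → ℝ) (r' : Fin u → ℕ) (R' : Fin u → ℝ),
              (∀ i, IsRegulator (E.map (algebraMap K (F i))) (r i) (R i)) →
              (∀ j, IsRegulator (E.map (algebraMap K (Y j))) (r' j) (R' j)) →
              (m : ℤ) * ∑ i, a i * (r i : ℤ) = ∑ j, n j * (r' j : ℤ) ∧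
              ∃ (k : ℕ) (q : ℚ), k ≠ 0 ∧ q ≠ 0 ∧
                ((∏ i, R i ^ a i) ^ m) ^ k = q * (∏ j, R' j ^ n j) ^ k)) ∧
    -- 1. the totally complex fields suffice
    ComplexFieldsSuffice @LeadingTerm ∧ ComplexFieldsSuffice @RankFormula ∧
    -- 2. the defects of the leading terms
    (∀ (K : Type) [Field K] [NumberField K] (E : WeierstrassCurve K) [E.IsElliptic] (U : Set ℂ),
      Region U →
      (∀ (F : Type) [Field F] [NumberField F] [Algebra K F], CyclicType K F →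
        LeadingTerm (E.map (algebraMap K F)) U) →
      (∀ (F : Type) [Field F] [NumberField F] [Algebra K F],
        ∃ (r : ℕ) (R : ℝ), IsRegulator (E.map (algebraMap K F)) r R ∧ R ≠ 0) ∧
      ∃ (b : ℂ) (c : (K →+* ℝ) → ℂ) (ν : (K →+* ℝ) → ℚ),
        b ^ 2 = ((∏ ψ : K →+* ℂ, complexPeriod (E.map ψ) : ℝ) : ℂ) ∧ b ≠ 0 ∧ (∀ v, c v ≠ 0) ∧
        ∀ (F : Type) [Field F] [NumberField F] [Algebra K F] (k : ℕ) (w : ℤ) (x : ℂ) (r : ℕ)
          (R : ℝ), k ≠ 0 → Continues (E.map (algebraMap K F)) U k w x →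
          IsRegulator (E.map (algebraMap K F)) r R →
          (w : ℚ) / k = r + ∑ v : K →+* ℝ, (realAbove F v : ℚ) * ν v ∧
          ∃ (j : ℕ) (q : ℚ), j ≠ 0 ∧ q ≠ 0 ∧
            x ^ j = q * ((R : ℂ) * b ^ Module.finrank K F *
              ∏ v : K →+* ℝ, c v ^ realAbove F v) ^ (k * j)) ∧
    -- 3. the defects of the ranks
    (∀ (K : Type) [Field K] [NumberField K] (E : WeierstrassCurve K) [E.IsElliptic] (U : Set ℂ),
      Region U →
      (∀ (F : Type) [Field F] [NumberField F] [Algebra K F], CyclicType K F →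
        RankFormula (E.map (algebraMap K F)) U) →
      ∃ ν : (K →+* ℝ) → ℚ, ∀ (F : Type) [Field F] [NumberField F] [Algebra K F] (k : ℕ) (w : ℤ)
        (x : ℂ), k ≠ 0 → Continues (E.map (algebraMap K F)) U k w x →
        ∃ r : ℕ, Module.rank ℤ (E.map (algebraMap K F)).toAffine.Point = r ∧
          (w : ℚ) / k = r + ∑ v : K →+* ℝ, (realAbove F v : ℚ) * ν v) :=
  ⟨fun K _ _ t F _ _ _ a h => univ_of K t F a h, suffice_leading, suffice_rank,
    fun _ _ _ _ _ _ hU hyp => ⟨fun F _ _ _ => regulators_of hU.2.2 hyp F, leading_of hU hyp⟩,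
    fun _ _ _ _ _ _ hU hyp => rank_defects hU hyp⟩

end Pool.Agent.Results.MP_f50388_nt.LeadingTermTotallyComplex
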