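import Pool.Agent.Run7.h555.P21.Th
import Pool.Agent.Run7.h89.P21.Cen
import Pool.Agent.Run7.h89.P21.Tam
import Pool.Agent.Run7.h209.P21.Per6
import Pool.Agent.Run7.h424.M21.Fin
import Pool.Agent.Run7.h289.D18.Sc
import Pool.Agent.Run7.h843.G3
import Pool.Agent.N873.F15.Dn
import Pool.Agent.Run7.h238.J.Grand
import Pool.Agent.Run7.h289.J.Cl

/-!
# The 2-part of the conjecture for the twists of `X_0(21)`: exact densities and independence

For `n` squarefree, `n ≡ 19`, `31` or `55` modulo `84`, let `E_n` be the quadratic twist by `-n` of the curve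
`X_0(21)` (no complex multiplication), isomorphic to `y² = x (x + 9 n) (x - 7 n)`, and let `L(E_n, s)` be its
L-function with all its Euler factors. There is no condition on the number or on the type of the prime
divisors of `n`, and no hypothesis on the rank or on `Ш`.
* For all these `n`: the equation of `E_n` is minimal, `#E_n(ℚ)_tors = 4`, `Tam = 4^(1 + #{p ∣ n})`,
  `L(E_n, s)` is entire and `L(E_n, 1) / Ω = y² Tam / #tors²` with an integer `y`, and `y` is odd if and only
  if `n` satisfies the criterion: there is no factorization `n = b c`, `b, c > 1`, with `b` a square modulo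
  every prime divisor of `c` and `c` a square modulo every prime divisor of `b`.
* The 2-part of the conclusion of the question for `K = ℚ` holds for `E_n` (`PartAtTwo`), with rank `0` and
  `Ш(E_n/ℚ)[2^∞] = 0`, if and only if `n` satisfies the criterion, and if and only if `E_n(ℚ)` is
  finite and `Ш(E_n/ℚ)` has no element of order two. It holds for all primes of the class.
* **Independence.** A multiplier is a squarefree `a` congruent to `1`, `25` or `37` modulo `84`; for `n` of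
  the class the squarefree part `sqf a n` of `a n` is in the class again. Let
  `η = ∏_{i ≥ 1} (1 - 2^{-i}) = 0.2888...`. For every finite set `S` of multipliers and every subset `T`,
  exactly the proportion `η^#T (1 - η)^(#S - #T)` of the class has this property for the twists by `- a n`
  with `a` in `T` and for no other `a` in `S`; the same holds in every arithmetic progression of the class
  prime to its modulus.
* So, for every finite set `S` of multipliers, the 2-part of the conjecture holds for all twists by `- a n`,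
  `a ∈ S`, at once for more than the proportion `0.2887^#S` of the class, and for at least one of them for
  all but the proportion `0.7113^#S`. The class is a positive proportion of all the integers.

The proof (files of this project): the complete 2-descent (`Run7/h289/D18`); the modularity of
`X_0(21)` with its modular symbols (`Run7/h741/MG`, `Run7/h209/P21`, `Run7/h843/P21`,
`Run7/h89/P21/Form`, `Run7/h135/P21/Dim*`); the twisted Euler product, the functional equation and the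
central value (`Run7/h555/TL`, `Run7/h89/P21/Cen`); the central value as a square, by an identity
between modular symbols and numbers of representations by ternary quadratic forms
(`Run7/h135/P21`, `Run7/h483/P21`, `Run7/h238/P21`, `Run7/h89/P21/Fin`, `Run7/h555/P21/Th`); periods,
torsion and Tamagawa numbers (`Run7/h209/P21/Per6`, `Run7/h424/M21`, `Run7/h89/P21/Tam`); the natural
density of the criterion (`N916/GB`, `Run7/h843/G3`); the joint law of the criterion for finitely many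
multipliers (`Run7/h238/J`, `Run7/h424/J`, `Run7/h209/J`, `Run7/h843/J`, `Run7/h89/J`, `Run7/h289/J`).
-/

set_option autoImplicit false

open NumberField IsDedekindDomain WeierstrassCurve MeasureTheory Filter Topology

namespace Pool.Agent.Results.MP_f50388_nt.TwistsX21JointTwoPart

open Pool.Agent.TH841.NF.D (Sha)
open Pool.Agent.TH841.SH.D (Pt)

/-- `n` is squarefree and `n ≡ 19`, `31` or `55` modulo `84` -/
def Class (n : ℕ) : Prop := Squarefree n ∧ (n % 84 = 19 ∨ n % 84 = 31 ∨ n % 84 = 55)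

/-- The multipliers. -/
def Mult (a : ℕ) : Prop := Squarefree a ∧ (a % 84 = 1 ∨ a % 84 = 25 ∨ a % 84 = 37)

/-- The squarefree part of the product of two squarefree numbers. -/
def sqf (a n : ℕ) : ℕ := a * n / Nat.gcd a n ^ 2

/-- The curve `y² + x y = x³ - ((n + 1)/4) x² - 4 n² x + n³` (for `n` in the class the coefficients are
integers), the quadratic twist by `-n` of `X_0(21)`. -/
def C (n : ℕ) : WeierstrassCurve ℤ := ⟨1, -((n + 1) / 4), 0, -(4 * n ^ 2), n ^ 3⟩

/-- The curve over `ℚ`. -/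
abbrev E (n : ℕ) : WeierstrassCurve ℚ := (C n).map (Int.castRingHom ℚ)

/-- The equation is minimal at the place `v`: no change of variables over `ℚ` that keeps the
coefficients integral at `v` decreases the order of the discriminant. -/
def MinimalAt (W : WeierstrassCurve ℚ) (v : HeightOneSpectrum (𝓞 ℚ)) : Prop :=
  ∀ C : VariableChange ℚ, v.valuation ℚ (C • W).a₁ ≤ 1 → v.valuation ℚ (C • W).a₂ ≤ 1 →
    v.valuation ℚ (C • W).a₃ ≤ 1 → v.valuation ℚ (C • W).a₄ ≤ 1 → v.valuation ℚ (C • W).a₆ ≤ 1 →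
    v.valuation ℚ (C • W).Δ ≤ v.valuation ℚ W.Δ

/-- `W⁰(ℚ_v)`, the group of the points of `W` over the completion `ℚ_v` with nonsingular reduction:
the point at infinity and the points `(x, y)` where `x` is not integral, or one of the partial
derivatives of `y² + a₁ x y + a₃ y - x³ - a₂ x² - a₄ x - a₆` is a unit at `(x, y)`.
Here `Pt W ℚ_v` is the group of the points of `W` over `ℚ_v`. -/
noncomputable def nonsing (W : WeierstrassCurve ℚ) (v : HeightOneSpectrum (𝓞 ℚ)) :
    AddSubgroup (Pt W (v.adicCompletion ℚ)) :=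
  AddSubgroup.closure {P | ∀ x y h, P = Affine.Point.some x y h →
    1 < Valued.v x ∨
    Valued.v ((W.baseChange (v.adicCompletion ℚ)).a₁ * y -
      (3 * x ^ 2 + 2 * (W.baseChange (v.adicCompletion ℚ)).a₂ * x +
        (W.baseChange (v.adicCompletion ℚ)).a₄)) = 1 ∨
    Valued.v (2 * y + (W.baseChange (v.adicCompletion ℚ)).a₁ * x +
      (W.baseChange (v.adicCompletion ℚ)).a₃) = 1}

/-- The Tamagawa number `c_v = [W(ℚ_v) : W⁰(ℚ_v)]` of a minimal equation. -/
noncomputable def c (W : WeierstrassCurve ℚ) (v : HeightOneSpectrum (𝓞 ℚ)) : ℕ :=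
  (nonsing W v).index

/-- The product of the Tamagawa numbers. -/
noncomputable def Tam (W : WeierstrassCurve ℚ) : ℕ := ∏ᶠ v : HeightOneSpectrum (𝓞 ℚ), c W v

/-- `4 x³ + b₂ x² + 2 b₄ x + b₆ = (2 y + a₁ x + a₃)²`. -/
def cubic (W : WeierstrassCurve ℤ) (x : ℝ) : ℝ := 4 * x ^ 3 + W.b₂ * x ^ 2 + 2 * W.b₄ * x + W.b₆

/-- `Ω = ∫_{W(ℝ)} |ω|` with `ω = dx / (2 y + a₁ x + a₃)`, as an integral over `x`: two real points lie
over each `x` with `cubic x > 0`. -/
noncomputable def Omega (W : WeierstrassCurve ℤ) : ℝ :=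
  2 * ∫ x in {x : ℝ | 0 < cubic W x}, 1 / √(cubic W x)

open Classical in
/-- The order of the torsion subgroup of `W(K)`. -/
noncomputable def torsOrder {K : Type} [Field K] (W : WeierstrassCurve K) : ℕ :=
  Nat.card (AddCommGroup.torsion W.toAffine.Point)

/-- `a_p = p + 1 - #E_n(𝔽_p)`, where the point at infinity and the singular point are counted: `p` minus
the number of the affine points modulo `p`. -/
noncomputable def tr (n p : ℕ) : ℤ :=
  (p : ℤ) - Nat.card {P : ZMod p × ZMod p //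
    ((C n).map (Int.castRingHom (ZMod p))).toAffine.Equation P.1 P.2}

/-- `F` is the L-function of `E_n`: it is entire, and it is the complete Euler product for
`Re s > 3/2`; the primes of bad reduction are the prime divisors of `21 n`. -/
def IsLFun (n : ℕ) (F : ℂ → ℂ) : Prop :=
  Differentiable ℂ F ∧ ∀ s : ℂ, (3 : ℝ) / 2 < s.re →
    HasProd (fun p : ℕ => if p.Prime then (1 - (tr n p : ℂ) * (p : ℂ) ^ (-s) +
      if p ∣ 21 * n then 0 else (p : ℂ) ^ (1 - 2 * s))⁻¹ else 1) (F s)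

/-- There is no factorization `n = b c`, `b, c > 1`, such that `b` is a square modulo every prime divisor
of `c` and `c` is a square modulo every prime divisor of `b`. -/
def Criterion (n : ℕ) : Prop := ∀ b c : ℕ, b * c = n →
  (∀ p : ℕ, p.Prime → p ∣ c → IsSquare (b : ZMod p)) →
  (∀ p : ℕ, p.Prime → p ∣ b → IsSquare (c : ZMod p)) → b = 1 ∨ c = 1

/-- The 2-primary part of the Tate-Shafarevich group of `E_n`. -/
abbrev Sha2 (n : ℕ) : Type := {x : Sha (E n) // ∃ k : ℕ, 2 ^ k • x = 0}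

/-- **The 2-part of the conclusion of the question for `K = ℚ` and the curve `E_n`, in the case of rank
zero**: the L-function `F` of `E_n` is entire, `ord_{s=1} F = 0` and the rank is `0`, that is, `E_n(ℚ)` is
finite (so the regulator is `1`; the equation is minimal, `C = Tam`, `Disc = 1`), `Ш(E_n/ℚ)[2^∞]` is
finite, and `F 1 / Ω` is a rational number `q` with the same order at two as
`#Ш(E_n/ℚ)[2^∞] Tam / #E_n(ℚ)_tors²`: the formula for `L(E_n, 1)` up to a factor prime to two. -/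
def PartAtTwo (n : ℕ) : Prop :=
  ∃ F : ℂ → ℂ, IsLFun n F ∧ analyticOrderAt F 1 = 0 ∧ Finite (E n).toAffine.Point ∧
    Finite (Sha2 n) ∧ ∃ q : ℚ, F 1 = q * (Omega (C n) : ℝ) ∧ q ≠ 0 ∧
      padicValRat 2 q =
        padicValRat 2 ((Nat.card (Sha2 n) * Tam (E n) : ℚ) / (torsOrder (E n) : ℚ) ^ 2)

/-- The 2-part of the conjecture holds for `E_n`, with `r = 0` and `Ш[2^∞] = 0`. -/
def TrivialTwo (n : ℕ) : Prop := PartAtTwo n ∧ ∀ x : Sha (E n), x + x = 0 → x = 0

/-- the number of the `n ≤ X` in the class with the property `Q` -/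
noncomputable def num (Q : ℕ → Prop) (X : ℕ) : ℕ := Nat.card {n : ℕ // n ≤ X ∧ Class n ∧ Q n}

/-- the constant `0.2888...` -/
noncomputable def η : ℝ := ∏' i : ℕ, (1 - (1 / 2 : ℝ) ^ (i + 1))

section proof

open Pool.Agent.N969.P15 (Qc)
open _root_.Run7.h89.P21 (CI EI EJ)
open Pool.Agent.Y700 (VR)

theorem C_eq {n : ℕ} (h : n % 4 = 3) : C n = CI n := by
  have c1 := Run7.h89.P21.coeffs_n h
  have k1 : -(((n : ℤ) + 1) / 4) = (-(n : ℤ) - 1) / 4 := by omega
  have k2 : -(4 * (n : ℤ) ^ 2) = -(4 * (-(n : ℤ)) ^ 2) := by rw [neg_sq]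
  have k3 : (n : ℤ) ^ 3 = -((-(n : ℤ)) ^ 3) := by ring
  unfold C CI Run7.h89.P21.WT
  rw [k1, k2, k3]

theorem Class.mod {n : ℕ} (h : Class n) : n % 4 = 3 := by
  have := h.2
  omega

theorem E_eq {n : ℕ} (h : Class n) : E n = EI n := by
  show (C n).map (Int.castRingHom ℚ) = (CI n).map (Int.castRingHom ℚ)
  rw [C_eq h.mod]

theorem crit_iff {n : ℕ} (h : Class n) : Criterion n ↔ Qc n := by
  have key : ∀ b c : ℕ, b * c = n → ((∀ p : ℕ, p.Prime → p ∣ c → IsSquare (b : ZMod p)) ↔
      ∀ p ∈ c.primeFactors, jacobiSym b p = 1) := by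
    intro b c hbc
    have hc0 : c ≠ 0 := by
      rintro rfl
      rw [mul_zero] at hbc
      exact h.1.ne_zero hbc.symm
    have hcop : b.Coprime c := Nat.coprime_of_squarefree_mul (by rw [hbc]; exact h.1)
    constructor
    · intro h1 p hp
      have hpp := Nat.prime_of_mem_primeFactors hp
      have hpc := Nat.dvd_of_mem_primeFactors hp
      have : Fact p.Prime := ⟨hpp⟩
      have hb0 : ((b : ℤ) : ZMod p) ≠ 0 := by
        intro h0
        rw [ZMod.intCast_zmod_eq_zero_iff_dvd] at h0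
        have h2 : p ∣ b := by exact_mod_cast h0
        exact hpp.one_lt.ne' (Nat.dvd_one.1 (hcop ▸ Nat.dvd_gcd h2 hpc))
      rw [← jacobiSym.legendreSym.to_jacobiSym, legendreSym.eq_one_iff p hb0]
      exact_mod_cast h1 p hpp hpc
    · intro h1 p hpp hpc
      have : Fact p.Prime := ⟨hpp⟩
      have h2 := h1 p (Nat.mem_primeFactors.2 ⟨hpp, hpc, hc0⟩)
      have hb0 : ((b : ℤ) : ZMod p) ≠ 0 := by
        intro h0
        rw [ZMod.intCast_zmod_eq_zero_iff_dvd] at h0
        have h2 : p ∣ b := by exact_mod_cast h0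
        exact hpp.one_lt.ne' (Nat.dvd_one.1 (hcop ▸ Nat.dvd_gcd h2 hpc))
      rw [← jacobiSym.legendreSym.to_jacobiSym, legendreSym.eq_one_iff p hb0] at h2
      exact_mod_cast h2
  unfold Criterion Qc
  refine forall_congr' fun b => forall_congr' fun c => forall_congr' fun hbc => ?_
  rw [key b c hbc, key c b (by rw [mul_comm]; exact hbc)]

theorem sha_all {n : ℕ} (h : ∀ x : Sha (E n), x + x = 0 → x = 0) (k : ℕ) (x : Sha (E n))
    (hx : 2 ^ k • x = 0) : x = 0 := by
  induction k with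
  | zero => rwa [pow_zero, one_smul] at hx
  | succ k ih =>
    apply ih
    apply h
    rw [← two_nsmul, ← mul_smul, ← pow_succ']
    exact hx

open Classical in
/-- points and Tate-Shafarevich groups of isomorphic curves -/
theorem iso {V W : WeierstrassCurve ℚ} {u r s t : ℚ} (h : VR V W u r s t) (hD : W.Δ ≠ 0) :
    (Finite W.toAffine.Point ↔ Finite V.toAffine.Point) ∧
    ∀ k : ℕ, ((∀ x : Sha W, k • x = 0 → x = 0) ↔ (∀ x : Sha V, k • x = 0 → x = 0)) := by
  have e := h.equiv hD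
  have f := (Pool.Agent.Y655.XT.isoVR h hD).sha
  refine ⟨⟨fun _ => Finite.of_equiv _ e.toEquiv, fun _ => Finite.of_equiv _ e.symm.toEquiv⟩, ?_⟩
  intro k
  constructor
  · intro h1 x hx
    have h2 := h1 (f.symm x) (by rw [← map_nsmul, hx, map_zero])
    rwa [AddEquiv.map_eq_zero_iff] at h2
  · intro h1 x hx
    have h2 := h1 (f x) (by rw [← map_nsmul, hx, map_zero])
    rwa [AddEquiv.map_eq_zero_iff] at h2

theorem desc {n : ℕ} (h : Class n) :
    (Finite (E n).toAffine.Point ∧ ∀ (k : ℕ) (x : Sha (E n)), 2 ^ k • x = 0 → x = 0) ↔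
      Criterion n := by
  rw [crit_iff h]
  have h1 := Run7.h289.D18.iff21 h.1 h.2 (W := ⟨0, ((-25 * n : ℤ) : ℚ), 0, ((144 * n ^ 2 : ℤ) : ℚ), 0⟩) rfl
  rw [← h1]
  obtain ⟨i1, i2⟩ := Run7.h424.M21.s_iso n h.mod
  have hn0 : (n : ℚ) ≠ 0 := by exact_mod_cast h.1.ne_zero
  have hv : VR (⟨0, ((-25 * n : ℤ) : ℚ), 0, ((144 * n ^ 2 : ℤ) : ℚ), 0⟩ : WeierstrassCurve ℚ) (EJ n) 1
      (9 * n) 0 0 := by
    refine ⟨one_ne_zero, ?_, ?_, ?_, ?_, ?_⟩ <;> push_cast <;> ring
  have hD : (EJ n).Δ ≠ 0 := by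
    have e : (EJ n).Δ = 16 ^ 2 * 63 ^ 2 * (n : ℚ) ^ 6 * 16 := by
      simp only [WeierstrassCurve.Δ, WeierstrassCurve.b₂, WeierstrassCurve.b₄,
        WeierstrassCurve.b₆, WeierstrassCurve.b₈]
      ring
    rw [e]
    positivity
  obtain ⟨j1, j2⟩ := iso hv hD
  rw [E_eq h, i1, j1]
  refine and_congr_right fun _ => ?_
  exact forall_congr' fun k => (i2 (2 ^ k)).trans (j2 (2 ^ k))

theorem value {n : ℕ} (h : Class n) : ∃ F : ℂ → ℂ, IsLFun n F ∧
    ∃ y : ℤ, F 1 = ((y : ℂ) ^ 2 * (Tam (E n) : ℂ) / (torsOrder (E n) : ℂ) ^ 2) *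
      ((Omega (C n) : ℝ) : ℂ) ∧ (Odd y ↔ Criterion n) := by
  obtain ⟨L, Op, Om, hOp, hOm, g2, g3, hL⟩ := Run7.h209.P21.m_lat
  obtain ⟨F, hF, hprod, y', hcc, hodd, hval⟩ := Run7.h89.P21.center hOm g2 g3 hL (n := n) h
  obtain ⟨y, rfl⟩ : ∃ y : ℤ, y' = 3 * y := by
    have h3 : (3 : ℤ) ∣ 2 ^ (n.primeFactors.card + 1) * y' := by
      rw [← hcc]
      exact Run7.h555.P21.three_dvd_cc (by have := h.2; omega)
    rcases (Int.prime_three.dvd_mul).1 h3 with h4 | h4
    · exact absurd (Int.prime_three.dvd_of_dvd_pow h4) (by decide)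
    · exact h4
  have hC := C_eq h.mod
  have hE := E_eq h
  have hper := Run7.h209.P21.s_per L Op Om hOp hOm g2 g3 hL n h.mod
  have htor : torsOrder (E n) = 4 := by
    rw [hE]
    exact Run7.h424.M21.s_tor n h
  have htam : Tam (E n) = 4 * 4 ^ n.primeFactors.card := by
    rw [hE]
    exact Run7.h89.P21.tam_eq n h
  refine ⟨F, ⟨hF, ?_⟩, y, ?_, ?_⟩
  · intro s hs
    have h2 := hprod s hs
    unfold Run7.h89.P21.eul at h2
    unfold tr
    rw [hC]
    exact h2
  · have hn0 : (0 : ℝ) < n := by exact_mod_cast Nat.pos_of_ne_zero h.1.ne_zero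
    have hs : 0 < √(n : ℝ) := Real.sqrt_pos.2 hn0
    have hs0 : ((√(n : ℝ) : ℝ) : ℂ) ≠ 0 := by exact_mod_cast hs.ne'
    have hOm0 : (Om : ℂ) ≠ 0 := by exact_mod_cast hOm.ne'
    have hOmega : Omega (C n) * √(n : ℝ) = 2 * Om := by
      rw [hC]
      exact hper
    have hOC : ((Omega (C n) : ℝ) : ℂ) * ((√(n : ℝ) : ℝ) : ℂ) = 2 * Om := by
      exact_mod_cast hOmega
    have hO0 : ((Omega (C n) : ℝ) : ℂ) ≠ 0 := by
      intro h0
      rw [h0, zero_mul] at hOC
      exact mul_ne_zero two_ne_zero hOm0 hOC.symm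
    rw [htor, htam]
    have e4 : (4 : ℂ) ^ n.primeFactors.card = ((2 : ℂ) ^ n.primeFactors.card) ^ 2 := by
      rw [← pow_mul, mul_comm, pow_mul]
      norm_num
    push_cast at hval ⊢
    apply mul_right_cancel₀ hs0
    rw [e4]
    linear_combination (1 / 18 : ℂ) * hval -
      ((y : ℂ) ^ 2 / 4 * (2 ^ n.primeFactors.card) ^ 2) * hOC
  · rw [crit_iff h, ← hodd, Int.odd_mul]
    exact ⟨fun h => ⟨by decide, h⟩, fun h => h.2⟩

theorem htam {n : ℕ} (h : Class n) : Tam (E n) = 4 * 4 ^ n.primeFactors.card := by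
  rw [E_eq h]
  exact Run7.h89.P21.tam_eq n h

theorem htor {n : ℕ} (h : Class n) : torsOrder (E n) = 4 := by
  rw [E_eq h]
  exact Run7.h424.M21.s_tor n h

/-- **the 2-part** -/
theorem part {n : ℕ} (hn : Class n) (h : Criterion n) : PartAtTwo n := by
  obtain ⟨F, hF, y, hy, hodd⟩ := value hn
  have hyo := hodd.2 h
  have h1 := (desc hn).2 h
  have hy0 : y ≠ 0 := by
    rintro rfl
    exact absurd hyo (by decide)
  have hT0 : (Tam (E n) : ℚ) ≠ 0 := by
    rw [htam hn]
    positivity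
  have ht0 : (torsOrder (E n) : ℚ) ≠ 0 := by
    rw [htor hn]
    norm_num
  have hsub : Subsingleton (Sha2 n) :=
    ⟨fun a b => Subtype.ext (by
      obtain ⟨k, hk⟩ := a.2
      obtain ⟨l, hl⟩ := b.2
      rw [h1.2 k a.1 hk, h1.2 l b.1 hl])⟩
  have hcard : Nat.card (Sha2 n) = 1 := by
    have : Nonempty (Sha2 n) := ⟨⟨0, 0, smul_zero _⟩⟩
    exact Nat.card_of_subsingleton (Classical.arbitrary _)
  have hO0 : ((Omega (C n) : ℝ) : ℂ) ≠ 0 := by
    obtain ⟨L, Op, Om, hOp, hOm, g2, g3, hL⟩ := Run7.h209.P21.m_lat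
    have hper := Run7.h209.P21.s_per L Op Om hOp hOm g2 g3 hL n hn.mod
    intro h0
    have h2 : Omega (C n) = 0 := by exact_mod_cast h0
    have h3 : Omega (C n) * √(n : ℝ) = 2 * Om := by
      rw [C_eq hn.mod]
      exact hper
    rw [h2, zero_mul] at h3
    exact (mul_pos two_pos hOm).ne' h3.symm
  refine ⟨F, hF, ?_, h1.1, inferInstance,
    (y : ℚ) ^ 2 * (Tam (E n) : ℚ) / (torsOrder (E n) : ℚ) ^ 2, ?_, ?_, ?_⟩
  · rw [(hF.1.analyticAt 1).analyticOrderAt_eq_zero, hy]
    refine mul_ne_zero (div_ne_zero (mul_ne_zero (pow_ne_zero _ (by exact_mod_cast hy0))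
      (by exact_mod_cast hT0)) (pow_ne_zero _ (by exact_mod_cast ht0))) hO0
  · rw [hy]
    push_cast
    ring
  · exact div_ne_zero (mul_ne_zero (pow_ne_zero _ (by exact_mod_cast hy0)) hT0)
      (pow_ne_zero _ ht0)
  · have hfact : Fact (Nat.Prime 2) := ⟨Nat.prime_two⟩
    have hpy : padicValRat 2 ((y : ℚ) ^ 2) = 0 := by
      have e : ((y : ℚ) ^ 2) = ((y ^ 2 : ℤ) : ℚ) := by push_cast; rfl
      rw [e, padicValRat.of_int]
      have : padicValInt 2 (y ^ 2) = 0 := by
        apply padicValInt.eq_zero_of_not_dvd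
        intro h2
        exact (Int.not_even_iff_odd.2 hyo.pow) (even_iff_two_dvd.2 (by exact_mod_cast h2))
      rw [this]
      rfl
    rw [hcard, Nat.cast_one, one_mul, mul_div_assoc,
      padicValRat.mul (pow_ne_zero _ (by exact_mod_cast hy0)) (div_ne_zero hT0 (pow_ne_zero _ ht0)),
      hpy, zero_add]

theorem triv_crit {n : ℕ} (hn : Class n) : TrivialTwo n ↔ Criterion n := by
  constructor
  · rintro ⟨⟨F, -, -, h1, -⟩, h2⟩
    exact (desc hn).1 ⟨h1, sha_all h2⟩
  · intro h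
    exact ⟨part hn h, fun x hx => ((desc hn).2 h).2 1 x (by rw [pow_one, two_nsmul]; exact hx)⟩

theorem triv_iff {n : ℕ} (h : Class n) : TrivialTwo n ↔ Qc n :=
  (triv_crit h).trans (crit_iff h)

theorem prime_crit {p : ℕ} (hp : p.Prime) : Criterion p := by
  intro b c hbc _ _
  rcases (Nat.dvd_prime hp).1 ⟨c, hbc.symm⟩ with h | h
  · exact Or.inl h
  · right
    rw [h] at hbc
    exact Nat.eq_of_mul_eq_mul_left hp.pos (by rw [hbc, mul_one])

end proof

section count

open Finset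
open Pool.Agent.N969.P15 (Qc)

/-- the number of the squarefree `n ≤ X` with `C n` and `Q n` -/
noncomputable def Cc (C Q : ℕ → Prop) (X : ℕ) : ℕ := by
  classical
  exact ((Icc 1 X).filter fun n => Squarefree n ∧ C n ∧ Q n).card

/-- the residue classes -/
def Cl (n : ℕ) : Prop := n % 84 = 19 ∨ n % 84 = 31 ∨ n % 84 = 55

/-- the count with an additional condition -/
noncomputable def numP (P Q : ℕ → Prop) (X : ℕ) : ℕ :=
  Nat.card {n : ℕ // n ≤ X ∧ Squarefree n ∧ P n ∧ Q n}

theorem numP_eq {P : ℕ → Prop} (h0 : ∀ n, P n → Cl n) (Q : ℕ → Prop) (X : ℕ) [DecidablePred P]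
    [DecidablePred Q] :
    numP P Q X = ((Icc 1 X).filter fun n => Squarefree n ∧ P n ∧ Q n).card := by
  classical
  unfold numP
  refine Nat.subtype_card _ fun n => ?_
  rw [mem_filter, mem_Icc]
  constructor
  · rintro ⟨⟨_, h1⟩, h2⟩
    exact ⟨h1, h2⟩
  · rintro ⟨h1, h2⟩
    refine ⟨⟨?_, h1⟩, h2⟩
    have h3 : n % 84 = 19 ∨ n % 84 = 31 ∨ n % 84 = 55 := h0 n h2.2.1
    omega

theorem num_numP (Q : ℕ → Prop) (X : ℕ) : num Q X = numP Cl Q X := by
  unfold num numP Class Cl
  simp only [and_assoc]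

theorem num_eq (Q : ℕ → Prop) (X : ℕ) : num Q X = Cc Cl Q X := by
  classical
  rw [num_numP, numP_eq fun n h => h]
  rfl

theorem num_triv (X : ℕ) : num TrivialTwo X = Cc Cl Qc X := by
  classical
  rw [num_eq]
  unfold Cc
  refine congrArg Finset.card (Finset.filter_congr fun n _ => ?_)
  constructor
  · rintro ⟨h1, h2, h3⟩
    exact ⟨h1, h2, (triv_iff ⟨h1, h2⟩).1 h3⟩
  · rintro ⟨h1, h2, h3⟩
    exact ⟨h1, h2, (triv_iff ⟨h1, h2⟩).2 h3⟩

theorem numP_mono {P Q R : ℕ → Prop} (h0 : ∀ n, P n → Cl n)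
    (h : ∀ n, Squarefree n → P n → Q n → R n) (X : ℕ) : numP P Q X ≤ numP P R X := by
  classical
  rw [numP_eq h0, numP_eq h0]
  refine Finset.card_le_card fun n hn => ?_
  rw [mem_filter] at hn ⊢
  exact ⟨hn.1, hn.2.1, hn.2.2.1, h n hn.2.1 hn.2.2.1 hn.2.2.2⟩

/-- the complement -/
theorem numP_not {P Q R : ℕ → Prop} (h0 : ∀ n, P n → Cl n)
    (h : ∀ n, Squarefree n → P n → ¬ Q n → R n) (X : ℕ) :
    numP P (fun _ => True) X ≤ numP P Q X + numP P R X := by
  classical
  rw [numP_eq h0, numP_eq h0, numP_eq h0]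
  refine (Finset.card_le_card (t := ((Icc 1 X).filter fun n => Squarefree n ∧ P n ∧ Q n) ∪
    ((Icc 1 X).filter fun n => Squarefree n ∧ P n ∧ R n)) fun n hn => ?_).trans
    (Finset.card_union_le _ _)
  rw [mem_filter] at hn
  rw [mem_union, mem_filter, mem_filter]
  by_cases hq : Q n
  · exact Or.inl ⟨hn.1, hn.2.1, hn.2.2.1, hq⟩
  · exact Or.inr ⟨hn.1, hn.2.1, hn.2.2.1, h n hn.2.1 hn.2.2.1 hq⟩

theorem lim : Tendsto (fun Y : ℕ => (Cc Cl Qc Y : ℝ) / (Cc Cl (fun _ => True) Y : ℝ)) atTop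
    (𝓝 η) := by
  classical
  have h := Pool.Agent.Run7.h843.G.dens_Qc 168 (by norm_num) (by norm_num) Cl
    (fun n => by
      show (n % 84 = 19 ∨ n % 84 = 31 ∨ n % 84 = 55) ↔
        (n % 168 % 84 = 19 ∨ n % 168 % 84 = 31 ∨ n % 168 % 84 = 55)
      omega) (fun n h => by
      have h' : n % 84 = 19 ∨ n % 84 = 31 ∨ n % 84 = 55 := h
      omega) 19 (Or.inl rfl) (by norm_num)
  refine h.congr fun Y => ?_
  unfold Cc
  simp only [and_true]

theorem ep84 : Pool.Agent.N873.F15.Dn.ep 84 = 32 / 49 := by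
  unfold Pool.Agent.N873.F15.Dn.ep
  have : (84 : ℕ).primeFactors = {2, 3, 7} := by
    have e : (84 : ℕ) = 2 ^ 2 * (3 * 7) := by norm_num
    rw [e, Nat.primeFactors_mul (by norm_num) (by norm_num), Nat.primeFactors_mul (by norm_num)
      (by norm_num), Nat.primeFactors_prime_pow (by norm_num) Nat.prime_two,
      Nat.Prime.primeFactors Nat.prime_three, Nat.Prime.primeFactors (by norm_num)]
    rfl
  rw [this, prod_insert (by decide), prod_insert (by decide), prod_singleton]
  norm_num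

/-! ### multipliers -/

theorem k3 {t G : ℕ} (h : t * G ^ 2 % 3 = 1) : t % 3 = 1 := by
  have h1 : t % 3 = 0 ∨ t % 3 = 1 ∨ t % 3 = 2 := by omega
  have h2 : G % 3 = 0 ∨ G % 3 = 1 ∨ G % 3 = 2 := by omega
  rw [Nat.mul_mod, Nat.pow_mod] at h
  rcases h1 with h1 | h1 | h1 <;> rcases h2 with h2 | h2 | h2 <;> rw [h1, h2] at h <;>
    first
    | exact h1
    | (norm_num at h)

theorem k4 {t G : ℕ} (h : t * G ^ 2 % 4 = 3) : t % 4 = 3 := by
  have h1 : t % 4 = 0 ∨ t % 4 = 1 ∨ t % 4 = 2 ∨ t % 4 = 3 := by omega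
  have h2 : G % 4 = 0 ∨ G % 4 = 1 ∨ G % 4 = 2 ∨ G % 4 = 3 := by omega
  rw [Nat.mul_mod, Nat.pow_mod] at h
  rcases h1 with h1 | h1 | h1 | h1 <;> rcases h2 with h2 | h2 | h2 | h2 <;> rw [h1, h2] at h <;>
    first
    | exact h1
    | (norm_num at h)

theorem k7 {t G : ℕ} (h : t * G ^ 2 % 7 = 3 ∨ t * G ^ 2 % 7 = 5 ∨ t * G ^ 2 % 7 = 6) :
    t % 7 = 3 ∨ t % 7 = 5 ∨ t % 7 = 6 := by
  have h1 : t % 7 = 0 ∨ t % 7 = 1 ∨ t % 7 = 2 ∨ t % 7 = 3 ∨ t % 7 = 4 ∨ t % 7 = 5 ∨ t % 7 = 6 := by
    omega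
  have h2 : G % 7 = 0 ∨ G % 7 = 1 ∨ G % 7 = 2 ∨ G % 7 = 3 ∨ G % 7 = 4 ∨ G % 7 = 5 ∨ G % 7 = 6 := by
    omega
  rw [Nat.mul_mod, Nat.pow_mod] at h
  rcases h1 with h1 | h1 | h1 | h1 | h1 | h1 | h1
  · rw [h1] at h
    norm_num at h
  · rcases h2 with h2 | h2 | h2 | h2 | h2 | h2 | h2 <;> rw [h1, h2] at h <;> norm_num at h
  · rcases h2 with h2 | h2 | h2 | h2 | h2 | h2 | h2 <;> rw [h1, h2] at h <;> norm_num at h
  · exact Or.inl h1
  · rcases h2 with h2 | h2 | h2 | h2 | h2 | h2 | h2 <;> rw [h1, h2] at h <;> norm_num at h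
  · exact Or.inr (Or.inl h1)
  · exact Or.inr (Or.inr h1)

theorem sqf_class {a n : ℕ} (ha : Mult a) (hn : Class n) : Class (sqf a n) := by
  have hs := Pool.Agent.Run7.h424.J.tw_spec ha.1 hn.1
  have e : Pool.Agent.Run7.h238.J.tw a n = sqf a n := rfl
  rw [e] at hs
  obtain ⟨h1, -, h3⟩ := hs
  have a2 := ha.2
  have n2 := hn.2
  have m3 : sqf a n * Nat.gcd a n ^ 2 % 3 = 1 := by
    rw [h3, Nat.mul_mod, show a % 3 = 1 by omega, show n % 3 = 1 by omega]
  have m4 : sqf a n * Nat.gcd a n ^ 2 % 4 = 3 := by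
    rw [h3, Nat.mul_mod, show a % 4 = 1 by omega, show n % 4 = 3 by omega]
  have m7 : sqf a n * Nat.gcd a n ^ 2 % 7 = 3 ∨ sqf a n * Nat.gcd a n ^ 2 % 7 = 5 ∨
      sqf a n * Nat.gcd a n ^ 2 % 7 = 6 := by
    rw [h3, Nat.mul_mod]
    have ha7 : a % 7 = 1 ∨ a % 7 = 4 ∨ a % 7 = 2 := by omega
    have hn7 : n % 7 = 5 ∨ n % 7 = 3 ∨ n % 7 = 6 := by omega
    rcases ha7 with h | h | h <;> rcases hn7 with h' | h' | h' <;> rw [h, h'] <;> norm_num
  have r3 := k3 m3
  have r4 := k4 m4
  have r7 := k7 m7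
  refine ⟨h1, ?_⟩
  omega

/-- **the joint law**, for a periodic condition -/
theorem law {S T : Finset ℕ} (hS : ∀ a ∈ S, Mult a) (hT : T ⊆ S) {M : ℕ} (h8 : 8 ∣ M)
    (hM0 : 0 < M) {P : ℕ → Prop} (hP : ∀ n, P n ↔ P (n % M)) (hcl : ∀ n, P n → Cl n) {b : ℕ}
    (hb : P b) (hc : b.Coprime M) :
    Tendsto (fun X : ℕ => (numP P (fun n => ∀ a ∈ S, (TrivialTwo (sqf a n) ↔ a ∈ T)) X : ℝ) /
      (numP P (fun _ => True) X : ℝ)) atTop (𝓝 (η ^ T.card * (1 - η) ^ (S.card - T.card))) := by
  classical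
  have hu : T ∪ S \ T = S := Finset.union_sdiff_of_subset hT
  have h := Pool.Agent.Run7.h238.J.dens_pat
    (fun N => Pool.Agent.Run7.h289.J.t_JDQ (fun _ : Fin N => 0)) T (S \ T) Finset.disjoint_sdiff
    (fun a ha => (hS a (by rwa [hu] at ha)).1)
    (fun a ha => by
      have := (hS a (by rwa [hu] at ha)).2
      omega) M h8 hM0 P hP
    (fun n hn => by
      have h' : n % 84 = 19 ∨ n % 84 = 31 ∨ n % 84 = 55 := hcl n hn
      omega) b hb hc
  rw [Finset.card_sdiff_of_subset hT] at h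
  have eη : Pool.Agent.N916.GB.eta = η := rfl
  rw [eη] at h
  refine h.congr fun X => ?_
  rw [numP_eq hcl, numP_eq hcl]
  congr 2
  · congr 1
    refine Finset.filter_congr fun n _ => and_congr_right fun hn => and_congr_right fun hPn => ?_
    have key : ∀ a ∈ S, (TrivialTwo (sqf a n) ↔ Qc (Pool.Agent.Run7.h238.J.tw a n)) := fun a ha =>
      triv_iff (sqf_class (hS a ha) ⟨hn, hcl n hPn⟩)
    constructor
    · rintro ⟨h1, h2⟩ a ha
      rw [key a ha]
      constructor
      · intro hq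
        by_contra hT'
        exact h2 a (Finset.mem_sdiff.2 ⟨ha, hT'⟩) hq
      · intro haT
        exact h1 a haT
    · intro h1
      refine ⟨fun a ha => (key a (hT ha)).1 ((h1 a (hT ha)).2 ha), fun a ha hq => ?_⟩
      rw [Finset.mem_sdiff] at ha
      exact ha.2 ((h1 a ha.1).1 ((key a ha.1).2 hq))
  · congr 1
    refine Finset.filter_congr fun n _ => ?_
    simp only [and_true]

theorem hPCl (n : ℕ) : Cl n ↔ Cl (n % 168) := by
  show (n % 84 = 19 ∨ n % 84 = 31 ∨ n % 84 = 55) ↔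
    (n % 168 % 84 = 19 ∨ n % 168 % 84 = 31 ∨ n % 168 % 84 = 55)
  omega

theorem law' {S T : Finset ℕ} (hS : ∀ a ∈ S, Mult a) (hT : T ⊆ S) :
    Tendsto (fun X : ℕ => (num (fun n => ∀ a ∈ S, (TrivialTwo (sqf a n) ↔ a ∈ T)) X : ℝ) /
      (num (fun _ => True) X : ℝ)) atTop (𝓝 (η ^ T.card * (1 - η) ^ (S.card - T.card))) := by
  have h := law hS hT (M := 168) (by norm_num) (by norm_num) hPCl (fun n h => h) (b := 19)
    (Or.inl rfl) (by norm_num)
  refine h.congr fun X => ?_
  rw [num_numP, num_numP]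

open Classical in
theorem numA_eq {Q Q' : ℕ → Prop} (h : ∀ n, Class n → (Q n ↔ Q' n)) (X : ℕ) :
    num Q X = ((Finset.Icc 1 X).filter fun n => Squarefree n ∧
      (n % 84 = 19 ∨ n % 84 = 31 ∨ n % 84 = 55) ∧ Q' n).card := by
  unfold num
  refine Nat.subtype_card _ fun n => ?_
  rw [Finset.mem_filter, Finset.mem_Icc]
  constructor
  · rintro ⟨⟨-, h2⟩, h3, h4, h5⟩
    have hc : Class n := ⟨h3, h4⟩
    exact ⟨h2, hc, (h n hc).2 h5⟩
  · rintro ⟨h2, hc, h5⟩
    exact ⟨⟨Nat.one_le_iff_ne_zero.2 hc.1.ne_zero, h2⟩, hc.1, hc.2, (h n hc).1 h5⟩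

open Pool.Agent.N873.F15.Dn (sf ep sf_dens)

theorem ep84b : ep 84 = 32 / 49 := by
  unfold ep
  have : (84 : ℕ).primeFactors = {2, 3, 7} := by
    have e : (84 : ℕ) = 2 ^ 2 * (3 * 7) := by norm_num
    rw [e, Nat.primeFactors_mul (by norm_num) (by norm_num), Nat.primeFactors_mul (by norm_num)
      (by norm_num), Nat.primeFactors_prime_pow (by norm_num) Nat.prime_two,
      Nat.Prime.primeFactors Nat.prime_three, Nat.Prime.primeFactors (by norm_num)]
    rfl
  rw [this, Finset.prod_insert (by decide), Finset.prod_insert (by decide), Finset.prod_singleton]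
  norm_num

open Classical in
theorem all_eq (X : ℕ) : num (fun _ => True) X = sf 84 19 X + sf 84 31 X + sf 84 55 X := by
  rw [numA_eq (Q := fun _ => True) (Q' := fun _ => True) (fun _ _ => Iff.rfl) X]
  unfold sf
  rw [← Finset.card_union_of_disjoint, ← Finset.card_union_of_disjoint]
  · congr 1
    ext n
    simp only [Finset.mem_filter, Finset.mem_union, Finset.mem_Icc, and_true]
    tauto
  · rw [Finset.disjoint_left]
    intro n h1 h2
    simp only [Finset.mem_filter, Finset.mem_union] at h1 h2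
    omega
  · rw [Finset.disjoint_left]
    intro n h1 h2
    simp only [Finset.mem_filter] at h1 h2
    omega

theorem lim_all : Tendsto (fun X : ℕ => (num (fun _ => True) X : ℝ) / X) atTop
    (𝓝 (21 / (64 * Real.pi ^ 2))) := by
  have h1 := sf_dens (N := 84) (r := 19) (by norm_num) (by norm_num) (by norm_num)
  have h2 := sf_dens (N := 84) (r := 31) (by norm_num) (by norm_num) (by norm_num)
  have h3 := sf_dens (N := 84) (r := 55) (by norm_num) (by norm_num) (by norm_num)
  have h4 := (h1.add h2).add h3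
  have e : (6 / Real.pi ^ 2 / ep 84 / (84 : ℕ) + 6 / Real.pi ^ 2 / ep 84 / (84 : ℕ) +
      6 / Real.pi ^ 2 / ep 84 / (84 : ℕ) : ℝ) = 21 / (64 * Real.pi ^ 2) := by
    rw [ep84b]
    have : Real.pi ≠ 0 := Real.pi_ne_zero
    push_cast
    field_simp
    norm_num
  rw [e] at h4
  refine h4.congr fun X => ?_
  rw [all_eq]
  push_cast
  ring

end count

/-- **The 2-part of the conjecture for the twists of `X_0(21)`: exact densities and independence.** -/
theorem result :
    (∀ n : ℕ, Class n →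
      (∃ φ : VariableChange ℚ, E n = φ • (⟨0, 2 * n, 0, -(63 * (n : ℚ) ^ 2), 0⟩ : WeierstrassCurve ℚ)) ∧
      (∀ w : HeightOneSpectrum (𝓞 ℚ), MinimalAt (E n) w) ∧
      torsOrder (E n) = 4 ∧
      Tam (E n) = 4 ^ (n.primeFactors.card + 1) ∧
      (∃ F : ℂ → ℂ, IsLFun n F ∧
        ∃ y : ℤ, F 1 = ((y : ℂ) ^ 2 * (Tam (E n) : ℂ) / (torsOrder (E n) : ℂ) ^ 2) *
          ((Omega (C n) : ℝ) : ℂ) ∧ (Odd y ↔ Criterion n)) ∧
      ((Finite (E n).toAffine.Point ∧ ∀ x : Sha (E n), x + x = 0 → x = 0) ↔ Criterion n) ∧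
      (TrivialTwo n ↔ Criterion n)) ∧
    (∀ p : ℕ, p.Prime → p % 84 = 19 ∨ p % 84 = 31 ∨ p % 84 = 55 → PartAtTwo p) ∧
    0.2887 < η ∧ η < 0.2889 ∧
    Tendsto (fun X : ℕ => (num (fun _ => True) X : ℝ) / X) atTop (𝓝 (21 / (64 * Real.pi ^ 2))) ∧
    (∀ S : Finset ℕ, (∀ a ∈ S, Mult a) →
      (∀ a ∈ S, ∀ n : ℕ, Class n → Class (sqf a n) ∧
        sqf a n * Nat.gcd a n ^ 2 = a * n) ∧
      (∀ T ⊆ S, Tendsto (fun X : ℕ =>
        (num (fun n => ∀ a ∈ S, (TrivialTwo (sqf a n) ↔ a ∈ T)) X : ℝ) /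
          (num (fun _ => True) X : ℝ)) atTop (𝓝 (η ^ T.card * (1 - η) ^ (S.card - T.card)))) ∧
      (∀ T ⊆ S, ∀ m b : ℕ, 0 < m → 84 ∣ m → b.Coprime m → b % 84 = 19 ∨ b % 84 = 31 ∨ b % 84 = 55 →
        Tendsto (fun X : ℕ =>
          (num (fun n => n % m = b % m ∧ ∀ a ∈ S, (TrivialTwo (sqf a n) ↔ a ∈ T)) X : ℝ) /
            (num (fun n => n % m = b % m) X : ℝ)) atTop
            (𝓝 (η ^ T.card * (1 - η) ^ (S.card - T.card)))) ∧
      (∀ᶠ X : ℕ in atTop, 0.2887 ^ S.card * (num (fun _ => True) X : ℝ) ≤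
        (num (fun n => ∀ a ∈ S, PartAtTwo (sqf a n)) X : ℝ)) ∧
      (∀ᶠ X : ℕ in atTop, (1 - 0.7113 ^ S.card) * (num (fun _ => True) X : ℝ) ≤
        (num (fun n => ∃ a ∈ S, PartAtTwo (sqf a n)) X : ℝ))) := by
  classical
  have hη1 : 0.2887 < η := Pool.Agent.N916.GB.eta_bounds.1
  have hη2 : η < 0.2889 := Pool.Agent.N916.GB.eta_bounds.2
  have hpos : ∀ᶠ X : ℕ in atTop, (0 : ℝ) < (num (fun _ => True) X : ℝ) := by
    have h1 := lim.eventually (lt_mem_nhds hη1)
    filter_upwards [h1] with X hX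
    rcases Nat.eq_zero_or_pos (Cc Cl (fun _ => True) X) with h | h
    · rw [h] at hX
      norm_num at hX
    · rw [num_eq]
      exact_mod_cast h
  refine ⟨?_, ?_, hη1, hη2, lim_all, ?_⟩
  · intro n hn
    refine ⟨?_, ?_, htor hn, ?_, value hn, ?_, triv_crit hn⟩
    · rw [E_eq hn]
      obtain ⟨u0, e1, e2, e3, e4, e6⟩ := Run7.h89.P21.vr (k := ℚ) hn.mod
      refine ⟨⟨Units.mk0 2 two_ne_zero, -n, 1, 0⟩, ?_⟩
      apply WeierstrassCurve.ext
      · rw [variableChange_a₁]
        simp only [Units.val_inv_eq_inv_val, Units.val_mk0]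
        linear_combination (1 / 2 : ℚ) * e1
      · rw [variableChange_a₂]
        simp only [Units.val_inv_eq_inv_val, Units.val_mk0]
        linear_combination (1 / 4 : ℚ) * e2
      · rw [variableChange_a₃]
        simp only [Units.val_inv_eq_inv_val, Units.val_mk0]
        linear_combination (1 / 8 : ℚ) * e3
      · rw [variableChange_a₄]
        simp only [Units.val_inv_eq_inv_val, Units.val_mk0]
        linear_combination (1 / 16 : ℚ) * e4
      · rw [variableChange_a₆]
        simp only [Units.val_inv_eq_inv_val, Units.val_mk0]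
        linear_combination (1 / 64 : ℚ) * e6
    · rw [E_eq hn]
      exact fun w => Run7.h89.P21.minimal n hn w
    · rw [htam hn, pow_succ']
    · constructor
      · intro h
        exact (desc hn).1 ⟨h.1, sha_all h.2⟩
      · intro h
        have h1 := (desc hn).2 h
        exact ⟨h1.1, fun x hx => h1.2 1 x (by rw [pow_one, two_nsmul]; exact hx)⟩
  · intro p hp h84
    exact part ⟨hp.prime.squarefree, h84⟩ (prime_crit hp)
  · intro S hS
    refine ⟨fun a ha n hn => ⟨sqf_class (hS a ha) hn,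
      (Pool.Agent.Run7.h424.J.tw_spec (hS a ha).1 hn.1).2.2⟩, fun T hT => law' hS hT, ?_, ?_, ?_⟩
    · intro T hT m b hm h84 hbm hb
      have h := law hS hT (M := 2 * m) (P := fun n => n % m = b % m) (b := b)
        (by obtain ⟨k, rfl⟩ := h84; exact ⟨21 * k, by ring⟩) (by omega)
        (fun n => by
          show n % m = b % m ↔ n % (2 * m) % m = b % m
          rw [Nat.mod_mul_left_mod])
        (fun n hn => by
          have h1 : n % m = b % m := hn
          have h2 : n % 84 = b % 84 := by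
            rw [← Nat.mod_mod_of_dvd n h84, h1, Nat.mod_mod_of_dvd b h84]
          show n % 84 = 19 ∨ n % 84 = 31 ∨ n % 84 = 55
          rw [h2]
          exact hb) rfl
        (by
          rw [Nat.coprime_mul_iff_right]
          refine ⟨?_, hbm⟩
          rw [Nat.coprime_two_right]
          rw [Nat.odd_iff]
          omega)
      refine h.congr fun X => ?_
      have hcl : ∀ n, n % m = b % m → (n % 84 = 19 ∨ n % 84 = 31 ∨ n % 84 = 55) := by
        intro n h1
        have h2 : n % 84 = b % 84 := by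
          rw [← Nat.mod_mod_of_dvd n h84, h1, Nat.mod_mod_of_dvd b h84]
        rw [h2]
        exact hb
      congr 2
      · unfold numP num
        refine Nat.card_congr (Equiv.subtypeEquivRight fun n => ?_)
        constructor
        · rintro ⟨h1, h2, h3, h4⟩
          exact ⟨h1, ⟨h2, hcl n h3⟩, h3, h4⟩
        · rintro ⟨h1, h2, h3, h4⟩
          exact ⟨h1, h2.1, h3, h4⟩
      · unfold numP num
        refine Nat.card_congr (Equiv.subtypeEquivRight fun n => ?_)
        constructor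
        · rintro ⟨h1, h2, h3, _⟩
          exact ⟨h1, ⟨h2, hcl n h3⟩, h3⟩
        · rintro ⟨h1, h2, h3⟩
          exact ⟨h1, h2.1, h3, trivial⟩
    · rcases S.eq_empty_or_nonempty with rfl | hne
      · refine Filter.Eventually.of_forall fun X => ?_
        rw [Finset.card_empty, pow_zero, one_mul, num_numP, num_numP]
        refine Nat.cast_le.2 (numP_mono (fun n h => h) (fun n _ _ _ a ha => ?_) X)
        exact absurd ha (by simp)
      · have h1 := law' hS (Finset.Subset.refl S)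
        rw [Nat.sub_self, pow_zero, mul_one] at h1
        have hc : 0 < S.card := hne.card_pos
        have hlt : (0.2887 : ℝ) ^ S.card < η ^ S.card :=
          pow_lt_pow_left₀ hη1 (by norm_num) hc.ne'
        filter_upwards [h1.eventually (lt_mem_nhds hlt), hpos] with X hX h3
        have h4 := (lt_div_iff₀ h3).1 hX
        have h2 : (num (fun n => ∀ a ∈ S, (TrivialTwo (sqf a n) ↔ a ∈ S)) X : ℝ) ≤
            (num (fun n => ∀ a ∈ S, PartAtTwo (sqf a n)) X : ℝ) := by
          rw [num_numP, num_numP]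
          refine Nat.cast_le.2 (numP_mono (fun n h => h) (fun n h5 h6 h7 a ha => ?_) X)
          exact ((h7 a ha).2 ha).1
        linarith
    · rcases S.eq_empty_or_nonempty with rfl | hne
      · refine Filter.Eventually.of_forall fun X => ?_
        rw [Finset.card_empty, pow_zero, sub_self, zero_mul]
        exact Nat.cast_nonneg _
      · have h1 := law' hS (Finset.empty_subset S)
        rw [Finset.card_empty, pow_zero, one_mul, Nat.sub_zero] at h1
        have hc : 0 < S.card := hne.card_pos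
        have hlt : (1 - η) ^ S.card < (0.7113 : ℝ) ^ S.card :=
          pow_lt_pow_left₀ (by linarith) (by linarith) hc.ne'
        filter_upwards [h1.eventually (gt_mem_nhds hlt), hpos] with X hX h3
        have h4 := (div_lt_iff₀ h3).1 hX
        have h2 : (num (fun _ => True) X : ℝ) ≤
            (num (fun n => ∀ a ∈ S, (TrivialTwo (sqf a n) ↔ a ∈ (∅ : Finset ℕ))) X : ℝ) +
            (num (fun n => ∃ a ∈ S, PartAtTwo (sqf a n)) X : ℝ) := by
          rw [num_numP, num_numP, num_numP, ← Nat.cast_add]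
          refine Nat.cast_le.2 (numP_not (fun n h => h) (fun n h5 h6 h7 => ?_) X)
          push Not at h7
          obtain ⟨a, ha, h8⟩ := h7
          refine ⟨a, ha, ?_⟩
          rcases h8 with h8 | h8
          · exact h8.1.1
          · exact absurd h8.2 (by simp)
        linarith

end Pool.Agent.Results.MP_f50388_nt.TwistsX21JointTwoPart
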