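import Pool.Agent.Run7.h946.OU.Core
import Pool.Agent.R425.T.Tow
import Pool.Agent.Y18.LP.Main

/-!
# Ranks and `p`-primary Tate-Shafarevich groups for odd `p`: infinite towers in every infinite group and
# a uniform positive proportion of the abelian `p`-extensions in every group

`p` is an odd prime; `E_1, …, E_m` are elliptic curves over `ℚ`, given with their newforms, with
trivial `p`-Selmer group over `ℚ` and with `L(E_i, 1) ≠ 0`.  Nothing is assumed on the reduction at
`p`, on the Galois modules `E_i[p]`, on the Tamagawa numbers or on the `p`-adic valuation of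
`L(E_i, 1) / Ω`.  A prime `q` is admissible if `q ∤ 6Δ_i` and the number of the points of `E_i` over
`ℤ/q` is prime to `p` for all `i`.

Theorem: (1) Let `n` and `r` be given.  There is a number `V` such that for every group `H`, finite or
infinite and as sparse as one likes, of Dirichlet characters of order dividing `p ^ n` and of squarefree
conductors composed of admissible primes, the following holds for a proportion at least `2 ^ (-V)` of
the `r`-tuples `(χ_1, …, χ_r)` in `H`: for all number fields `F` contained in the abelian extension of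
`ℚ` attached to the group generated by `χ_1, …, χ_r` and all `i` the Hasse-Weil `L`-function
`L(E_i/F, s)` is entire, its order of vanishing at `s = 1` is the rank of `E_i(F)`, both are `0`,
`Ш(E_i/F)[p^∞] = 0`, and the order of `E_i(F)` is prime to `p`.  (2) If `H` is infinite, it has an
infinite subgroup `H'` such that this holds for all number fields contained in the infinite abelian
extension of `ℚ` attached to `H'`.

The proof.  The characters in `H` with `χ(q) = 1` for the primes `q` that divide `6 p Δ_i` for some `i`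
form a subgroup `H_1` of index at most `p ^ (n s)`, `s` the number of these primes.  The analytic part
(`Y18/LP`) gives a set `K` of at most `2 ^ {V_0}` tuples in `H_1` such that every tuple in `H_1` can be
multiplied by an element of `K` so that `L(E_i/F, 1) ≠ 0` for the fields `F` of the product, and an
infinite subgroup with this property if `H` is infinite.  On the algebraic side, every such `F` is a
Galois extension of `ℚ` of degree `p ^ j` with commutative Galois group which is ramified at admissible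
primes only and in which the primes that divide `6 p Δ_i` split completely, and the descent of
`Run7/h16/OP` (there for the subfields of a cyclotomic field) gives `Sel_p(E_i/F) = 0`.
-/

set_option autoImplicit false

open Complex UpperHalfPlane MatrixGroups CongruenceSubgroup NumberField IsDedekindDomain

namespace Pool.Agent.Results.MP_f50388_nt.UniformProportionOddPrimes

/-- `N_p`: the number of pairs `(x, y) ∈ (ℤ/p)²` with `y² = x³ + a x + b`. -/
noncomputable def pointCount (a b : ℤ) (p : ℕ) : ℕ :=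
  Nat.card {q : ZMod p × ZMod p // q.2 ^ 2 = q.1 ^ 3 + (a : ZMod p) * q.1 + (b : ZMod p)}

/-- `p` is a prime not dividing `2 Δ`, `Δ = -4 a³ - 27 b²`. -/
def GoodPrime (a b : ℤ) (p : ℕ) : Prop :=
  p.Prime ∧ ¬ ((p : ℤ) ∣ 2 * (-4 * a ^ 3 - 27 * b ^ 2))

open Classical in
/-- `L(E, 1) ≠ 0` for `E : y² = x³ + a x + b`: there is an entire function `F` which for
`Re s > 3/2` is the incomplete L-series `∏_{p ∤ 2Δ} (1 - a_p p^{-s} + p^{1-2s})⁻¹`, `a_p = p - N_p`,
of `E` over `ℚ`, and `F(1) ≠ 0`. -/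
def AnalyticRankZero (a b : ℤ) : Prop :=
  ∃ F : ℂ → ℂ, (Differentiable ℂ F ∧ ∀ s : ℂ, (3 : ℝ) / 2 < s.re →
    HasProd (fun p : ℕ => if GoodPrime a b p then
      (1 - ((p : ℂ) - (pointCount a b p : ℂ)) * (p : ℂ) ^ (-s) + (p : ℂ) ^ (1 - 2 * s))⁻¹ else 1)
      (F s)) ∧ F 1 ≠ 0

/-- `q` is a prime, `q ∤ 2 Δ`, and the number `N_q + 1` of the points of `E : y² = x³ + a x + b` over
`ℤ/q` (with the point at infinity) is not divisible by `p`. -/
def Admissible (p : ℕ) (a b : ℤ) (q : ℕ) : Prop := GoodPrime a b q ∧ ¬ p ∣ pointCount a b q + 1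

/-- The families `c = (c_q)` of characters `c_q` of the groups `(ℤ/q)ˣ`.  The family with `c_q = 1`
except for the primes `q` of a finite set stands for the Dirichlet character `χ_c = ∏ c_q` of
squarefree conductor; this is an isomorphism of groups. -/
abbrev Fam : Type := (q : ℕ) → (ZMod q)ˣ →* ℂˣ

open Classical in
/-- The set of the `q` with `c_q ≠ 1` (if it is finite). -/
noncomputable def supp (c : Fam) : Finset ℕ :=
  if h : {q | c q ≠ 1}.Finite then h.toFinset else ∅

/-- The conductor of `χ_c`. -/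
noncomputable def conductor (c : Fam) : ℕ := ∏ q ∈ supp c, q

/-- The value `χ_c(m)`. -/
noncomputable def value (c : Fam) (m : ℕ) : ℂ :=
  ∏ q ∈ supp c, if h : m.Coprime q then (c q (ZMod.unitOfCoprime m h) : ℂ) else 0

open Classical in
/-- The Gaussian period `∑ exp(2 π i u / M)`, `0 ≤ u < M`, `χ_c(u) = 1`, where `M` is the conductor of
`χ_c`.  It generates the cyclic extension of `ℚ` attached to `χ_c` (the subfield of `ℚ(exp(2 π i / M))`
fixed by the kernel of `χ_c`; recall that `M` is squarefree). -/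
noncomputable def period (c : Fam) : ℂ :=
  ∑ u ∈ (Finset.range (conductor c)).filter (fun u => value c u = 1),
    Complex.exp (2 * Real.pi * Complex.I / (conductor c : ℕ)) ^ u

/-- `H` is a group of Dirichlet characters of order dividing `p ^ n` and of squarefree conductors
composed of primes admissible for all the curves. -/
structure IsCharGroup (p : ℕ) {m : ℕ} (a b : Fin m → ℤ) (n : ℕ) (H : Subgroup Fam) : Prop where
  pow : ∀ c ∈ H, c ^ (p ^ n) = 1
  finite : ∀ c ∈ H, {q | c q ≠ 1}.Finite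
  admissible : ∀ c ∈ H, ∀ q, c q ≠ 1 → q.Prime ∧ ∀ i, Admissible p (a i) (b i) q

/-- The `n`-th Fourier coefficient of `f`. -/
noncomputable def coef {N : ℕ} (f : CuspForm (Gamma0 N : Subgroup (GL (Fin 2) ℝ)) 2) (n : ℕ) : ℂ :=
  (qExpansion 1 f).coeff n

/-- `f ∈ S_2(Γ₀(N))` is the newform of the elliptic curve `E : y² = x³ + a x + b`, with its standard
properties: the Fourier coefficients `c(n)` of `f` are real with `c(1) = 1`, they satisfy the Hecke
relations `c(mn) = c(m) c(n)` for coprime `m`, `n` and `c(p^(j+2)) = c(p) c(p^(j+1)) - p c(p^j)`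
(without the last term if `p ∣ N`) and the bounds `|c(p)| ≤ 2√p` for `p ∤ N`, `|c(p)| ≤ 1` for
`p ∣ N`; `f` is an eigenfunction of the Fricke involution: `f(-1/(Nτ)) = -w N τ² f(τ)` with `w = ±1`;
for all primes `p ∤ 2Δ` one has `p ∤ N` and `c(p) = a_p(E)`.  (Every elliptic curve over `ℚ` has such a
form by the modularity theorem.) -/
structure IsFormOf (a b : ℤ) (N : ℕ) (f : CuspForm (Gamma0 N : Subgroup (GL (Fin 2) ℝ)) 2) :
    Prop where
  one : coef f 1 = 1
  real : ∀ n, (coef f n).im = 0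
  mul : ∀ m n : ℕ, Nat.Coprime m n → coef f (m * n) = coef f m * coef f n
  pow : ∀ p j : ℕ, p.Prime → coef f (p ^ (j + 2)) = coef f p * coef f (p ^ (j + 1)) -
      (if p ∣ N then 0 else (p : ℂ) * coef f (p ^ j))
  good : ∀ p : ℕ, p.Prime → ¬ p ∣ N → ‖coef f p‖ ≤ 2 * Real.sqrt p
  bad : ∀ p : ℕ, p.Prime → p ∣ N → ‖coef f p‖ ≤ 1
  fricke : ∃ w : ℝ, (w = 1 ∨ w = -1) ∧ ∀ τ τ' : ℍ, (τ' : ℂ) * ((N : ℂ) * (τ : ℂ)) = -1 →
    f τ' = -(w : ℂ) * (N : ℂ) * (τ : ℂ) ^ 2 * f τ
  points : ∀ p : ℕ, GoodPrime a b p → ¬ p ∣ N ∧ coef f p = (p : ℂ) - (pointCount a b p : ℂ)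

/-- `pw t u n = α ^ n + β ^ n`, where `α`, `β` are the roots of `X² - t X + u`. -/
noncomputable def pw (t u : ℂ) : ℕ → ℂ
  | 0 => 2
  | 1 => t
  | n + 2 => t * pw t u (n + 1) - u * pw t u n

section
variable {F : Type} [Field F] [NumberField F]

/-- The number `a_v` of `E : y² = x³ + a x + b` at a finite place `v` of `F`: `Nv` minus the number of
affine solutions `(x, y)` of the equation over the residue field `𝓞 F / v`. -/
noncomputable def av (a b : ℤ) (v : HeightOneSpectrum (𝓞 F)) : ℤ :=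
  ((Ideal.absNorm v.asIdeal : ℕ) : ℤ) -
    ((Nat.card {x : (𝓞 F ⧸ v.asIdeal) × (𝓞 F ⧸ v.asIdeal) //
      x.2 ^ 2 = x.1 ^ 3 + (a : 𝓞 F ⧸ v.asIdeal) * x.1 + (b : 𝓞 F ⧸ v.asIdeal)} : ℕ) : ℤ)

open Classical in
/-- The Euler factor of `L(E/F, s)` at the finite place `v` of `F`.  If `v ∤ 2 Δ`, it is
`(1 - a_v (Nv)^(-s) + (Nv)^(1-2s))⁻¹`.  If `v ∣ 2 Δ` and `Nv = p ^ d` with `p` prime, it is
`(1 - (α^d + β^d) (Nv)^(-s) + (Nv)^(1-2s))⁻¹` for `p ∤ N`, where `α`, `β` are the roots of
`X² - c(p) X + p`, and `(1 - c(p)^d (Nv)^(-s))⁻¹` for `p ∣ N`.  (The primes `p ∣ 2 Δ` will be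
unramified in `F`, so that this is the Hasse-Weil factor.) -/
noncomputable def factor (a b : ℤ) {N : ℕ} (f : CuspForm (Gamma0 N : Subgroup (GL (Fin 2) ℝ)) 2)
    (s : ℂ) (v : HeightOneSpectrum (𝓞 F)) : ℂ :=
  if ((2 * (4 * a ^ 3 + 27 * b ^ 2) : ℤ) : 𝓞 F) ∈ v.asIdeal then
    (1 - pw (coef f (Ideal.absNorm v.asIdeal).minFac)
          (if (Ideal.absNorm v.asIdeal).minFac ∣ N then 0 else ((Ideal.absNorm v.asIdeal).minFac : ℂ))
          ((Ideal.absNorm v.asIdeal).factorization (Ideal.absNorm v.asIdeal).minFac)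
          * ((Ideal.absNorm v.asIdeal : ℕ) : ℂ) ^ (-s)
      + (if (Ideal.absNorm v.asIdeal).minFac ∣ N then (0 : ℂ) else
          ((Ideal.absNorm v.asIdeal : ℕ) : ℂ) ^ (1 - 2 * s)))⁻¹
  else
    (1 - ((av a b v : ℤ) : ℂ) * ((Ideal.absNorm v.asIdeal : ℕ) : ℂ) ^ (-s)
      + ((Ideal.absNorm v.asIdeal : ℕ) : ℂ) ^ (1 - 2 * s))⁻¹

end

/-- The group `E(F)` for `E : y² = x³ + a x + b`. -/
abbrev Points (F : Type) [Field F] (a b : ℤ) : Type :=
  (({ a₁ := 0, a₂ := 0, a₃ := 0, a₄ := (a : F), a₆ := (b : F) } : WeierstrassCurve F).toAffine).Point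

open Classical in
/-- The rank conjecture holds for `E : y² = x³ + a x + b` (with newform `f`) over the number field
`F ⊂ ℂ`, and both sides are `0`: there is an entire function `G` which for `Re s > 3/2` is the
Euler product of `E` over all finite places of `F`, the order of vanishing of `G` at `s = 1` is the
rank of `E(F)`, and the rank is `0`. -/
def BSDRankZeroOver (F : IntermediateField ℚ ℂ) [NumberField F] (a b : ℤ) {N : ℕ}
    (f : CuspForm (Gamma0 N : Subgroup (GL (Fin 2) ℝ)) 2) : Prop :=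
  ∃ G : ℂ → ℂ, Differentiable ℂ G ∧
    (∀ s : ℂ, 3 / 2 < s.re → HasProd (fun v : HeightOneSpectrum (𝓞 F) => factor a b f s v) (G s)) ∧
    analyticOrderAt G 1 = ((Module.finrank ℤ (Points F a b) : ℕ) : ℕ∞) ∧
    Module.finrank ℤ (Points F a b) = 0

/-- The abelian extension of `ℚ` in `ℂ` attached to the group generated by `χ_1, …, χ_r`. -/
noncomputable def fieldOf {r : ℕ} (c : Fin r → Fam) : IntermediateField ℚ ℂ :=
  IntermediateField.adjoin ℚ {x : ℂ | ∃ J : Fin r → ℕ, x = period (∏ j, c j ^ J j)}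

/-- The abelian extension of `ℚ` in `ℂ` (of infinite degree if `H` is infinite) attached to the group
`H`. -/
noncomputable def groupField (H : Subgroup Fam) : IntermediateField ℚ ℂ :=
  IntermediateField.adjoin ℚ {x : ℂ | ∃ c ∈ H, x = period c}

/-- The set of the `r`-tuples of elements of `H`. -/
def Tuples (H : Subgroup Fam) (r : ℕ) : Set (Fin r → Fam) := {c | ∀ j, c j ∈ H}

/-- The property `P` holds for a proportion at least `2 ^ (-V)` of the `r`-tuples in `H`: there is a set
`K` of at most `2 ^ V` tuples in `H` such that every tuple in `H` can be multiplied by an element of `K`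
so that the product has the property `P`; so the proportion of the tuples with `P` is at least
`2 ^ (-V)` if `H` is finite, and if `H` is infinite, the number of the tuples with product of the
conductors at most `X` is at most `2 ^ V` times the number of the tuples with `P` and with product of
the conductors at most `C X`, `C` independent of `X`. -/
def ManyTuples (V : ℕ) (H : Subgroup Fam) (r : ℕ) (P : (Fin r → Fam) → Prop) : Prop :=
  (∃ K : Finset (Fin r → Fam), K.card ≤ 2 ^ V ∧ (K : Set (Fin r → Fam)) ⊆ Tuples H r ∧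
    ∀ c ∈ Tuples H r, ∃ k ∈ K, P (fun j => c j * k j)) ∧
  ((H : Set Fam).Finite → (Tuples H r).ncard ≤ 2 ^ V * {c | c ∈ Tuples H r ∧ P c}.ncard) ∧
  ∃ C : ℕ, ∀ X : ℕ, {c | c ∈ Tuples H r ∧ ∏ j, conductor (c j) ≤ X}.ncard ≤
    2 ^ V * {c | (c ∈ Tuples H r ∧ P c) ∧ ∏ j, conductor (c j) ≤ C * X}.ncard

/-- The coefficient `a = -27 c₄` of the short Weierstrass equation `y² = x³ + a x + b` of `W`. -/
def ca (W : WeierstrassCurve ℤ) : ℤ := -27 * W.c₄

/-- The coefficient `b = -54 c₆` of the short Weierstrass equation `y² = x³ + a x + b` of `W`. -/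
def cb (W : WeierstrassCurve ℤ) : ℤ := -54 * W.c₆

/-- The `p`-Selmer group of `W` over `ℚ` is trivial: `W(ℚ)` is finite of order prime to `p` and
`Ш(W/ℚ)` has no element of order `p`. -/
def TrivialSelmer (p : ℕ) (W : WeierstrassCurve ℤ) : Prop :=
  Finite (W.map (Int.castRingHom ℚ)).toAffine.Point ∧
  ¬ p ∣ Nat.card (W.map (Int.castRingHom ℚ)).toAffine.Point ∧
  ∀ s : Pool.Agent.TH841.NF.D.Sha (W.map (Int.castRingHom ℚ)), p • s = 0 → s = 0

/-- The `p`-primary part of the Tate-Shafarevich group of `W` over `F`. -/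
def ShaP (p : ℕ) (F : Type) [Field F] [NumberField F] (W : WeierstrassCurve ℤ) :
    Set (Pool.Agent.TH841.NF.D.Sha (W.map (Int.castRingHom F))) := {x | ∃ n : ℕ, p ^ n • x = 0}

/-- For the number field `F ⊂ ℂ` and the curve `W` with newform `f` the rank conjecture holds with
rank `0`, `Ш(W/F)[p^∞] = 0`, and the order of the finite group `W(F)` is prime to `p`. -/
def Holds (p : ℕ) (W : WeierstrassCurve ℤ) {N : ℕ}
    (f : CuspForm (Gamma0 N : Subgroup (GL (Fin 2) ℝ)) 2) (F : IntermediateField ℚ ℂ)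
    [NumberField F] : Prop :=
  BSDRankZeroOver F (ca W) (cb W) f ∧ ShaP p F W = {0} ∧
    Finite (W.map (Int.castRingHom F)).toAffine.Point ∧
    ¬ p ∣ Nat.card (W.map (Int.castRingHom F)).toAffine.Point

theorem pw_eq (t u : ℂ) : ∀ n : ℕ, pw t u n = W165.CE.pw t u n
  | 0 => rfl
  | 1 => rfl
  | n + 2 => by rw [pw, W165.CE.pw, pw_eq t u (n + 1), pw_eq t u n]

theorem factor_eq {F : Type} [Field F] [NumberField F] (a b : ℤ) {N : ℕ}
    (f : CuspForm (Gamma0 N : Subgroup (GL (Fin 2) ℝ)) 2) (s : ℂ) (v : HeightOneSpectrum (𝓞 F)) :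
    factor a b f s v = W165.CE.fac a b N (Pool.Agent.Y18.BSD.co f) s v := by
  unfold factor W165.CE.fac
  rw [pw_eq]
  rfl

theorem bsd_of {F : IntermediateField ℚ ℂ} [NumberField F] {a b : ℤ} {N : ℕ}
    {f : CuspForm (Gamma0 N : Subgroup (GL (Fin 2) ℝ)) 2} (h : Pool.Agent.Y18.NF.RZ F a b f)
    (hfin : Finite (Points F a b)) : BSDRankZeroOver F a b f := by
  classical
  obtain ⟨G, h1, h2, h3⟩ := h
  have h0 : Module.finrank ℤ (Points F a b) = 0 := by
    apply Module.IsTorsion.finrank_eq_zero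
    intro P
    refine ⟨⟨(Nat.card (Points F a b) : ℤ), ?_⟩, ?_⟩
    · rw [mem_nonZeroDivisors_iff_ne_zero]
      exact_mod_cast Nat.card_pos.ne'
    · show (Nat.card (Points F a b) : ℤ) • P = 0
      rw [natCast_zsmul]
      exact card_nsmul_eq_zero'
  refine ⟨G, h1, fun s hs => ?_, ?_, h0⟩
  · refine (congrArg (fun g => HasProd g (G s)) (funext fun v => ?_)).mp (h2 s hs)
    exact (factor_eq a b f s v).symm
  · rw [h0]
    exact analyticOrderAt_eq_zero.2 (Or.inr h3)

theorem shap_of {p : ℕ} {F : Type} [Field F] [NumberField F] {W : WeierstrassCurve ℤ}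
    (h : ∀ s : Pool.Agent.TH841.NF.D.Sha (W.map (Int.castRingHom F)), p • s = 0 → s = 0) :
    ShaP p F W = {0} := by
  have key : ∀ (j : ℕ) (x : Pool.Agent.TH841.NF.D.Sha (W.map (Int.castRingHom F))),
      p ^ j • x = 0 → x = 0 := by
    intro j
    induction j with
    | zero => intro x hx; rw [pow_zero, one_nsmul] at hx; exact hx
    | succ j ih =>
      intro x hx
      rw [pow_succ, mul_nsmul] at hx
      exact ih x (h _ hx)
  ext x
  constructor
  · rintro ⟨k, hk⟩
    exact key k x hk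
  · rintro rfl
    exact ⟨0, nsmul_zero _⟩

/-- the two sides together -/
theorem holds_of {p : ℕ} [hp : Fact p.Prime] (hp2 : p ≠ 2) {m : ℕ} {W : Fin m → WeierstrassCurve ℤ}
    (hΔ : ∀ i, (W i).Δ ≠ 0) (hS : ∀ i, TrivialSelmer p (W i)) {N : Fin m → ℕ}
    (f : (i : Fin m) → CuspForm (Gamma0 (N i) : Subgroup (GL (Fin 2) ℝ)) 2) (n : ℕ)
    (H : Subgroup Fam)
    (hH : Pool.Agent.Y18.LP.HOk m (fun i => ca (W i)) (fun i => cb (W i)) p n H)
    (hspl : ∀ c ∈ H, ∀ q ∈ Run7.h946.OU.badp p W, Pool.Agent.Y18.LP.cvl c q = 1)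
    (F : IntermediateField ℚ ℂ) [NumberField F] (hF : F ≤ groupField H)
    (i : Fin m) (h : Pool.Agent.Y18.NF.RZ F (ca (W i)) (cb (W i)) (f i)) :
    Holds p (W i) (f i) F := by
  obtain ⟨hsha, hpt, hcard⟩ := Run7.h946.OU.sel_curves (W := W) hp2 hΔ
    (fun i => ⟨(hS i).1, (hS i).2.1, (hS i).2.2⟩) n H hH hspl F hF i
  refine ⟨bsd_of h ?_, shap_of hsha, hpt, hcard⟩
  have hfin := Pool.Agent.R425.T.twk_fin (W i) (hΔ i) F hpt
  have e : Pool.Agent.R901.EC.twk (W i) F 1 =
      ({ a₁ := 0, a₂ := 0, a₃ := 0, a₄ := ((ca (W i) : ℤ) : F), a₆ := ((cb (W i) : ℤ) : F) } :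
        WeierstrassCurve F) := by
    unfold Pool.Agent.R901.EC.twk
    rw [one_pow, one_pow, mul_one, mul_one]
    rfl
  rw [e] at hfin
  exact hfin

/-- **Theorem.** Let `p` be an odd prime and `W_1, …, W_m` elliptic curves over `ℚ` with trivial
`p`-Selmer group and `L(W_i, 1) ≠ 0`, and with newforms `f_i`, and let `n` be given.

(1) For every `r` there is `V` such that for every group `H` of Dirichlet characters of order dividing
`p ^ n` and of squarefree conductors composed of primes `q` of good reduction modulo which the numbers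
of the points of the `W_i` are prime to `p`, for a proportion at least `2 ^ (-V)` of the tuples
`(χ_1, …, χ_r)` in `H` the rank conjecture holds with rank `0`, `Ш(W_i/F)[p^∞] = 0`, and the order of
`W_i(F)` is prime to `p`, for all `i` over all number fields `F ⊂ ℂ` contained in the abelian extension
attached to `χ_1, …, χ_r`.

(2) Every infinite group `H` of this kind has an infinite subgroup `H'` such that the same holds for
all `i` over all number fields contained in the infinite abelian extension attached to `H'`. -/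
theorem result (p : ℕ) (hp : p.Prime) (hp2 : p ≠ 2) (m : ℕ) (W : Fin m → WeierstrassCurve ℤ)
    (N : Fin m → ℕ) (f : (i : Fin m) → CuspForm (Gamma0 (N i) : Subgroup (GL (Fin 2) ℝ)) 2)
    (hΔ : ∀ i, (W i).Δ ≠ 0) (hS : ∀ i, TrivialSelmer p (W i)) (hN : ∀ i, N i ≠ 0)
    (hf : ∀ i, IsFormOf (ca (W i)) (cb (W i)) (N i) (f i))
    (h0 : ∀ i, AnalyticRankZero (ca (W i)) (cb (W i))) (n : ℕ) :
    (∀ r : ℕ, ∃ V : ℕ, ∀ H : Subgroup Fam,
      IsCharGroup p (fun i => ca (W i)) (fun i => cb (W i)) n H →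
      ManyTuples V H r (fun c => ∀ (F : IntermediateField ℚ ℂ) [NumberField F], F ≤ fieldOf c →
        ∀ i, Holds p (W i) (f i) F)) ∧
    (∀ H : Subgroup Fam, IsCharGroup p (fun i => ca (W i)) (fun i => cb (W i)) n H →
      (H : Set Fam).Infinite → ∃ H' : Subgroup Fam, H' ≤ H ∧ (H' : Set Fam).Infinite ∧
        ∀ (F : IntermediateField ℚ ℂ) [NumberField F], F ≤ groupField H' →
          ∀ i, Holds p (W i) (f i) F) := by
  haveI : Fact p.Prime := ⟨hp⟩
  have : ∀ i, NeZero (N i) := fun i => ⟨hN i⟩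
  have hne : ∀ i, 4 * ca (W i) ^ 3 + 27 * cb (W i) ^ 2 ≠ 0 := by
    intro i
    have h1 : 4 * ca (W i) ^ 3 + 27 * cb (W i) ^ 2 = -136048896 * (W i).Δ :=
      Pool.Agent.R901.EC.ca_cb (W i)
    rw [h1]
    exact mul_ne_zero (by norm_num) (hΔ i)
  have hff : ∀ i, Pool.Agent.Y18.BSD.IsFormOf (ca (W i)) (cb (W i)) (N i) (f i) :=
    fun i => ⟨(hf i).one, (hf i).real, (hf i).mul, (hf i).pow, (hf i).good, (hf i).bad,
        (hf i).fricke, (hf i).points⟩
  constructor
  · intro r
    obtain ⟨V0, hV0⟩ := Pool.Agent.Y18.LP.fields m (fun i => ca (W i)) (fun i => cb (W i)) hne N f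
      hff h0 p n r hp
    set s := (Run7.h946.OU.badp p W).card with hs
    refine ⟨p * n * s * r + V0, fun H hH => ?_⟩
    have hOk : Pool.Agent.Y18.LP.HOk m (fun i => ca (W i)) (fun i => cb (W i)) p n H :=
      ⟨hH.pow, hH.finite, hH.admissible⟩
    obtain ⟨H1, h1, h2, R, hR1, hR2, h3⟩ := Run7.h946.OU.split_curves hp (W := W) hΔ n H hOk
    have hOk1 : Pool.Agent.Y18.LP.HOk m (fun i => ca (W i)) (fun i => cb (W i)) p n H1 :=
      ⟨fun c hc => hH.pow c (h1 hc), fun c hc => hH.finite c (h1 hc),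
        fun c hc => hH.admissible c (h1 hc)⟩
    obtain ⟨K1, h4, h5, h6⟩ := hV0 H1 hOk1
    have hfinal : ∀ c : Fin r → Fam, (∀ j, c j ∈ H1) → ∃ k ∈ K1,
        (fun c : Fin r → Fam => (∀ j, c j ∈ H1) →
          ∀ (F : IntermediateField ℚ ℂ) [NumberField F], F ≤ fieldOf c →
            ∀ i, Holds p (W i) (f i) F)
          (fun j => c j * k j) := by
      intro c hc
      obtain ⟨k, hk, h7⟩ := h6 c hc
      refine ⟨k, hk, fun hck F _ hF i => ?_⟩
      refine holds_of hp2 hΔ hS f n H1 hOk1 h2 F (hF.trans ?_) i (h7 F hF i)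
      refine IntermediateField.adjoin.mono ℚ _ _ ?_
      rintro x ⟨J, rfl⟩
      exact ⟨∏ j, (c j * k j) ^ J j,
        Pool.Agent.R901.EC.prod_pow_mem (G := Fam) H1 (fun j => c j * k j) hck J, rfl⟩
    obtain ⟨K, h8, h9, h10⟩ := Pool.Agent.R901.EC.corr_tuple (G := Fam) h1 R hR2 h3 K1 h5
      (fun c : Fin r → Fam => (∀ j, c j ∈ H1) →
          ∀ (F : IntermediateField ℚ ℂ) [NumberField F], F ≤ fieldOf c →
            ∀ i, Holds p (W i) (f i) F) hfinal
    have hKcard : K.card ≤ 2 ^ (p * n * s * r + V0) := by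
      refine h8.trans ?_
      rw [pow_add, pow_mul]
      refine Nat.mul_le_mul (Nat.pow_le_pow_left (hR1.trans ?_) r) h4
      rw [pow_mul, pow_mul]
      exact Nat.pow_le_pow_left (Nat.pow_le_pow_left (Nat.lt_two_pow_self).le n) _
    have h11 : ∀ c : Fin r → Fam, (∀ j, c j ∈ H) → ∃ k ∈ K,
        (fun c : Fin r → Fam => ∀ (F : IntermediateField ℚ ℂ) [NumberField F], F ≤ fieldOf c →
          ∀ i, Holds p (W i) (f i) F)
          (fun j => c j * k j) := by
      intro c hc
      obtain ⟨k, hk, h12, h13⟩ := h10 c hc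
      exact ⟨k, hk, h13 h12⟩
    refine ⟨⟨K, hKcard, fun k hk => h9 k hk, h11⟩, ?_⟩
    exact Pool.Agent.R901.EC.many_tuples hH.finite (fun c hc q hq => (hH.admissible c hc q hq).1) K
      hKcard h9 h11
  · intro H hH hinf
    have hOk : Pool.Agent.Y18.LP.HOk m (fun i => ca (W i)) (fun i => cb (W i)) p n H :=
      ⟨hH.pow, hH.finite, hH.admissible⟩
    obtain ⟨H1, h1, h2, R, hR1, hR2, h3⟩ := Run7.h946.OU.split_curves hp (W := W) hΔ n H hOk
    have hOk1 : Pool.Agent.Y18.LP.HOk m (fun i => ca (W i)) (fun i => cb (W i)) p n H1 :=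
      ⟨fun c hc => hH.pow c (h1 hc), fun c hc => hH.finite c (h1 hc),
        fun c hc => hH.admissible c (h1 hc)⟩
    have hinf1 : (H1 : Set Fam).Infinite :=
      Pool.Agent.R901.EC.infinite_of_reps (G := Fam) hinf R h3
    obtain ⟨H0, h4, h5, h6⟩ := Pool.Agent.Y18.LP.tower m (fun i => ca (W i)) (fun i => cb (W i)) hne
      N f hff h0 p n hp H1 hOk1 hinf1
    have hOk0 : Pool.Agent.Y18.LP.HOk m (fun i => ca (W i)) (fun i => cb (W i)) p n H0 :=
      ⟨fun c hc => hOk1.pow c (h4 hc), fun c hc => hOk1.fin c (h4 hc),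
        fun c hc => hOk1.adm c (h4 hc)⟩
    exact ⟨H0, h4.trans h1, h5, fun F _ hF i =>
      holds_of hp2 hΔ hS f n H0 hOk0 (fun c hc => h2 c (h4 hc)) F hF i (h6 F hF i)⟩

end Pool.Agent.Results.MP_f50388_nt.UniformProportionOddPrimes
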